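import Mathlib

set_option autoImplicit false

/-! # Countable closure arguments and generic filters -/

namespace Pool.Agent.ChoicelessEmb

universe u v

/-! ### Countable closure -/

/-- `CReq H R`: the requirement `R` on subsets of `H` can be met by a countable closure
process. -/
def CReq {U : Type u} (H : Set U) (R : Set U → Prop) : Prop :=
  ∃ T : Set U → Set U,
    (∀ A : Set U, A ⊆ H → A.Countable → (T A).Countable ∧ T A ⊆ H) ∧
    ∀ X : ℕ → Set U, Monotone X → (∀ n, X n ⊆ H) → (∀ n, T (X n) ⊆ X (n + 1)) →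
      R (⋃ n, X n)

section CReq

variable {U : Type u} {H : Set U}

theorem CReq.forall {ι : Type v} [Countable ι] {R : ι → Set U → Prop}
    (h : ∀ i, CReq H (R i)) : CReq H fun X => ∀ i, R i X := by
  choose T hT hR using h
  refine ⟨fun A => ⋃ i, T i A, fun A hA hc => ⟨Set.countable_iUnion fun i => (hT i A hA hc).1,
    Set.iUnion_subset fun i => (hT i A hA hc).2⟩, ?_⟩
  intro X hX hH hs i
  exact hR i X hX hH fun n => (Set.subset_iUnion (fun i => T i (X n)) i).trans (hs n)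

theorem CReq.and {R R' : Set U → Prop} (h : CReq H R) (h' : CReq H R') :
    CReq H fun X => R X ∧ R' X := by
  have : CReq H fun X => ∀ b : Bool, (if b then R else R') X := by
    apply CReq.forall
    intro b
    cases b
    · simpa using h'
    · simpa using h
  obtain ⟨T, hT, hR⟩ := this
  refine ⟨T, hT, fun X hX hH hs => ?_⟩
  have := hR X hX hH hs
  exact ⟨by simpa using this true, by simpa using this false⟩

theorem CReq.mono {R R' : Set U → Prop} (h : CReq H R) (hRR : ∀ X, X ⊆ H → R X → R' X) :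
    CReq H R' := by
  obtain ⟨T, hT, hR⟩ := h
  exact ⟨T, hT, fun X hX hH hs => hRR _ (Set.iUnion_subset hH) (hR X hX hH hs)⟩

theorem mem_iUnion_tuple {X : ℕ → Set U} (hX : Monotone X) {k : ℕ} {v : Fin k → U}
    (hv : ∀ i, v i ∈ ⋃ n, X n) : ∃ n, ∀ i, v i ∈ X n := by
  have : ∀ i, ∃ n, v i ∈ X n := fun i => Set.mem_iUnion.1 (hv i)
  choose m hm using this
  refine ⟨Finset.univ.sup m, fun i => hX (Finset.le_sup (Finset.mem_univ i)) (hm i)⟩

theorem countable_tuples {A : Set U} (hA : A.Countable) (k : ℕ) :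
    {v : Fin k → U | ∀ i, v i ∈ A}.Countable := Set.countable_pi fun _ => hA

theorem creq_skolem (k : ℕ) (Pr : (Fin k → U) → U → Prop) :
    CReq H fun X => ∀ v : Fin k → U, (∀ i, v i ∈ X) → (∃ y ∈ H, Pr v y) → ∃ y ∈ X, Pr v y := by
  classical
  refine ⟨fun A => {y | ∃ v : Fin k → U, (∀ i, v i ∈ A) ∧ ∃ h : ∃ y ∈ H, Pr v y, y = h.choose},
    fun A hA hc => ⟨?_, ?_⟩, ?_⟩
  · have h1 := countable_tuples hc k
    refine Set.Countable.mono ?_
      (h1.biUnion (t := fun v _ => {y | ∃ h : ∃ y ∈ H, Pr v y, y = h.choose}) fun v _ => ?_)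
    · rintro y ⟨v, hv, h⟩
      exact Set.mem_biUnion (x := v) hv h
    · apply Set.Subsingleton.countable
      rintro y ⟨h, rfl⟩ y' ⟨h', rfl⟩
      rfl
  · rintro y ⟨v, _, h, rfl⟩
    exact h.choose_spec.1
  · intro X hX hH hs v hv h
    obtain ⟨n, hn⟩ := mem_iUnion_tuple hX hv
    refine ⟨h.choose, Set.mem_iUnion.2 ⟨n + 1, hs n ⟨v, hn, h, rfl⟩⟩, h.choose_spec.2⟩

theorem creq_op (k : ℕ) (f : (Fin k → U) → U) (hf : ∀ v, (∀ i, v i ∈ H) → f v ∈ H) :
    CReq H fun X => ∀ v : Fin k → U, (∀ i, v i ∈ X) → f v ∈ X := by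
  refine (creq_skolem (H := H) k fun v y => y = f v).mono ?_
  intro X hXH h v hv
  obtain ⟨y, hy, rfl⟩ := h v hv ⟨f v, hf v fun i => hXH (hv i), rfl⟩
  exact hy

theorem CReq.comap {V : Type u} (i : V → U) (hi : Function.Injective i) {R : Set V → Prop}
    (h : CReq (i ⁻¹' H) R) : CReq H fun X => R (i ⁻¹' X) := by
  obtain ⟨T, hT, hR⟩ := h
  refine ⟨fun A => i '' (T (i ⁻¹' A)), fun A hA hc => ?_, ?_⟩
  · have hpc : (i ⁻¹' A).Countable := hc.preimage_of_injOn hi.injOn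
    obtain ⟨h1, h2⟩ := hT (i ⁻¹' A) (Set.preimage_mono hA) hpc
    exact ⟨h1.image i, Set.image_subset_iff.2 h2⟩
  · intro X hX hH hs
    rw [Set.preimage_iUnion]
    apply hR
    · intro m n hmn
      exact Set.preimage_mono (hX hmn)
    · intro n
      exact Set.preimage_mono (hH n)
    · intro n
      exact Set.image_subset_iff.1 (hs n)

theorem CReq.exists {R : Set U → Prop} (h : CReq H R) {A : Set U} (hA : A ⊆ H)
    (hc : A.Countable) : ∃ X, A ⊆ X ∧ X ⊆ H ∧ X.Countable ∧ R X := by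
  obtain ⟨T, hT, hR⟩ := h
  let X : ℕ → Set U := fun n => Nat.rec A (fun _ B => B ∪ T B) n
  have hX1 : ∀ n, X (n + 1) = X n ∪ T (X n) := fun n => rfl
  have hXp : ∀ n, X n ⊆ H ∧ (X n).Countable := by
    intro n
    induction n with
    | zero => exact ⟨hA, hc⟩
    | succ n ih =>
      rw [hX1]
      obtain ⟨h1, h2⟩ := hT _ ih.1 ih.2
      exact ⟨Set.union_subset ih.1 h2, ih.2.union h1⟩
  refine ⟨⋃ n, X n, Set.subset_iUnion X 0, Set.iUnion_subset fun n => (hXp n).1,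
    Set.countable_iUnion fun n => (hXp n).2, ?_⟩
  apply hR X
  · apply monotone_nat_of_le_succ
    intro n
    rw [hX1]
    exact Set.subset_union_left
  · exact fun n => (hXp n).1
  · intro n
    rw [hX1]
    exact Set.subset_union_right

end CReq

/-! ### Filters -/

/-- A filter on a preorder with top. -/
structure IsFil {P : Type*} [Preorder P] [OrderTop P] (g : Set P) : Prop where
  top_mem : ⊤ ∈ g
  up : ∀ p q, p ∈ g → p ≤ q → q ∈ g
  dir : ∀ p q, p ∈ g → q ∈ g → ∃ r ∈ g, r ≤ p ∧ r ≤ q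

/-- `g` decides the set `S`. -/
def Dec {P : Type*} [Preorder P] (g S : Set P) : Prop :=
  (∃ p ∈ g, p ∈ S) ∨ ∃ p ∈ g, ∀ r ≤ p, r ∉ S

open Classical in
/-- A descending sequence deciding the sets `f n`. -/
noncomputable def gseq {P : Type*} [Preorder P] [OrderTop P] (f : ℕ → Set P) : ℕ → P
  | 0 => ⊤
  | n + 1 => if h : ∃ r, r ≤ gseq f n ∧ r ∈ f n then h.choose else gseq f n

theorem gseq_succ {P : Type*} [Preorder P] [OrderTop P] (f : ℕ → Set P) (n : ℕ) :
    gseq f (n + 1) ≤ gseq f n ∧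
      ((∃ r, r ≤ gseq f n ∧ r ∈ f n) → gseq f (n + 1) ∈ f n) := by
  rw [gseq]
  split_ifs with h
  · exact ⟨h.choose_spec.1, fun _ => h.choose_spec.2⟩
  · exact ⟨le_rfl, fun h' => absurd h' h⟩

theorem exists_generic {P : Type*} [Preorder P] [OrderTop P] (𝒮 : Set (Set P))
    (h : 𝒮.Countable) : ∃ g : Set P, IsFil g ∧ ∀ S ∈ 𝒮, Dec g S := by
  classical
  obtain ⟨f, hf⟩ : ∃ f : ℕ → Set P, 𝒮 ⊆ Set.range f := by
    by_cases hn : 𝒮.Nonempty
    · obtain ⟨f, hf⟩ := h.exists_eq_range hn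
      exact ⟨f, hf.le⟩
    · exact ⟨fun _ => ∅, by rw [Set.not_nonempty_iff_eq_empty.1 hn]; exact Set.empty_subset _⟩
  let p : ℕ → P := gseq f
  have hle : ∀ n, p (n + 1) ≤ p n := fun n => (gseq_succ f n).1
  have hanti : Antitone p := antitone_nat_of_succ_le hle
  refine ⟨{q | ∃ n, p n ≤ q}, ⟨⟨0, le_rfl⟩, ?_, ?_⟩, ?_⟩
  · rintro a b ⟨n, hn⟩ hab
    exact ⟨n, hn.trans hab⟩
  · rintro a b ⟨n, hn⟩ ⟨m, hm⟩
    exact ⟨p (max n m), ⟨_, le_rfl⟩, (hanti (le_max_left n m)).trans hn,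
      (hanti (le_max_right n m)).trans hm⟩
  · intro S hS
    obtain ⟨n, rfl⟩ := hf hS
    by_cases h : ∃ r, r ≤ p n ∧ r ∈ f n
    · left
      exact ⟨p (n + 1), ⟨_, le_rfl⟩, (gseq_succ f n).2 h⟩
    · right
      refine ⟨p n, ⟨_, le_rfl⟩, fun r hr hrS => h ⟨r, hr, hrS⟩⟩

end Pool.Agent.ChoicelessEmb
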