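import Pool.Agent.ChoicelessEmb.Formula

set_option autoImplicit false

/-! # Finite support products, symmetric names -/

namespace Pool.Agent.ChoicelessEmb

open FirstOrder LName

/-- Conditions: functions `I → C` with finite support. -/
def Cond (C I : Type) [PartialOrder C] [OrderTop C] : Type :=
  {p : I → C // {i | p i ≠ ⊤}.Finite}

section Cond

variable {C : Type} [PartialOrder C] [OrderTop C] {I I' I'' : Type}

instance : PartialOrder (Cond C I) := inferInstanceAs (PartialOrder {_p : I → C // _})

instance : OrderTop (Cond C I) where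
  top := ⟨fun _ => ⊤, by simp⟩
  le_top p := fun _ => le_top

theorem Cond.ext' {p q : Cond C I} (h : ∀ i, p.1 i = q.1 i) : p = q := Subtype.ext (funext h)

theorem Cond.le_def {p q : Cond C I} : p ≤ q ↔ ∀ i, p.1 i ≤ q.1 i := Iff.rfl

@[simp] theorem Cond.top_apply (i : I) : (⊤ : Cond C I).1 i = ⊤ := rfl

instance [Countable C] [Countable I] : Countable (Cond C I) := by
  classical
  have hinj : Function.Injective
      (fun p : Cond C I => (p.2.toFinset.image fun i => (i, p.1 i) : Finset (I × C))) := by
    intro p q h
    simp only at h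
    have key : ∀ (p q : Cond C I), (p.2.toFinset.image fun i => (i, p.1 i)) =
        (q.2.toFinset.image fun i => (i, q.1 i)) → ∀ i, p.1 i ≠ ⊤ → p.1 i = q.1 i := by
      intro p q h i hi
      have : (i, p.1 i) ∈ (q.2.toFinset.image fun i => (i, q.1 i)) := by
        rw [← h]
        exact Finset.mem_image.2 ⟨i, by simpa using hi, rfl⟩
      obtain ⟨j, _, hj⟩ := Finset.mem_image.1 this
      simp only [Prod.mk.injEq] at hj
      obtain ⟨rfl, hj⟩ := hj
      exact hj.symm
    apply Cond.ext'
    intro i
    by_cases hi : p.1 i = ⊤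
    · by_cases hj : q.1 i = ⊤
      · rw [hi, hj]
      · exact (key q p h.symm i hj).symm
    · exact key p q h i hi
  exact hinj.countable

/-- The isomorphism of conditions induced by a bijection of index sets. -/
def condIso (e : I ≃ I') : Cond C I ≃o Cond C I' where
  toFun p := ⟨fun i => p.1 (e.symm i), by
    have := p.2.image e
    refine this.subset ?_
    intro i hi
    exact ⟨e.symm i, hi, e.apply_symm_apply i⟩⟩
  invFun p := ⟨fun i => p.1 (e i), by
    have := p.2.image e.symm
    refine this.subset ?_
    intro i hi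
    exact ⟨e i, hi, e.symm_apply_apply i⟩⟩
  left_inv p := Cond.ext' fun i => by simp
  right_inv p := Cond.ext' fun i => by simp
  map_rel_iff' := by
    intro p q
    constructor
    · intro h i
      have h' : p.1 (e.symm (e i)) ≤ q.1 (e.symm (e i)) := h (e i)
      rwa [e.symm_apply_apply] at h'
    · intro h i
      exact h (e.symm i)

@[simp] theorem condIso_apply (e : I ≃ I') (p : Cond C I) (i : I') :
    (condIso e p).1 i = p.1 (e.symm i) := rfl

@[simp] theorem condIso_symm_apply (e : I ≃ I') (p : Cond C I') (i : I) :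
    ((condIso e).symm p).1 i = p.1 (e i) := rfl

theorem condIso_symm (e : I ≃ I') : (condIso (C := C) e).symm = condIso e.symm := by
  ext p
  exact Cond.ext' fun i => rfl

theorem condIso_condIso (e : I ≃ I') (e' : I' ≃ I'') (p : Cond C I) :
    condIso e' (condIso e p) = condIso (e.trans e') p := Cond.ext' fun _ => rfl

theorem condIso_top (e : I ≃ I') : condIso e (⊤ : Cond C I) = ⊤ := Cond.ext' fun _ => rfl

/-- Restriction of a condition to a set of indices. -/
noncomputable def restr (E : Set I) (p : Cond C I) : Cond C I := by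
  classical exact ⟨fun i => if i ∈ E then p.1 i else ⊤, by
    refine p.2.subset ?_
    intro i hi
    simp only [Set.mem_ofPred_eq] at hi ⊢
    split_ifs at hi
    · exact hi
    · exact absurd rfl hi⟩

theorem restr_apply_mem {E : Set I} {p : Cond C I} {i : I} (h : i ∈ E) :
    (restr E p).1 i = p.1 i := by
  simp [restr, h]

theorem restr_apply_notMem {E : Set I} {p : Cond C I} {i : I} (h : i ∉ E) :
    (restr E p).1 i = ⊤ := by
  simp [restr, h]

theorem le_restr (E : Set I) (p : Cond C I) : p ≤ restr E p := by
  intro i
  by_cases h : i ∈ E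
  · rw [restr_apply_mem h]
  · rw [restr_apply_notMem h]; exact le_top

/-- The condition with value `s` at `i` and trivial elsewhere. -/
noncomputable def single (i : I) (s : C) : Cond C I := by
  classical exact ⟨fun k => if k = i then s else ⊤, by
    refine (Set.finite_singleton i).subset ?_
    intro k hk
    simp only [Set.mem_ofPred_eq, ne_eq, ite_eq_right_iff, Classical.not_imp] at hk
    exact hk.1⟩

@[simp] theorem single_self (i : I) (s : C) : (single i s).1 i = s := by simp [single]

theorem single_ne {i k : I} (h : k ≠ i) (s : C) : (single i s).1 k = ⊤ := by simp [single, h]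

theorem le_single {i : I} {s : C} {p : Cond C I} : p ≤ single i s ↔ p.1 i ≤ s := by
  constructor
  · intro h; have := h i; rwa [single_self] at this
  · intro h k
    by_cases hk : k = i
    · subst hk; rwa [single_self]
    · rw [single_ne hk]; exact le_top

theorem condIso_single (e : I ≃ I') (i : I) (s : C) :
    condIso e (single i s) = single (e i) s := by
  apply Cond.ext'
  intro k
  by_cases h : k = e i
  · subst h; simp
  · rw [single_ne h, condIso_apply, single_ne]
    intro h'
    apply h
    rw [← h', e.apply_symm_apply]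

/-- Action of bijections of index sets on names. -/
noncomputable def act (e : I ≃ I') (x : LName (Cond C I)) : LName (Cond C I') :=
  LName.map (condIso e) x

theorem act_act (e : I ≃ I') (e' : I' ≃ I'') (x : LName (Cond C I)) :
    act e' (act e x) = act (e.trans e') x := by
  unfold act
  rw [map_map]
  exact map_congr (fun p => condIso_condIso e e' p) x

theorem act_refl (x : LName (Cond C I)) : act (Equiv.refl I) x = x :=
  map_id_of (fun _ => Cond.ext' fun _ => rfl) x

theorem act_symm_act (e : I ≃ I') (x : LName (Cond C I)) : act e.symm (act e x) = x := by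
  rw [act_act, Equiv.self_trans_symm, act_refl]

theorem act_act_symm (e : I ≃ I') (x : LName (Cond C I')) : act e (act e.symm x) = x := by
  rw [act_act, Equiv.symm_trans_self, act_refl]

theorem mem_ch_act {e : I ≃ I'} {x : LName (Cond C I)} {v : LName (Cond C I')}
    {d : Cond C I'} :
    (v, d) ∈ ch (act e x) ↔ ∃ u c, (u, c) ∈ ch x ∧ v = act e u ∧ d = condIso e c :=
  mem_ch_map

theorem act_mem {e : I ≃ I'} {x u : LName (Cond C I)} {c : Cond C I} (h : (u, c) ∈ ch x) :
    (act e u, condIso e c) ∈ ch (act e x) := mem_ch_act.2 ⟨u, c, h, rfl, rfl⟩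

/-- `E` supports the name `x`. -/
def Supp (E : Set I) (x : LName (Cond C I)) : Prop :=
  ∀ π : I ≃ I, (∀ i ∈ E, π i = i) → act π x = x

theorem Supp.mono {E E' : Set I} {x : LName (Cond C I)} (h : Supp E x) (hE : E ⊆ E') :
    Supp E' x := fun π hπ => h π fun i hi => hπ i (hE hi)

theorem supp_of {E : Set I} {x : LName (Cond C I)}
    (h : ∀ π : I ≃ I, (∀ i ∈ E, π i = i) → ∀ u c, (u, c) ∈ ch x →
      (act π u, condIso π c) ∈ ch x) : Supp E x := by
  intro π hπ
  apply LName.ext
  ext ⟨v, d⟩
  rw [mem_ch_act]
  constructor
  · rintro ⟨u, c, hu, rfl, rfl⟩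
    exact h π hπ u c hu
  · intro hv
    refine ⟨act π.symm v, condIso π.symm d, h π.symm ?_ v d hv, ?_, ?_⟩
    · intro i hi
      rw [Equiv.symm_apply_eq, hπ i hi]
    · rw [act_act_symm]
    · rw [condIso_condIso, Equiv.symm_trans_self]
      exact Cond.ext' fun _ => rfl

theorem Supp.mem {E : Set I} {x : LName (Cond C I)} (h : Supp E x) {π : I ≃ I}
    (hπ : ∀ i ∈ E, π i = i) {u : LName (Cond C I)} {c : Cond C I} (hu : (u, c) ∈ ch x) :
    (act π u, condIso π c) ∈ ch x := by
  have := act_mem (e := π) hu
  rwa [h π hπ] at this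

theorem Supp.act {E : Set I} {x : LName (Cond C I)} (h : Supp E x) (e : I ≃ I') :
    Supp (e '' E) (act e x) := by
  intro π hπ
  have h1 : ChoicelessEmb.act (e.trans (π.trans e.symm)) x = x := by
    apply h
    intro i hi
    simp only [Equiv.trans_apply]
    rw [hπ (e i) ⟨i, hi, rfl⟩, e.symm_apply_apply]
  have h2 : ChoicelessEmb.act e (ChoicelessEmb.act (e.trans (π.trans e.symm)) x) =
      ChoicelessEmb.act π (ChoicelessEmb.act e x) := by
    rw [act_act, act_act]
    congr 1
    ext i
    simp
  rw [← h2, h1]

/-- Hereditarily symmetric names. -/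
inductive HS : LName (Cond C I) → Prop
  | intro (x : LName (Cond C I)) (E : Set I) (hE : E.Finite) (hx : Supp E x)
      (h : ∀ u c, (u, c) ∈ ch x → HS u) : HS x

theorem HS.supp {x : LName (Cond C I)} (h : HS x) : ∃ E : Set I, E.Finite ∧ Supp E x := by
  cases h with
  | intro x E hE hx h => exact ⟨E, hE, hx⟩

theorem HS.ch {x : LName (Cond C I)} (h : HS x) {u : LName (Cond C I)} {c : Cond C I}
    (hu : (u, c) ∈ LName.ch x) : HS u := by
  cases h with
  | intro x E hE hx h => exact h u c hu

theorem HS.act {x : LName (Cond C I)} (h : HS x) (e : I ≃ I') : HS (act e x) := by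
  induction h with
  | intro x E hE hx h ih =>
    refine HS.intro _ (e '' E) (hE.image e) (hx.act e) ?_
    intro v d hv
    obtain ⟨u, c, hu, rfl, rfl⟩ := mem_ch_act.1 hv
    exact ih u c hu

/-- The class of hereditarily symmetric names. -/
def HSset (C I : Type) [PartialOrder C] [OrderTop C] : Set (LName (Cond C I)) := {x | HS x}

/-- The name of the empty set. -/
noncomputable def emptyN : LName (Cond C I) := LName.mk ∅

theorem ch_emptyN : ch (emptyN : LName (Cond C I)) = ∅ := ch_mk ∅

theorem HS_emptyN : HS (emptyN : LName (Cond C I)) := by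
  refine HS.intro _ ∅ Set.finite_empty ?_ ?_
  · apply supp_of
    intro π _ u c hu
    rw [ch_emptyN] at hu
    exact hu.elim
  · intro u c hu
    rw [ch_emptyN] at hu
    exact hu.elim

/-! ### Permutations -/

theorem exists_perm [Infinite I] (E B A : Set I) (hE : E.Finite) (hB : B.Finite)
    (hA : A.Finite) (hAE : Disjoint A E) :
    ∃ π : I ≃ I, (∀ i ∈ E, π i = i) ∧ ∀ i ∈ A, π i ∉ B := by
  classical
  induction A, hA using Set.Finite.induction_on with
  | empty => exact ⟨Equiv.refl I, fun _ _ => rfl, fun _ h => h.elim⟩
  | @insert a A haA hAf ih =>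
    obtain ⟨π, hπ, hπA⟩ := ih (hAE.mono_left (Set.subset_insert a A))
    have hfin : (E ∪ B ∪ π '' A ∪ {π a}).Finite :=
      ((hE.union hB).union (hAf.image π)).union (Set.finite_singleton _)
    obtain ⟨c, hc⟩ := hfin.exists_notMem
    simp only [Set.mem_union, Set.mem_image, Set.mem_singleton_iff, not_or, not_exists,
      not_and] at hc
    obtain ⟨⟨⟨hcE, hcB⟩, hcA⟩, hca⟩ := hc
    have haE : a ∉ E := fun h => hAE.le_bot ⟨Set.mem_insert a A, h⟩
    refine ⟨π.trans (Equiv.swap (π a) c), ?_, ?_⟩
    · intro i hi
      rw [Equiv.trans_apply, hπ i hi]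
      apply Equiv.swap_apply_of_ne_of_ne
      · intro h
        apply haE
        have : π i = π a := by rw [hπ i hi]; exact h
        rw [← π.injective this]; exact hi
      · rintro rfl; exact hcE hi
    · intro i hi
      rw [Equiv.trans_apply]
      rcases Set.mem_insert_iff.1 hi with rfl | hi
      · rw [Equiv.swap_apply_left]; exact hcB
      · rw [Equiv.swap_apply_of_ne_of_ne]
        · exact hπA i hi
        · intro h
          exact haA (π.injective h ▸ hi)
        · exact fun h => hcA i hi h

end Cond

end Pool.Agent.ChoicelessEmb
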