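import Pool.Agent.ChoicelessEmb.ZFModel

set_option autoImplicit false

/-! # Operations between names over `ℕ` and names over `Option ℕ` -/

namespace Pool.Agent.ChoicelessEmb

open FirstOrder LName

section Cross

variable {C : Type} [PartialOrder C] [OrderTop C]

/-- Extend a condition by the trivial value at `none`. -/
def extC (p : Cond C ℕ) : Cond C (Option ℕ) :=
  ⟨fun i => match i with
    | none => ⊤
    | some n => p.1 n, by
    refine (p.2.image some).subset ?_
    rintro (_ | n) hn
    · exact absurd rfl hn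
    · exact ⟨n, hn, rfl⟩⟩

/-- Forget the value at `none`. -/
def resC (r : Cond C (Option ℕ)) : Cond C ℕ :=
  ⟨fun n => r.1 (some n), by
    refine (r.2.preimage (Option.some_injective ℕ).injOn).subset ?_
    intro n hn
    exact hn⟩

/-- Combine a condition over `ℕ` and a value at `none`. -/
def glue (p : Cond C ℕ) (s : C) : Cond C (Option ℕ) :=
  ⟨fun i => match i with
    | none => s
    | some n => p.1 n, by
    refine ((p.2.image some).insert none).subset ?_
    rintro (_ | n) hn
    · exact Or.inl rfl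
    · exact Or.inr ⟨n, hn, rfl⟩⟩

@[simp] theorem extC_none (p : Cond C ℕ) : (extC p).1 none = ⊤ := rfl
@[simp] theorem extC_some (p : Cond C ℕ) (n : ℕ) : (extC p).1 (some n) = p.1 n := rfl
@[simp] theorem resC_apply (r : Cond C (Option ℕ)) (n : ℕ) : (resC r).1 n = r.1 (some n) := rfl
@[simp] theorem glue_none (p : Cond C ℕ) (s : C) : (glue p s).1 none = s := rfl
@[simp] theorem glue_some (p : Cond C ℕ) (s : C) (n : ℕ) : (glue p s).1 (some n) = p.1 n := rfl

theorem resC_glue (p : Cond C ℕ) (s : C) : resC (glue p s) = p := Cond.ext' fun _ => rfl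
theorem resC_extC (p : Cond C ℕ) : resC (extC p) = p := Cond.ext' fun _ => rfl

theorem glue_resC (r : Cond C (Option ℕ)) : glue (resC r) (r.1 none) = r :=
  Cond.ext' fun i => by cases i <;> rfl

theorem resC_mono {r r' : Cond C (Option ℕ)} (h : r ≤ r') : resC r ≤ resC r' :=
  fun n => h (some n)

theorem extC_le_extC {p q : Cond C ℕ} : extC p ≤ extC q ↔ p ≤ q := by
  constructor
  · intro h n; exact h (some n)
  · rintro h (_ | n)
    · exact le_rfl
    · exact h n

theorem le_extC {r : Cond C (Option ℕ)} {p : Cond C ℕ} : r ≤ extC p ↔ resC r ≤ p := by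
  constructor
  · intro h n; exact h (some n)
  · rintro h (_ | n)
    · exact le_top
    · exact h n

theorem glue_le {r : Cond C (Option ℕ)} {p : Cond C ℕ} {s : C} :
    glue p s ≤ r ↔ p ≤ resC r ∧ s ≤ r.1 none := by
  constructor
  · intro h; exact ⟨fun n => h (some n), h none⟩
  · rintro ⟨h1, h2⟩ (_ | n)
    · exact h2
    · exact h1 n

theorem le_glue {r : Cond C (Option ℕ)} {p : Cond C ℕ} {s : C} :
    r ≤ glue p s ↔ resC r ≤ p ∧ r.1 none ≤ s := by
  constructor
  · intro h; exact ⟨fun n => h (some n), h none⟩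
  · rintro ⟨h1, h2⟩ (_ | n)
    · exact h2
    · exact h1 n

theorem condIso_extC (π : ℕ ≃ ℕ) (p : Cond C ℕ) :
    condIso π.optionCongr (extC p) = extC (condIso π p) :=
  Cond.ext' fun i => by cases i <;> rfl

theorem resC_condIso (π : ℕ ≃ ℕ) (r : Cond C (Option ℕ)) :
    resC (condIso π.optionCongr r) = condIso π (resC r) :=
  Cond.ext' fun _ => rfl

theorem condIso_none (π : ℕ ≃ ℕ) (r : Cond C (Option ℕ)) :
    (condIso π.optionCongr r).1 none = r.1 none := rfl

theorem exists_optionCongr (π : Option ℕ ≃ Option ℕ) (h : π none = none) :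
    ∃ π' : ℕ ≃ ℕ, π = π'.optionCongr := by
  refine ⟨π.removeNone, ?_⟩
  ext1 i
  cases i with
  | none => rw [h]; rfl
  | some n =>
    have : π (some n) ≠ none := by
      intro h'
      have := π.injective (h'.trans h.symm)
      cases this
    obtain ⟨m, hm⟩ := Option.ne_none_iff_exists'.1 this
    rw [Equiv.optionCongr_apply, Option.map_some]
    exact (Equiv.removeNone_some π ⟨m, hm⟩).symm

theorem fix_optionCongr {π : ℕ ≃ ℕ} {E : Set ℕ} (h : ∀ i ∈ some '' E ∪ {none},
    π.optionCongr i = i) : ∀ n ∈ E, π n = n := by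
  intro n hn
  have := h (some n) (Or.inl ⟨n, hn, rfl⟩)
  simpa using this

theorem fix_optionCongr' {π : ℕ ≃ ℕ} {E : Set (Option ℕ)} (h : ∀ n, some n ∈ E → π n = n) :
    ∀ i ∈ E, π.optionCongr i = i := by
  rintro (_ | n) hi
  · rfl
  · simp [h n hi]

/-! ### The inclusion of names -/

/-- The canonical inclusion of names over `ℕ` into names over `Option ℕ`. -/
noncomputable def iotaN (x : LName (Cond C ℕ)) : LName (Cond C (Option ℕ)) := LName.map extC x

theorem mem_ch_iotaN {x : LName (Cond C ℕ)} {v : LName (Cond C (Option ℕ))}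
    {d : Cond C (Option ℕ)} :
    (v, d) ∈ ch (iotaN x) ↔ ∃ u c, (u, c) ∈ ch x ∧ v = iotaN u ∧ d = extC c := mem_ch_map

theorem act_iotaN (π : ℕ ≃ ℕ) (x : LName (Cond C ℕ)) :
    act π.optionCongr (iotaN x) = iotaN (act π x) := by
  unfold act iotaN
  rw [LName.map_map, LName.map_map]
  exact map_congr (fun p => condIso_extC π p) x

/-- Membership in the class of hereditarily symmetric names can be checked with permutations
fixing `none`. -/
theorem HS_of_optionCongr {x : LName (Cond C (Option ℕ))} {E : Set ℕ} (hE : E.Finite)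
    (h : ∀ π : ℕ ≃ ℕ, (∀ n ∈ E, π n = n) → act π.optionCongr x = x)
    (h' : ∀ u c, (u, c) ∈ ch x → HS u) : HS x := by
  refine HS.intro x (some '' E ∪ {none}) ((hE.image _).union (Set.finite_singleton _)) ?_ h'
  intro π hπ
  obtain ⟨π', rfl⟩ := exists_optionCongr π (hπ none (Or.inr rfl))
  exact h π' (fix_optionCongr hπ)

theorem HS_iotaN {x : LName (Cond C ℕ)} (hx : HS x) : HS (iotaN x) := by
  induction hx with
  | intro x E hE hx h ih =>
    refine HS_of_optionCongr hE ?_ ?_
    · intro π hπ
      rw [act_iotaN, hx π hπ]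
    · intro v d hv
      obtain ⟨u, c, hu, rfl, rfl⟩ := mem_ch_iotaN.1 hv
      exact ih u c hu

/-! ### The embedding on names -/

/-- A bijection from `ℕ` to `Option ℕ` which is the canonical inclusion below `m`. -/
def eqm (m : ℕ) : ℕ ≃ Option ℕ where
  toFun n := if n < m then some n else if n = m then none else some (n - 1)
  invFun i := match i with
    | none => m
    | some k => if k < m then k else k + 1
  left_inv n := by
    by_cases h : n < m
    · simp [h]
    · by_cases h' : n = m
      · simp [h']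
      · have h1 : ¬ (n - 1 < m) := by omega
        simp only [h, h', if_false, h1]
        omega
  right_inv i := by
    cases i with
    | none => simp
    | some k =>
      by_cases h : k < m
      · simp [h]
      · have h1 : ¬ (k + 1 < m) := by omega
        have h2 : ¬ (k + 1 = m) := by omega
        simp [h, h1, h2]

theorem eqm_apply {m n : ℕ} (h : n < m) : eqm m n = some n := by
  change (if n < m then some n else if n = m then none else some (n - 1)) = some n
  rw [if_pos h]

theorem act_eq_of_fix {E : Set ℕ} {z : LName (Cond C ℕ)} (hz : Supp E z) {e e' : ℕ ≃ Option ℕ}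
    (he : ∀ n ∈ E, e n = some n) (he' : ∀ n ∈ E, e' n = some n) : act e z = act e' z := by
  have h1 : act (e'.trans e.symm) z = z := by
    apply hz
    intro n hn
    rw [Equiv.trans_apply, he' n hn, ← he n hn, e.symm_apply_apply]
  have h2 : act e (act (e'.trans e.symm) z) = act e' z := by
    rw [act_act]
    congr 1
    ext1 i
    simp
  rw [← h2, h1]

theorem exists_supp_lt {z : LName (Cond C ℕ)} (hz : HS z) : ∃ m, Supp {n | n < m} z := by
  obtain ⟨E, hE, hs⟩ := hz.supp
  obtain ⟨m, hm⟩ := hE.bddAbove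
  exact ⟨m + 1, hs.mono fun n hn => Nat.lt_succ_of_le (hm hn)⟩

open Classical in
/-- A bound for a support. -/
noncomputable def mOf (z : LName (Cond C ℕ)) : ℕ :=
  if h : ∃ m, Supp {n | n < m} z then h.choose else 0

/-- The embedding on names. -/
noncomputable def jn (z : LName (Cond C ℕ)) : LName (Cond C (Option ℕ)) :=
  act (eqm (mOf z)) z

theorem jn_eq {z : LName (Cond C ℕ)} (hz : HS z) {E : Set ℕ} (hE : E.Finite) (hs : Supp E z)
    {e : ℕ ≃ Option ℕ} (he : ∀ n ∈ E, e n = some n) : jn z = act e z := by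
  have h := exists_supp_lt hz
  have hm : Supp {n | n < mOf z} z := by
    unfold mOf
    rw [dif_pos h]
    exact h.choose_spec
  obtain ⟨M, hM⟩ := hE.bddAbove
  have h1 : act e z = act (eqm (max (mOf z) (M + 1))) z :=
    act_eq_of_fix hs he fun n hn => eqm_apply
      (lt_of_lt_of_le (Nat.lt_succ_of_le (hM hn)) (le_max_right _ _))
  have h2 : act (eqm (mOf z)) z = act (eqm (max (mOf z) (M + 1))) z :=
    act_eq_of_fix hm (fun n hn => eqm_apply hn) fun n hn => eqm_apply
      (lt_of_lt_of_le hn (le_max_left _ _))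
  rw [h1, ← h2]
  rfl

theorem HS_jn {z : LName (Cond C ℕ)} (hz : HS z) : HS (jn z) := hz.act _

theorem exists_fix {E : Set ℕ} (hE : E.Finite) : ∃ e : ℕ ≃ Option ℕ, ∀ n ∈ E, e n = some n := by
  obtain ⟨M, hM⟩ := hE.bddAbove
  exact ⟨eqm (M + 1), fun n hn => eqm_apply (Nat.lt_succ_of_le (hM hn))⟩

theorem act_jn (π : ℕ ≃ ℕ) {z : LName (Cond C ℕ)} (hz : HS z) :
    act π.optionCongr (jn z) = jn (act π z) := by
  obtain ⟨E, hE, hs⟩ := hz.supp
  obtain ⟨e, he⟩ := exists_fix hE
  rw [jn_eq hz hE hs he, act_act,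
    jn_eq (e := π.symm.trans (e.trans π.optionCongr)) (hz.act π) (hE.image π) (hs.act π), act_act]
  · congr 1
    ext1 i
    simp
  · rintro _ ⟨n, hn, rfl⟩
    simp [he n hn]

/-! ### Partial evaluation: a name over `Option ℕ` gives a name of a name -/

variable (code : C → ZFSet.{0})

/-- The name over `ℕ` of the `C`-name obtained by partial evaluation. -/
noncomputable def star : LName (Cond C (Option ℕ)) → LName (Cond C ℕ) :=
  child_wf.fix fun x ih => LName.mk {a | ∃ b : ch x,
    a = (opairN (ih b.1.1 ⟨b.1.2, b.2⟩) (checkN (code (b.1.2.1 none))), resC b.1.2)}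

theorem mem_ch_star {x : LName (Cond C (Option ℕ))} {v : LName (Cond C ℕ)} {d : Cond C ℕ} :
    (v, d) ∈ ch (star code x) ↔ ∃ u c, (u, c) ∈ ch x ∧
      v = opairN (star code u) (checkN (code (c.1 none))) ∧ d = resC c := by
  have h1 : star code x = LName.mk {a | ∃ b : ch x,
      a = (opairN (star code b.1.1) (checkN (code (b.1.2.1 none))), resC b.1.2)} := by
    conv_lhs => unfold star
    rw [WellFounded.fix_eq]
    rfl
  have : Small.{0} {a : LName (Cond C ℕ) × Cond C ℕ | ∃ b : ch x,
      a = (opairN (star code b.1.1) (checkN (code (b.1.2.1 none))), resC b.1.2)} := by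
    apply smallR (fun b : ch x =>
      (opairN (star code b.1.1) (checkN (code (b.1.2.1 none))), resC b.1.2))
    rintro a ⟨b, rfl⟩
    exact ⟨b, rfl⟩
  rw [h1, ch_mk]
  constructor
  · rintro ⟨⟨⟨u, c⟩, hu⟩, h⟩
    simp only [Prod.mk.injEq] at h
    exact ⟨u, c, hu, h.1, h.2⟩
  · rintro ⟨u, c, hu, rfl, rfl⟩
    exact ⟨⟨(u, c), hu⟩, rfl⟩

theorem act_star (π : ℕ ≃ ℕ) (x : LName (Cond C (Option ℕ))) :
    act π (star code x) = star code (act π.optionCongr x) := by
  induction x using LName.induction with
  | h x ih =>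
    apply LName.ext
    ext ⟨v, d⟩
    rw [mem_ch_act, mem_ch_star]
    constructor
    · rintro ⟨w, e, hw, rfl, rfl⟩
      obtain ⟨u, c, hu, rfl, rfl⟩ := (mem_ch_star code).1 hw
      refine ⟨act π.optionCongr u, condIso π.optionCongr c, act_mem hu, ?_, ?_⟩
      · rw [act_opairN, ih u c hu, act_checkN, condIso_none]
      · rw [resC_condIso]
    · rintro ⟨u', c', hu', rfl, rfl⟩
      obtain ⟨u, c, hu, rfl, rfl⟩ := mem_ch_act.1 hu'
      refine ⟨opairN (star code u) (checkN (code (c.1 none))), resC c,
        (mem_ch_star code).2 ⟨u, c, hu, rfl, rfl⟩, ?_, ?_⟩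
      · rw [act_opairN, ih u c hu, act_checkN, condIso_none]
      · rw [resC_condIso]

theorem HS_star {x : LName (Cond C (Option ℕ))} (hx : HS x) : HS (star code x) := by
  induction hx with
  | intro x E hE hx h ih =>
    refine HS.intro _ (some ⁻¹' E) (hE.preimage (Option.some_injective ℕ).injOn) ?_ ?_
    · intro π hπ
      rw [act_star, hx π.optionCongr]
      exact fix_optionCongr' fun n hn => hπ n hn
    · intro v d hv
      obtain ⟨u, c, hu, rfl, rfl⟩ := (mem_ch_star code).1 hv
      exact HS_opairN (ih u c hu) (HS_checkN _)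

/-! ### Evaluation of a name of a name -/

/-- `(w, c)` is a labelled member of `x`, and `resC q` forces that `w` is the ordered pair of
the grandchild `u` of `w` and the condition `s`, which is weaker than the value of `q`
at `none`. -/
def HatRel (x u : LName (Cond C ℕ)) (q : Cond C (Option ℕ)) : Prop :=
  ∃ w c w' d d' s, (w, c) ∈ ch x ∧ (w', d) ∈ ch w ∧ (u, d') ∈ ch w' ∧ resC q ≤ c ∧
    feq w (opairN u (checkN (code s))) (resC q) ∧ q.1 none ≤ s

theorem HatRel.lt {x u : LName (Cond C ℕ)} {q : Cond C (Option ℕ)} (h : HatRel code x u q) :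
    Relation.TransGen Child u x := by
  obtain ⟨w, c, w', d, d', s, h1, h2, h3, _⟩ := h
  exact Relation.TransGen.trans (Relation.TransGen.single ⟨d', h3⟩)
    (Relation.TransGen.trans (Relation.TransGen.single ⟨d, h2⟩)
      (Relation.TransGen.single ⟨c, h1⟩))

/-- The name over `Option ℕ` for the `G`-evaluation of a name over `ℕ`. -/
noncomputable def hat : LName (Cond C ℕ) → LName (Cond C (Option ℕ)) :=
  child_wf.transGen.fix fun x ih => LName.mk {a | ∃ u q, ∃ h : HatRel code x u q,
    a = (ih u h.lt, q)}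

theorem mem_ch_hat {x : LName (Cond C ℕ)} {v : LName (Cond C (Option ℕ))}
    {q : Cond C (Option ℕ)} :
    (v, q) ∈ ch (hat code x) ↔ ∃ u, HatRel code x u q ∧ v = hat code u := by
  have h1 : hat code x = LName.mk {a | ∃ u q, ∃ _ : HatRel code x u q,
      a = (hat code u, q)} := by
    conv_lhs => unfold hat
    rw [WellFounded.fix_eq]
    rfl
  have : Small.{0} {a : LName (Cond C (Option ℕ)) × Cond C (Option ℕ) |
      ∃ u q, ∃ _ : HatRel code x u q, a = (hat code u, q)} := by
    apply smallR (fun b : (Σ b : ch x, Σ b' : ch b.1.1, ch b'.1.1) × Cond C (Option ℕ) =>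
      (hat code b.1.2.2.1.1, b.2))
    rintro a ⟨u, q, ⟨w, c, w', d, d', s, h1, h2, h3, _⟩, rfl⟩
    exact ⟨(⟨⟨(w, c), h1⟩, ⟨(w', d), h2⟩, ⟨(u, d'), h3⟩⟩, q), rfl⟩
  rw [h1, ch_mk]
  constructor
  · rintro ⟨u, q', hu, h⟩
    simp only [Prod.mk.injEq] at h
    obtain ⟨rfl, rfl⟩ := h
    exact ⟨u, hu, rfl⟩
  · rintro ⟨u, hu, rfl⟩
    exact ⟨u, q, hu, rfl⟩

theorem HatRel.act (π : ℕ ≃ ℕ) {x u : LName (Cond C ℕ)} {q : Cond C (Option ℕ)}
    (h : HatRel code x u q) :
    HatRel code (act π x) (act π u) (condIso π.optionCongr q) := by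
  obtain ⟨w, c, w', d, d', s, h1, h2, h3, h4, h5, h6⟩ := h
  refine ⟨ChoicelessEmb.act π w, condIso π c, ChoicelessEmb.act π w', condIso π d,
    condIso π d', s, act_mem h1, act_mem h2, act_mem h3, ?_, ?_, h6⟩
  · rw [resC_condIso]
    exact (condIso π).le_iff_le.2 h4
  · rw [resC_condIso]
    have := (feq_map (condIso π)).2 h5
    have e : LName.map (condIso π) (opairN u (checkN (code s))) =
        opairN (ChoicelessEmb.act π u) (checkN (code s)) := by
      have := act_opairN π u (checkN (code s))
      rw [act_checkN] at this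
      exact this
    rw [e] at this
    exact this

theorem act_hat (π : ℕ ≃ ℕ) (x : LName (Cond C ℕ)) :
    act π.optionCongr (hat code x) = hat code (act π x) := by
  induction x using child_wf.transGen.induction with
  | _ x ih =>
    apply LName.ext
    ext ⟨v, q⟩
    rw [mem_ch_act, mem_ch_hat]
    constructor
    · rintro ⟨w, r, hw, rfl, rfl⟩
      obtain ⟨u, hu, rfl⟩ := (mem_ch_hat code).1 hw
      exact ⟨act π u, hu.act code π, ih u hu.lt⟩
    · rintro ⟨u, hu, rfl⟩
      have h1 := hu.act code π.symm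
      rw [act_symm_act] at h1
      refine ⟨hat code (act π.symm u), condIso π.symm.optionCongr q,
        (mem_ch_hat code).2 ⟨_, h1, rfl⟩, ?_, ?_⟩
      · rw [ih _ h1.lt, act_act_symm]
      · rw [condIso_condIso]
        have : (π.symm.optionCongr.trans π.optionCongr) = Equiv.refl _ := by
          ext1 i
          cases i <;> simp
        rw [this]
        exact Cond.ext' fun _ => rfl

theorem HS_hat {x : LName (Cond C ℕ)} (hx : HS x) : HS (hat code x) := by
  induction x using child_wf.transGen.induction with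
  | _ x ih =>
    obtain ⟨E, hE, hs⟩ := hx.supp
    refine HS_of_optionCongr hE ?_ ?_
    · intro π hπ
      rw [act_hat, hs π hπ]
    · intro v q hv
      obtain ⟨u, hu, rfl⟩ := (mem_ch_hat code).1 hv
      refine ih u hu.lt ?_
      obtain ⟨w, c, w', d, d', s, h1, h2, h3, _⟩ := hu
      exact ((hx.ch h1).ch h2).ch h3

/-! ### Interpretations -/

instance : LEps.IsRelational := fun _ => (inferInstance : IsEmpty Empty)
instance : LEpsJ.IsRelational := fun _ => (inferInstance : IsEmpty Empty)

/-- The interpretation of the language `{∈}`. -/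
def Feps (P : Type) [Preorder P] : FInterp LEps P where
  rel {n} (R : EpsRel n) := match n, R with
    | _, .mem => fun xs p => fmem (xs 0) (xs 1) p
  mono {n} (R : EpsRel n) xs p q hq h := by
    cases R
    exact fmem_mono h hq
  dense {n} (R : EpsRel n) xs p h := by
    cases R
    exact fmem_dense h
  congr {n} (R : EpsRel n) xs ys p h h' := by
    cases R
    exact fmem_congr_right (h 1) (fmem_congr_left (h 0) h')

theorem Feps_eqv {I : Type} (E : Set I) : FEqv E (Feps (Cond C I)) := by
  intro π _ n R xs p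
  cases R
  exact fmem_map (condIso π)

/-- The conditions deciding a witness for `J(x, y)`. -/
def jSet (x y : LName (Cond C (Option ℕ))) : Set (Cond C (Option ℕ)) :=
  {r | ∃ z, HS z ∧ feq x (iotaN z) r ∧ feq y (jn z) r}

/-- The interpretation of the language `{∈, J}`. -/
def FepsJ (C : Type) [PartialOrder C] [OrderTop C] : FInterp LEpsJ (Cond C (Option ℕ)) where
  rel {n} (R : EpsJRel n) := match n, R with
    | _, .mem => fun xs p => fmem (xs 0) (xs 1) p
    | _, .J => fun xs p => ∀ q ≤ p, ∃ r ≤ q, r ∈ jSet (xs 0) (xs 1)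
  mono {n} (R : EpsJRel n) xs p q hq h := by
    cases R
    · exact fmem_mono h hq
    · exact fun r hr => h r (hr.trans hq)
  dense {n} (R : EpsJRel n) xs p h := by
    cases R
    · exact fmem_dense h
    · intro q hq
      obtain ⟨r, hr, h1⟩ := h q hq
      obtain ⟨s, hs, h2⟩ := h1 r le_rfl
      exact ⟨s, hs.trans hr, h2⟩
  congr {n} (R : EpsJRel n) xs ys p h h' := by
    cases R
    · exact fmem_congr_right (h 1) (fmem_congr_left (h 0) h')
    · intro q hq
      obtain ⟨r, hr, z, hz, h1, h2⟩ := h' q hq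
      exact ⟨r, hr, z, hz, feq_trans (feq_symm (feq_mono (h 0) (hr.trans hq))) h1,
        feq_trans (feq_symm (feq_mono (h 1) (hr.trans hq))) h2⟩

theorem jSet_act (π : ℕ ≃ ℕ) {x y : LName (Cond C (Option ℕ))} {r : Cond C (Option ℕ)}
    (h : r ∈ jSet x y) :
    condIso π.optionCongr r ∈ jSet (act π.optionCongr x) (act π.optionCongr y) := by
  obtain ⟨z, hz, h1, h2⟩ := h
  refine ⟨act π z, hz.act π, ?_, ?_⟩
  · rw [← act_iotaN]
    exact (feq_map (condIso π.optionCongr)).2 h1
  · rw [← act_jn π hz]
    exact (feq_map (condIso π.optionCongr)).2 h2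

theorem FepsJ_eqv : FEqv {none} (FepsJ C) := by
  intro π hπ n R xs p
  obtain ⟨π', rfl⟩ := exists_optionCongr π (hπ none rfl)
  cases R with
  | mem => exact fmem_map (condIso π'.optionCongr)
  | J =>
    have key : ∀ (π' : ℕ ≃ ℕ) (x y : LName (Cond C (Option ℕ))) (p : Cond C (Option ℕ)),
        (∀ q ≤ p, ∃ r ≤ q, r ∈ jSet x y) →
        ∀ q ≤ condIso π'.optionCongr p, ∃ r ≤ q,
          r ∈ jSet (act π'.optionCongr x) (act π'.optionCongr y) := by
      intro π' x y p h q hq
      obtain ⟨r, hr, h1⟩ := h ((condIso π'.optionCongr).symm q)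
        (by rw [← (condIso π'.optionCongr).le_iff_le, OrderIso.apply_symm_apply]; exact hq)
      refine ⟨condIso π'.optionCongr r, ?_, jSet_act π' h1⟩
      have := (condIso π'.optionCongr).le_iff_le.2 hr
      rwa [OrderIso.apply_symm_apply] at this
    constructor
    · intro h
      have h1 := key π'.symm _ _ _ h
      have e : ∀ x : LName (Cond C (Option ℕ)),
          act π'.symm.optionCongr (act π'.optionCongr x) = x := by
        intro x
        rw [act_act]
        have : (π'.optionCongr.trans π'.symm.optionCongr) = Equiv.refl _ := by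
          ext1 i
          cases i <;> simp
        rw [this, act_refl]
      have e' : condIso π'.symm.optionCongr (condIso π'.optionCongr p) = p := by
        rw [condIso_condIso]
        have : (π'.optionCongr.trans π'.symm.optionCongr) = Equiv.refl _ := by
          ext1 i
          cases i <;> simp
        rw [this]
        exact Cond.ext' fun _ => rfl
      rw [e, e, e'] at h1
      exact h1
    · intro h
      exact key π' _ _ _ h

end Cross

end Pool.Agent.ChoicelessEmb
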