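import Mathlib

set_option autoImplicit false

/-! # Models of ZF, forcing extensions and elementary embeddings: definitions

All models are transitive sets `M : Set ZFSet` with the true membership relation. -/

namespace Pool.Agent.ChoicelessEmb

open FirstOrder

/-- The relation symbols of the language of set theory: one binary symbol. -/
inductive EpsRel : ℕ → Type
  | mem : EpsRel 2

/-- The language `{∈}` of set theory. -/
def LEps : Language := ⟨fun _ => Empty, EpsRel⟩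

/-- The relation symbols `∈` and `J`, both binary. -/
inductive EpsJRel : ℕ → Type
  | mem : EpsJRel 2
  | J : EpsJRel 2

/-- The language `{∈, J}` of set theory with one more binary relation symbol `J`. -/
def LEpsJ : Language := ⟨fun _ => Empty, EpsJRel⟩

/-- A set `M` of sets as a structure for the language `{∈}`. -/
instance epsStructure (M : Set ZFSet.{0}) : LEps.Structure M where
  funMap f := Empty.elim f
  RelMap {n} (R : EpsRel n) := match n, R with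
    | _, .mem => fun xs => (xs 0 : ZFSet.{0}) ∈ (xs 1 : ZFSet.{0})

/-- A set `M` of sets, with a binary relation `J` on `M`, as a structure for the language
`{∈, J}`. -/
@[reducible] def epsJStructure (M : Set ZFSet.{0}) (J : M → M → Prop) : LEpsJ.Structure M where
  funMap f := Empty.elim f
  RelMap {n} (R : EpsJRel n) := match n, R with
    | _, .mem => fun xs => (xs 0 : ZFSet.{0}) ∈ (xs 1 : ZFSet.{0})
    | _, .J => fun xs => J (xs 0) (xs 1)

/-- `ModelsZF L M`: the transitive set `M`, with the true membership relation, satisfies the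
axioms of Zermelo-Fraenkel set theory (without choice), where Separation and Replacement hold
for all formulas (with parameters) of the language `L`, a language interpreted on `M`. -/
structure ModelsZF (L : Language) (M : Set ZFSet.{0}) [L.Structure M] : Prop where
  transitive : ∀ x ∈ M, ∀ y ∈ x, y ∈ M
  extensionality : ∀ x y : M, (∀ z : M, z.1 ∈ x.1 ↔ z.1 ∈ y.1) → x = y
  foundation : ∀ x : M, (∃ y : M, y.1 ∈ x.1) →
    ∃ y : M, y.1 ∈ x.1 ∧ ∀ z : M, z.1 ∈ x.1 → z.1 ∉ y.1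
  pairing : ∀ x y : M, ∃ z : M, ∀ w : M, w.1 ∈ z.1 ↔ w = x ∨ w = y
  union : ∀ x : M, ∃ y : M, ∀ z : M, z.1 ∈ y.1 ↔ ∃ w : M, w.1 ∈ x.1 ∧ z.1 ∈ w.1
  powerset : ∀ x : M, ∃ y : M, ∀ z : M, z.1 ∈ y.1 ↔ ∀ w : M, w.1 ∈ z.1 → w.1 ∈ x.1
  infinity : ∃ x : M, (∃ e : M, e.1 ∈ x.1 ∧ ∀ w : M, w.1 ∉ e.1) ∧
    ∀ y : M, y.1 ∈ x.1 → ∃ z : M, z.1 ∈ x.1 ∧ ∀ w : M, w.1 ∈ z.1 ↔ w.1 ∈ y.1 ∨ w = y
  separation : ∀ (n : ℕ) (φ : L.Formula (Fin (n + 1))) (a : Fin n → M) (x : M),
    ∃ y : M, ∀ z : M, z.1 ∈ y.1 ↔ z.1 ∈ x.1 ∧ φ.Realize (Fin.cons z a : Fin (n + 1) → M)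
  replacement : ∀ (n : ℕ) (φ : L.Formula (Fin (n + 2))) (a : Fin n → M) (x : M),
    (∀ u : M, u.1 ∈ x.1 → ∀ v v' : M,
      φ.Realize (Fin.cons u (Fin.cons v a : Fin (n + 1) → M) : Fin (n + 2) → M) →
      φ.Realize (Fin.cons u (Fin.cons v' a : Fin (n + 1) → M) : Fin (n + 2) → M) → v = v') →
    ∃ y : M, ∀ v : M, v.1 ∈ y.1 ↔
      ∃ u : M, u.1 ∈ x.1 ∧
        φ.Realize (Fin.cons u (Fin.cons v a : Fin (n + 1) → M) : Fin (n + 2) → M)

/-- `(P, R)` is a forcing notion (a partially ordered set with a greatest element `t`): `R` is a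
set of ordered pairs and `(p, q) ∈ R` means that `p` is stronger than `q`. -/
structure IsForcingNotion (P R t : ZFSet.{0}) : Prop where
  sub : ∀ z ∈ R, ∃ p ∈ P, ∃ q ∈ P, z = ZFSet.pair p q
  refl : ∀ p ∈ P, ZFSet.pair p p ∈ R
  trans : ∀ p q r, ZFSet.pair p q ∈ R → ZFSet.pair q r ∈ R → ZFSet.pair p r ∈ R
  antisymm : ∀ p q, ZFSet.pair p q ∈ R → ZFSet.pair q p ∈ R → p = q
  top_mem : t ∈ P
  le_top : ∀ p ∈ P, ZFSet.pair p t ∈ R

/-- `G` is an `M`-generic filter on the forcing notion `(P, R)`. -/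
structure IsGenericFilter (M : Set ZFSet.{0}) (P R t G : ZFSet.{0}) : Prop where
  sub : ∀ p ∈ G, p ∈ P
  top_mem : t ∈ G
  upward : ∀ p q, p ∈ G → ZFSet.pair p q ∈ R → q ∈ G
  directed : ∀ p ∈ G, ∀ q ∈ G, ∃ r ∈ G, ZFSet.pair r p ∈ R ∧ ZFSet.pair r q ∈ R
  generic : ∀ D ∈ M, (∀ d ∈ D, d ∈ P) → (∀ p ∈ P, ∃ d ∈ D, ZFSet.pair d p ∈ R) →
    ∃ p ∈ G, p ∈ D

/-- `val` evaluates names by the filter `G`:
`val τ = {val σ : ∃ p ∈ G, (σ, p) ∈ τ}` for all sets `τ`. -/
def IsEvaluation (G : ZFSet.{0}) (val : ZFSet.{0} → ZFSet.{0}) : Prop :=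
  ∀ τ y, y ∈ val τ ↔ ∃ σ p, p ∈ G ∧ ZFSet.pair σ p ∈ τ ∧ y = val σ

/-- `N = M[G]` for a forcing notion `(P, R) ∈ M` and an `M`-generic filter `G` on it: `N` is the
set of values of all names `τ ∈ M`. -/
def IsForcingExtension (M N : Set ZFSet.{0}) (P R t G : ZFSet.{0}) : Prop :=
  P ∈ M ∧ R ∈ M ∧ IsForcingNotion P R t ∧ IsGenericFilter M P R t G ∧
    ∃ val : ZFSet.{0} → ZFSet.{0}, IsEvaluation G val ∧ N = val '' M

end Pool.Agent.ChoicelessEmb
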