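import Pool.Agent.ChoicelessEmb.Cross

set_option autoImplicit false

/-! # Countable closed sets of names exist -/

namespace Pool.Agent.ChoicelessEmb

open FirstOrder LName

section Exist

theorem countable_BF {L : Language} [Countable L.Symbols] (k n : ℕ) :
    Countable (L.BoundedFormula (Fin k) n) := by
  have h := Language.BoundedFormula.card_le (L := L) (α := Fin k)
  have h2 : Cardinal.mk (Σ n, L.BoundedFormula (Fin k) n) ≤ Cardinal.aleph0 := by
    refine h.trans ?_
    apply max_le le_rfl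
    have h3 : L.card ≤ Cardinal.aleph0 := Cardinal.mk_le_aleph0
    refine Cardinal.add_le_aleph0.2 ⟨?_, ?_⟩
    · simp
    · simpa using h3
  have : Countable (Σ n, L.BoundedFormula (Fin k) n) := Cardinal.mk_le_aleph0_iff.1 h2
  exact Function.Injective.countable (f := fun φ : L.BoundedFormula (Fin k) n =>
    (⟨n, φ⟩ : Σ n, L.BoundedFormula (Fin k) n)) fun a b hab => by simpa using hab

instance (l : ℕ) : Countable (EpsRel l) :=
  Function.Injective.countable (f := fun _ => (0 : ℕ)) (by rintro ⟨⟩ ⟨⟩ _; rfl)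

instance (l : ℕ) : Countable (EpsJRel l) :=
  Function.Injective.countable (f := fun R : EpsJRel l => match l, R with
    | _, .mem => (0 : ℕ)
    | _, .J => 1) (by rintro ⟨⟩ ⟨⟩ h <;> first | rfl | simp at h)

instance : Countable LEps.Symbols := by
  have : ∀ l, Countable (LEps.Functions l) := fun l => inferInstanceAs (Countable Empty)
  have : ∀ l, Countable (LEps.Relations l) := fun l => inferInstanceAs (Countable (EpsRel l))
  unfold Language.Symbols
  infer_instance

instance : Countable LEpsJ.Symbols := by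
  have : ∀ l, Countable (LEpsJ.Functions l) := fun l => inferInstanceAs (Countable Empty)
  have : ∀ l, Countable (LEpsJ.Relations l) := fun l => inferInstanceAs (Countable (EpsJRel l))
  unfold Language.Symbols
  infer_instance

variable {U : Type 1} {H : Set U}

theorem creq_op1 (f : U → U) (hf : ∀ x ∈ H, f x ∈ H) : CReq H fun X => ∀ x ∈ X, f x ∈ X := by
  refine (creq_op (H := H) 1 (fun v => f (v 0)) fun v hv => hf _ (hv 0)).mono ?_
  intro X _ h x hx
  exact h (fun _ => x) fun _ => hx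

theorem creq_op2 (f : U → U → U) (hf : ∀ x ∈ H, ∀ y ∈ H, f x y ∈ H) :
    CReq H fun X => ∀ x ∈ X, ∀ y ∈ X, f x y ∈ X := by
  refine (creq_op (H := H) 2 (fun v => f (v 0) (v 1)) fun v hv => hf _ (hv 0) _ (hv 1)).mono ?_
  intro X _ h x hx y hy
  exact h ![x, y] fun i => by fin_cases i <;> simpa

theorem creq_opn (n : ℕ) (f : (Fin n → U) → U → U)
    (hf : ∀ a : Fin n → U, (∀ i, a i ∈ H) → ∀ x ∈ H, f a x ∈ H) :
    CReq H fun X => ∀ a : Fin n → U, (∀ i, a i ∈ X) → ∀ x ∈ X, f a x ∈ X := by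
  refine (creq_op (H := H) (n + 1) (fun v => f (fun i => v i.succ) (v 0)) fun v hv =>
    hf _ (fun i => hv _) _ (hv 0)).mono ?_
  intro X _ h a ha x hx
  have := h (Fin.cons x a : Fin (n + 1) → U) fun i => by
    refine Fin.cases ?_ (fun j => ?_) i
    · exact hx
    · exact ha j
  simpa using this

theorem creq_sk2 (Pr : U → U → U → Prop) (hPr : ∀ x ∈ H, ∀ y ∈ H, ∀ w, Pr x y w → w ∈ H) :
    CReq H fun X => ∀ x ∈ X, ∀ y ∈ X, (∃ w, Pr x y w) → ∃ w ∈ X, Pr x y w := by
  refine (creq_skolem (H := H) 2 fun v w => Pr (v 0) (v 1) w).mono ?_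
  intro X hX h x hx y hy hw
  have := h ![x, y] (fun i => by fin_cases i <;> simpa)
  simp only [Matrix.cons_val_zero, Matrix.cons_val_one] at this
  obtain ⟨w, hw⟩ := hw
  exact this ⟨w, hPr x (hX hx) y (hX hy) w hw, hw⟩

theorem creq_skn (n : ℕ) (Pr : (Fin n → U) → U → U → U → Prop)
    (hPr : ∀ a : Fin n → U, (∀ i, a i ∈ H) → ∀ x ∈ H, ∀ y ∈ H, ∀ w, Pr a x y w → w ∈ H) :
    CReq H fun X => ∀ a : Fin n → U, (∀ i, a i ∈ X) → ∀ x ∈ X, ∀ y ∈ X,
      (∃ w, Pr a x y w) → ∃ w ∈ X, Pr a x y w := by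
  refine (creq_skolem (H := H) (n + 1 + 1) fun v w =>
    Pr (fun i => v i.succ.succ) (v 0) (v (Fin.succ 0)) w).mono ?_
  intro X hX h a ha x hx y hy hw
  have := h (Fin.cons x (Fin.cons y a : Fin (n + 1) → U) : Fin (n + 1 + 1) → U) fun i => by
    refine Fin.cases ?_ (fun j => ?_) i
    · exact hx
    · refine Fin.cases ?_ (fun j => ?_) j
      · exact hy
      · exact ha j
  simp only [Fin.cons_zero, Fin.cons_succ] at this
  obtain ⟨w, hw⟩ := hw
  exact this ⟨w, hPr a (fun i => hX (ha i)) x (hX hx) y (hX hy) w hw, hw⟩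

theorem creq_sub : CReq H fun X => X ⊆ H := by
  refine ⟨fun _ => ∅, fun _ _ _ => ⟨Set.countable_empty, Set.empty_subset _⟩, ?_⟩
  intro X _ hH _
  exact Set.iUnion_subset hH

variable {C I : Type} [PartialOrder C] [OrderTop C] [Countable C] [Countable I]
variable {L : Language} [L.IsRelational]

theorem creq_c3 [Countable L.Symbols] (F : FInterp L (Cond C I)) :
    CReq (HSset C I) fun X => ∀ (k n : ℕ) (φ : L.BoundedFormula (Fin k) (n + 1))
      (v : Fin k → LName (Cond C I)) (xs : Fin n → LName (Cond C I)),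
      (∀ i, v i ∈ X) → (∀ i, xs i ∈ X) → ∀ p, p ∈ allBad F (HSset C I) φ v xs →
      ∃ x ∈ X, ∀ r ≤ p, ¬ forces F (HSset C I) φ v
        (Fin.snoc (α := fun _ => LName (Cond C I)) xs x) r := by
  apply CReq.forall
  intro k
  apply CReq.forall
  intro n
  have := countable_BF (L := L) k (n + 1)
  apply CReq.forall
  intro φ
  have h : CReq (HSset C I) fun X => ∀ p : Cond C I,
      ∀ w : Fin (k + n) → LName (Cond C I), (∀ i, w i ∈ X) →
      (∃ x ∈ HSset C I, ∀ r ≤ p, ¬ forces F (HSset C I) φ (fun i => w (Fin.castAdd n i))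
        (Fin.snoc (α := fun _ => LName (Cond C I)) (fun i => w (Fin.natAdd k i)) x) r) →
      ∃ x ∈ X, ∀ r ≤ p, ¬ forces F (HSset C I) φ (fun i => w (Fin.castAdd n i))
        (Fin.snoc (α := fun _ => LName (Cond C I)) (fun i => w (Fin.natAdd k i)) x) r := by
    apply CReq.forall
    intro p
    exact creq_skolem (k + n) _
  refine h.mono ?_
  intro X _ h v xs hv hxs p hp
  have := h p (Fin.append v xs) fun i => by
    refine Fin.addCases (fun j => ?_) (fun j => ?_) i
    · rw [Fin.append_left]; exact hv j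
    · rw [Fin.append_right]; exact hxs j
  simp only [Fin.append_left, Fin.append_right] at this
  exact this hp

theorem creq_opClosed [Countable L.Symbols] {E : Set I} (hE : E.Finite)
    (F : FInterp L (Cond C I)) (hF : FEqv E F) : CReq (HSset C I) (OpClosed F) := by
  have c1 : CReq (HSset C I) fun X => ∀ r : Cond C I, ∀ u ∈ X, ∀ y ∈ X,
      (∃ w, ∃ d, (w, d) ∈ ch y ∧ r ≤ d ∧ feq u w r) →
      ∃ w ∈ X, ∃ d, (w, d) ∈ ch y ∧ r ≤ d ∧ feq u w r := by
    apply CReq.forall
    intro r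
    exact creq_sk2 _ fun u _ y hy w ⟨d, hw, _⟩ => HS.ch hy hw
  have c2 : CReq (HSset C I) fun X => ∀ q : Cond C I, ∀ x ∈ X, ∀ y ∈ X,
      (∃ u, ∃ c, (u, c) ∈ ch x ∧ q ≤ c ∧ ∀ r ≤ q, r ∉ memSet u y) →
      ∃ u ∈ X, ∃ c, (u, c) ∈ ch x ∧ q ≤ c ∧ ∀ r ≤ q, r ∉ memSet u y := by
    apply CReq.forall
    intro r
    exact creq_sk2 _ fun x hx y _ u ⟨c, hu, _⟩ => HS.ch hx hu
  have u2 : CReq (HSset C I) fun X => ∀ q : Cond C I, ∀ x ∈ X, ∀ w ∈ X,
      (∃ u, ∃ c d, (u, c) ∈ ch x ∧ (w, d) ∈ ch u ∧ q ≤ c ∧ q ≤ d) →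
      ∃ u ∈ X, ∃ c d, (u, c) ∈ ch x ∧ (w, d) ∈ ch u ∧ q ≤ c ∧ q ≤ d := by
    apply CReq.forall
    intro r
    exact creq_sk2 _ fun x hx y _ u ⟨c, d, hu, _⟩ => HS.ch hx hu
  have pr : CReq (HSset C I) fun X => ∀ x ∈ X, ∀ y ∈ X, pairN x y ∈ X :=
    creq_op2 _ fun x hx y hy => HS_pairN hx hy
  have un : CReq (HSset C I) fun X => ∀ x ∈ X, unionN x ∈ X :=
    creq_op1 _ fun x hx => HS_unionN hx
  have pw : CReq (HSset C I) fun X => ∀ x ∈ X, powN x ∈ X :=
    creq_op1 _ fun x hx => HS_powN hx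
  have sb : CReq (HSset C I) fun X => ∀ x ∈ X, ∀ y ∈ X, subN x y ∈ X :=
    creq_op2 _ fun x hx y hy => HS_subN hx hy
  have sp : CReq (HSset C I) fun X => ∀ (n : ℕ) (φ : L.Formula (Fin (n + 1)))
      (a : Fin n → LName (Cond C I)), (∀ i, a i ∈ X) → ∀ x ∈ X, sepF F φ a x ∈ X := by
    apply CReq.forall
    intro n
    have : Countable (L.Formula (Fin (n + 1))) := countable_BF (L := L) (n + 1) 0
    apply CReq.forall
    intro φ
    exact creq_opn n _ fun a ha x hx => HS_sepF hE hF φ ha hx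
  have wt : CReq (HSset C I) fun X => ∀ (n : ℕ) (φ : L.Formula (Fin (n + 2))) (q : Cond C I)
      (a : Fin n → LName (Cond C I)), (∀ i, a i ∈ X) → ∀ u ∈ X, witY F φ a u q ∈ X := by
    apply CReq.forall
    intro n
    have : Countable (L.Formula (Fin (n + 2))) := countable_BF (L := L) (n + 2) 0
    apply CReq.forall
    intro φ
    apply CReq.forall
    intro q
    exact creq_opn n (fun a u => witY F φ a u q) fun a _ u _ => HS_witY F φ a u q
  have rp : CReq (HSset C I) fun X => ∀ (n : ℕ) (φ : L.Formula (Fin (n + 2)))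
      (a : Fin n → LName (Cond C I)), (∀ i, a i ∈ X) → ∀ x ∈ X, replF F φ a x ∈ X := by
    apply CReq.forall
    intro n
    have : Countable (L.Formula (Fin (n + 2))) := countable_BF (L := L) (n + 2) 0
    apply CReq.forall
    intro φ
    exact creq_opn n _ fun a ha x hx => HS_replF hE hF φ ha hx
  have rp2 : CReq (HSset C I) fun X => ∀ (n : ℕ) (φ : L.Formula (Fin (n + 2))) (q : Cond C I)
      (a : Fin n → LName (Cond C I)), (∀ i, a i ∈ X) → ∀ x ∈ X, ∀ y ∈ X,
      (∃ u, ∃ c, (u, c) ∈ ch x ∧ q ≤ c ∧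
        ff F φ (Fin.cons u (Fin.cons y a : Fin (n + 1) → LName (Cond C I))) q) →
      ∃ u ∈ X, ∃ c, (u, c) ∈ ch x ∧ q ≤ c ∧
        ff F φ (Fin.cons u (Fin.cons y a : Fin (n + 1) → LName (Cond C I))) q := by
    apply CReq.forall
    intro n
    have : Countable (L.Formula (Fin (n + 2))) := countable_BF (L := L) (n + 2) 0
    apply CReq.forall
    intro φ
    apply CReq.forall
    intro q
    exact creq_skn n _ fun a _ x hx y _ u ⟨c, hu, _⟩ => HS.ch hx hu
  refine (c1.and (c2.and (creq_sub.and ((creq_c3 F).and (pr.and (un.and (u2.and (pw.and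
    (sb.and (sp.and (wt.and (rp.and rp2)))))))))))).mono ?_
  rintro X hXH ⟨c1, c2, sb', c3, pr, un, u2, pw, sb, sp, wt, rp, rp2⟩
  exact
    { atom := ⟨fun u hu y hy r hr => c1 r u hu y hy hr, fun x hx y hy q hq => c2 q x hx y hy hq⟩
      form := ⟨sb', c3⟩
      pair := pr
      union := un
      union2 := fun x hx w hw q h => u2 q x hx w hw h
      pow := pw
      sub := sb
      sep := sp
      wit := fun n φ a ha u hu q => wt n φ q a ha u hu
      repl := rp
      repl2 := fun n φ a ha x hx y hy q h => rp2 n φ q a ha x hx y hy h }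

end Exist

/-! ### Countable families of sets to be decided -/

section Fam

variable {P : Type} [Preorder P] {L : Language} [L.IsRelational]

/-- The sets which a generic filter has to decide, for a countable set `X` of names. -/
def fam (F : FInterp L P) (D X : Set (LName P)) : Set (Set P) :=
  (Set.range fun b : X × X => memSet b.1.1 b.2.1) ∪
  (Set.range fun b : X × X => badSet b.1.1 b.2.1) ∪
  (Set.range fun b : Σ k n : ℕ, L.BoundedFormula (Fin k) (n + 1) × (Fin k → X) × (Fin n → X) =>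
    allBad F D b.2.2.1 (fun i => (b.2.2.2.1 i : LName P)) fun i => (b.2.2.2.2 i : LName P)) ∪
  (Set.range fun b : Σ k n : ℕ, (L.BoundedFormula (Fin k) n × L.BoundedFormula (Fin k) n) ×
      (Fin k → X) × (Fin n → X) =>
    impBad F D b.2.2.1.1 b.2.2.1.2 (fun i => (b.2.2.2.1 i : LName P))
      fun i => (b.2.2.2.2 i : LName P))

theorem fam_countable [Countable L.Symbols] (F : FInterp L P) (D : Set (LName P))
    {X : Set (LName P)} (hX : X.Countable) : (fam F D X).Countable := by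
  have := hX.to_subtype
  have h1 := fun k n => countable_BF (L := L) k n
  refine ((Set.Countable.union (Set.Countable.union ?_ ?_) ?_).union ?_)
  · exact Set.countable_range _
  · exact Set.countable_range _
  · exact Set.countable_range _
  · exact Set.countable_range _

variable [OrderTop P]

theorem gen_of_fam (F : FInterp L P) (D : Set (LName P)) {X : Set (LName P)} {g : Set P}
    (hg : IsFil g) (h : ∀ S ∈ fam F D X, Dec g S) : AtomGen X g ∧ FGen F D X g := by
  refine ⟨⟨hg, ?_, ?_⟩, ⟨?_, ?_⟩⟩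
  · intro u hu y hy
    exact h _ (Or.inl (Or.inl (Or.inl ⟨(⟨u, hu⟩, ⟨y, hy⟩), rfl⟩)))
  · intro x hx y hy
    exact h _ (Or.inl (Or.inl (Or.inr ⟨(⟨x, hx⟩, ⟨y, hy⟩), rfl⟩)))
  · intro k n φ v xs hv hxs
    exact h _ (Or.inl (Or.inr ⟨⟨k, n, φ, fun i => ⟨v i, hv i⟩, fun i => ⟨xs i, hxs i⟩⟩, rfl⟩))
  · intro k n φ ψ v xs hv hxs
    exact h _ (Or.inr ⟨⟨k, n, (φ, ψ), fun i => ⟨v i, hv i⟩, fun i => ⟨xs i, hxs i⟩⟩, rfl⟩)

end Fam

end Pool.Agent.ChoicelessEmb
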