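import Pool.Agent.ChoicelessEmb.Ground

set_option autoImplicit false

/-! # The forcing extension and the elementary embedding -/

namespace Pool.Agent.ChoicelessEmb

open FirstOrder LName

section Final

variable {C : Type} [PartialOrder C] [OrderTop C] {code : C → ZFSet.{0}} {Z : Set ZFSet.{0}}
  {X₀ : Set (LName (Cond C ℕ))} {X₁ : Set (LName (Cond C (Option ℕ)))}
  {g : Set (Cond C (Option ℕ))}

/-- The inclusion of the ground model into the extension. -/
theorem val_iotaN (hX : SysClosed code Z X₀ X₁) {x : LName (Cond C ℕ)} (hx : x ∈ X₀) :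
    val X₁ g (iotaN x) = val X₀ (resF g) x := by
  induction x using LName.induction with
  | h x ih =>
    ext v
    rw [mem_val, mem_val]
    constructor
    · rintro ⟨w, d, hwd, hw, hd, rfl⟩
      obtain ⟨u, hu, c, huc, rfl, rfl⟩ := hX.iota_sk x hx w hw d hwd
      exact ⟨u, c, huc, hu, hd, ih u c huc hu⟩
    · rintro ⟨u, c, huc, hu, hc, rfl⟩
      exact ⟨iotaN u, extC c, mem_ch_iotaN.2 ⟨u, c, huc, rfl, rfl⟩, hX.iota u hu, hc,
        (ih u c huc hu).symm⟩

/-- The conditions in the generic filter at `none`. -/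
def GC (g : Set (Cond C (Option ℕ))) : Set C := {s | single none s ∈ g}

theorem mem_GC (hg : IsFil g) {r : Cond C (Option ℕ)} (hr : r ∈ g) {s : C}
    (h : r.1 none ≤ s) : s ∈ GC g := hg.up _ _ hr (le_single.2 h)

theorem mem_of_parts (hg : IsFil g) {c : Cond C (Option ℕ)} (h1 : resC c ∈ resF g)
    (h2 : c.1 none ∈ GC g) : c ∈ g := by
  obtain ⟨r, hr, hr1, hr2⟩ := hg.dir _ _ h1 h2
  refine hg.up _ _ hr ?_
  rintro (_ | n)
  · exact le_single.1 hr2
  · exact hr1 (some n)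

variable (code g) in
/-- The generic filter as a set. -/
noncomputable def setG : ZFSet.{0} := ZFSet.range fun s : GC g => code s.1

theorem mem_setG {x : ZFSet.{0}} : x ∈ setG code g ↔ ∃ s ∈ GC g, code s = x := by
  unfold setG
  rw [ZFSet.mem_range]
  constructor
  · rintro ⟨⟨s, hs⟩, rfl⟩; exact ⟨s, hs, rfl⟩
  · rintro ⟨s, hs, rfl⟩; exact ⟨⟨s, hs⟩, rfl⟩

theorem code_mem_setG (hc : Function.Injective code) {s : C} :
    code s ∈ setG code g ↔ s ∈ GC g := by
  rw [mem_setG]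
  constructor
  · rintro ⟨s', hs', e⟩; rw [← hc e]; exact hs'
  · intro h; exact ⟨s, h, rfl⟩

theorem val_gN (hX : SysClosed code Z X₀ X₁) (hg : IsFil g)
    (hZ : ∀ x ∈ Z, ∀ y ∈ x, y ∈ Z) (hcZ : ∀ s, code s ∈ Z) :
    val X₁ g (gN code none) = setG code g := by
  ext v
  rw [mem_val, mem_setG]
  constructor
  · rintro ⟨u, c, huc, _, hc, rfl⟩
    obtain ⟨s, rfl, rfl⟩ := (mem_ch_gN code).1 huc
    exact ⟨s, hc, (val_checkN hg hZ hX.check1 _ (hcZ s)).symm⟩
  · rintro ⟨s, hs, rfl⟩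
    exact ⟨checkN (code s), single none s, (mem_ch_gN code).2 ⟨s, rfl, rfl⟩,
      hX.check1 _ (hcZ s), hs, (val_checkN hg hZ hX.check1 _ (hcZ s)).symm⟩

/-- Every element of the extension is the value of a name in the ground model. -/
theorem val_star (hX : SysClosed code Z X₀ X₁) (hg : IsFil g)
    (hZ : ∀ x ∈ Z, ∀ y ∈ x, y ∈ Z) (hcZ : ∀ s, code s ∈ Z) (hc : Function.Injective code)
    {vG : ZFSet.{0} → ZFSet.{0}} (hv : IsEvaluation (setG code g) vG)
    {x : LName (Cond C (Option ℕ))} (hx : x ∈ X₁) :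
    vG (val X₀ (resF g) (star code x)) = val X₁ g x := by
  have hg0 := isFil_resF hg
  have hpair : ∀ u ∈ X₁, ∀ s, val X₀ (resF g) (opairN (star code u) (checkN (code s))) =
      ZFSet.pair (val X₀ (resF g) (star code u)) (code s) := by
    intro u hu s
    rw [val_opairN hg0 hX.o0.pair (hX.starm u hu) (hX.check0 _ (hcZ s)),
      val_checkN hg0 hZ hX.check0 _ (hcZ s)]
  induction x using LName.induction with
  | h x ih =>
    ext y
    rw [hv, mem_val]
    constructor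
    · rintro ⟨σ, p, hp, hσ, rfl⟩
      obtain ⟨w, d, hwd, hw, hd, e⟩ := mem_val.1 hσ
      obtain ⟨u, hu, c, huc, rfl, rfl⟩ := hX.star_sk x hx w hw d hwd
      rw [hpair u hu, ZFSet.pair_inj] at e
      obtain ⟨rfl, rfl⟩ := e
      refine ⟨u, c, huc, hu, mem_of_parts hg hd ((code_mem_setG hc).1 hp), ih u c huc hu⟩
    · rintro ⟨u, c, huc, hu, hcg, rfl⟩
      refine ⟨val X₀ (resF g) (star code u), code (c.1 none), ?_, ?_, (ih u c huc hu).symm⟩
      · exact (code_mem_setG hc).2 (mem_GC hg hcg le_rfl)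
      · refine mem_val.2 ⟨opairN (star code u) (checkN (code (c.1 none))), resC c,
          (mem_ch_star code).2 ⟨u, c, huc, rfl, rfl⟩, ?_, mem_resF hg hcg, (hpair u hu _).symm⟩
        exact hX.o0.pair _ (hX.o0.pair _ (hX.starm u hu) _ (hX.starm u hu)) _
          (hX.o0.pair _ (hX.starm u hu) _ (hX.check0 _ (hcZ _)))

/-- The value of every name in the ground model belongs to the extension. -/
theorem val_hat (hX : SysClosed code Z X₀ X₁) (hg : SysGen code X₀ X₁ g)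
    (hZ : ∀ x ∈ Z, ∀ y ∈ x, y ∈ Z) (hcZ : ∀ s, code s ∈ Z) (hc : Function.Injective code)
    {vG : ZFSet.{0} → ZFSet.{0}} (hv : IsEvaluation (setG code g) vG)
    {x : LName (Cond C ℕ)} (hx : x ∈ X₀) :
    val X₁ g (hat code x) = vG (val X₀ (resF g) x) := by
  have hg0 := isFil_resF hg.fil
  have hpm : ∀ u ∈ X₀, ∀ s : C, opairN u (checkN (code s)) ∈ X₀ := by
    intro u hu s
    exact hX.o0.pair _ (hX.o0.pair _ hu _ hu) _ (hX.o0.pair _ hu _ (hX.check0 _ (hcZ _)))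
  have hpair : ∀ u ∈ X₀, ∀ s, val X₀ (resF g) (opairN u (checkN (code s))) =
      ZFSet.pair (val X₀ (resF g) u) (code s) := by
    intro u hu s
    rw [val_opairN hg0 hX.o0.pair hu (hX.check0 _ (hcZ s)),
      val_checkN hg0 hZ hX.check0 _ (hcZ s)]
  induction x using child_wf.transGen.induction with
  | _ x ih =>
    ext y
    rw [hv, mem_val]
    constructor
    · rintro ⟨v, q, hvq, hvX, hq, rfl⟩
      obtain ⟨u, hu, hr, rfl⟩ := hX.hat_sk x hx v hvX q hvq
      obtain ⟨w, hw, c, s, hwc, hqc, hf, hs⟩ := hX.hat_sk2 x hx u hu q hr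
      have e : val X₀ (resF g) w = ZFSet.pair (val X₀ (resF g) u) (code s) := by
        rw [← hpair u hu s]
        exact (val_eq_iff hX.o0.atom hg.a0 hw (hpm u hu s)).2 ⟨resC q, mem_resF hg.fil hq, hf⟩
      refine ⟨val X₀ (resF g) u, code s, (code_mem_setG hc).2 (mem_GC hg.fil hq hs), ?_,
        ih u hr.lt hu⟩
      rw [← e]
      exact mem_val.2 ⟨w, c, hwc, hw, hg0.up _ _ (mem_resF hg.fil hq) hqc, rfl⟩
    · rintro ⟨σ, p, hp, hσ, rfl⟩
      obtain ⟨s, hs, rfl⟩ := mem_setG.1 hp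
      obtain ⟨w, c, hwc, hw, hcg, e⟩ := mem_val.1 hσ
      have h1 : ({σ} : ZFSet.{0}) ∈ val X₀ (resF g) w := by
        rw [← e, ZFSet.pair, ZFSet.mem_pair]; exact Or.inl rfl
      obtain ⟨w', d, hwd, hw', _, e'⟩ := mem_val.1 h1
      have h2 : σ ∈ val X₀ (resF g) w' := by
        rw [← e']; exact ZFSet.mem_singleton.2 rfl
      obtain ⟨u, d', hud, hu, _, e''⟩ := mem_val.1 h2
      have h3 : val X₀ (resF g) w = val X₀ (resF g) (opairN u (checkN (code s))) := by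
        rw [hpair u hu s, ← e, e'']
      obtain ⟨p', hp', hf⟩ := (val_eq_iff hX.o0.atom hg.a0 hw (hpm u hu s)).1 h3
      obtain ⟨r, hr, hr1, hr2⟩ := hg.fil.dir _ _ hp' hcg
      obtain ⟨q, hq, hq1, hq2⟩ := hg.fil.dir _ _ hr hs
      have hrel : HatRel code x u q := by
        refine ⟨w, c, w', d, d', s, hwc, hwd, hud, ?_, ?_, le_single.1 hq2⟩
        · exact le_extC.1 (hq1.trans hr2)
        · exact feq_mono hf (le_extC.1 (hq1.trans hr1))
      refine ⟨hat code u, q, (mem_ch_hat code).2 ⟨u, hrel, rfl⟩, hX.hatm u hu, hq, ?_⟩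
      rw [ih u hrel.lt hu, e'']

/-- The extension is `M[G]`. -/
theorem mod_eq_image (hX : SysClosed code Z X₀ X₁) (hg : SysGen code X₀ X₁ g)
    (hZ : ∀ x ∈ Z, ∀ y ∈ x, y ∈ Z) (hcZ : ∀ s, code s ∈ Z) (hc : Function.Injective code)
    {vG : ZFSet.{0} → ZFSet.{0}} (hv : IsEvaluation (setG code g) vG) :
    Mod X₁ g = vG '' Mod X₀ (resF g) := by
  ext y
  constructor
  · rintro ⟨x, hx, rfl⟩
    exact ⟨val X₀ (resF g) (star code x), ⟨star code x, hX.starm x hx, rfl⟩,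
      val_star hX hg.fil hZ hcZ hc hv hx⟩
  · rintro ⟨_, ⟨x, hx, rfl⟩, rfl⟩
    exact ⟨hat code x, hX.hatm x hx, val_hat hX hg hZ hcZ hc hv hx⟩

/-- The filter is generic over the ground model. -/
theorem isGenericFilter (hX : SysClosed code Z X₀ X₁) (hg : SysGen code X₀ X₁ g)
    (hZ : ∀ x ∈ Z, ∀ y ∈ x, y ∈ Z) (hcZ : ∀ s, code s ∈ Z) (hc : Function.Injective code) :
    IsGenericFilter (Mod X₀ (resF g)) (setP code) (setR code) (code ⊤) (setG code g) where
  sub p hp := by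
    obtain ⟨s, _, rfl⟩ := mem_setG.1 hp
    exact (mem_setP code).2 ⟨s, rfl⟩
  top_mem := (code_mem_setG hc).2 (mem_GC hg.fil hg.fil.top_mem le_top)
  upward p q hp hpq := by
    obtain ⟨s, t, hst, e⟩ := (mem_setR code).1 hpq
    rw [ZFSet.pair_inj] at e
    obtain ⟨rfl, rfl⟩ := e
    rw [code_mem_setG hc] at hp ⊢
    exact mem_GC hg.fil hp (by rw [single_self]; exact hst)
  directed p hp q hq := by
    obtain ⟨s, hs, rfl⟩ := mem_setG.1 hp
    obtain ⟨t, ht, rfl⟩ := mem_setG.1 hq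
    obtain ⟨r, hr, h1, h2⟩ := hg.fil.dir _ _ hs ht
    exact ⟨code (r.1 none), (code_mem_setG hc).2 (mem_GC hg.fil hr le_rfl),
      (pair_mem_setR hc).2 (le_single.1 h1), (pair_mem_setR hc).2 (le_single.1 h2)⟩
  generic D hD hsub hdense := by
    have hg0 := isFil_resF hg.fil
    obtain ⟨d, hd, rfl⟩ := hD
    rcases hg.dg d hd with ⟨r, hr, s, hs, hle⟩ | ⟨r, hr, hbad⟩
    · refine ⟨code s, (code_mem_setG hc).2 (mem_GC hg.fil hr hle), ?_⟩
      have := (val_mem_iff hX.o0.atom hg.a0 (hX.check0 _ (hcZ s)) hd).2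
        ⟨resC r, mem_resF hg.fil hr, hs⟩
      rwa [val_checkN hg0 hZ hX.check0 _ (hcZ s)] at this
    · exfalso
      obtain ⟨x, hx, hxr⟩ := hdense (code (r.1 none)) ((mem_setP code).2 ⟨_, rfl⟩)
      obtain ⟨s, rfl⟩ := (mem_setP code).1 (hsub x hx)
      rw [pair_mem_setR hc] at hxr
      have h1 : val X₀ (resF g) (checkN (code s)) ∈ val X₀ (resF g) d := by
        rwa [val_checkN hg0 hZ hX.check0 _ (hcZ s)]
      obtain ⟨p, hp, hm⟩ := (val_mem_iff hX.o0.atom hg.a0 (hX.check0 _ (hcZ s)) hd).1 h1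
      obtain ⟨p', _, hp1, hp2⟩ := hg0.dir _ _ hp (mem_resF hg.fil hr)
      apply hbad (glue p' s) (glue_le.2 ⟨hp2, hxr⟩)
      refine ⟨s, ?_, le_rfl⟩
      rw [resC_glue]
      exact fmem_mono hm hp1

open Classical in
/-- A name in `X₀` for an element of the ground model. -/
noncomputable def repr (a : Mod X₀ (resF g)) : X₀ := (ev_surj a).choose

theorem ev_repr (a : Mod X₀ (resF g)) : ev X₀ (resF g) (repr a) = a := (ev_surj a).choose_spec

/-- The elementary embedding. -/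
noncomputable def jj (hX : SysClosed code Z X₀ X₁) (a : Mod X₀ (resF g)) : Mod X₁ g :=
  ev X₁ g ⟨jn (repr a).1, hX.jnm _ (repr a).2⟩

theorem jj_ev (hX : SysClosed code Z X₀ X₁) (hg : SysGen code X₀ X₁ g) (z : X₀) :
    jj hX (ev X₀ (resF g) z) = ev X₁ g ⟨jn z.1, hX.jnm _ z.2⟩ := by
  apply Subtype.ext
  exact jn_wd hX hg (repr _).2 z.2 (congrArg Subtype.val (ev_repr (ev X₀ (resF g) z)))

theorem jj_elem (hX : SysClosed code Z X₀ X₁) (hg : SysGen code X₀ X₁ g) {k : ℕ}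
    (φ : LEps.Formula (Fin k)) (a : Fin k → Mod X₀ (resF g)) :
    φ.Realize (fun i => jj hX (a i)) ↔ φ.Realize a := by
  have h := elem hX hg φ (fun i => repr (a i))
  have e : (fun i => ev X₀ (resF g) (repr (a i))) = a := funext fun i => ev_repr (a i)
  rw [e] at h
  exact h.symm

theorem setG_mem (hX : SysClosed code Z X₀ X₁) (hg : IsFil g)
    (hZ : ∀ x ∈ Z, ∀ y ∈ x, y ∈ Z) (hcZ : ∀ s, code s ∈ Z) : setG code g ∈ Mod X₁ g :=
  ⟨gN code none, hX.g1 none, val_gN hX hg hZ hcZ⟩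

/-- The graph of `j` as a relation on the extension. -/
def JRel (hX : SysClosed code Z X₀ X₁) (x y : Mod X₁ g) : Prop :=
  ∃ a : Mod X₀ (resF g), a.1 = x.1 ∧ jj hX a = y

theorem truthJ (hX : SysClosed code Z X₀ X₁) (hg : SysGen code X₀ X₁ g) {m : ℕ}
    (R : LEpsJ.Relations m) (xs : Fin m → X₁) :
    @Language.Structure.RelMap LEpsJ (Mod X₁ g) (epsJStructure _ (JRel hX)) m R
      (fun i => ev X₁ g (xs i)) ↔
        ∃ p ∈ g, (FepsJ C).rel R (fun i => (xs i : LName (Cond C (Option ℕ)))) p := by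
  cases R with
  | mem => exact val_mem_iff hX.o1.atom hg.a1 (xs 0).2 (xs 1).2
  | J =>
    change JRel hX (ev X₁ g (xs 0)) (ev X₁ g (xs 1)) ↔
      ∃ p ∈ g, ∀ q ≤ p, ∃ r ≤ q, r ∈ jSet (xs 0 : LName (Cond C (Option ℕ))) (xs 1)
    constructor
    · rintro ⟨a, ha, hja⟩
      obtain ⟨z, rfl⟩ := ev_surj a
      rw [jj_ev hX hg] at hja
      have e1 : val X₁ g (xs 0 : LName (Cond C (Option ℕ))) = val X₁ g (iotaN z) := by
        rw [val_iotaN hX z.2]; exact ha.symm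
      have e2 : val X₁ g (xs 1 : LName (Cond C (Option ℕ))) = val X₁ g (jn z) :=
        (congrArg Subtype.val hja).symm
      obtain ⟨p, hp, h1⟩ := (val_eq_iff hX.o1.atom hg.a1 (xs 0).2 (hX.iota _ z.2)).1 e1
      obtain ⟨q, hq, h2⟩ := (val_eq_iff hX.o1.atom hg.a1 (xs 1).2 (hX.jnm _ z.2)).1 e2
      obtain ⟨r, hr, hrp, hrq⟩ := hg.fil.dir _ _ hp hq
      exact ⟨r, hr, fun s hs => ⟨s, le_rfl, z, hX.o0.form.sub z.2,
        feq_mono h1 (hs.trans hrp), feq_mono h2 (hs.trans hrq)⟩⟩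
    · rintro ⟨p, hp, h⟩
      have : ∃ r ∈ g, r ∈ jSet (xs 0 : LName (Cond C (Option ℕ))) (xs 1) := by
        rcases hg.dj _ (xs 0).2 _ (xs 1).2 with h1 | ⟨q, hq, h1⟩
        · exact h1
        · exfalso
          obtain ⟨r, hr, hrp, hrq⟩ := hg.fil.dir _ _ hp hq
          obtain ⟨s, hs, hs'⟩ := h r hrp
          exact h1 s (hs.trans hrq) hs'
      obtain ⟨r, hr, hj⟩ := this
      obtain ⟨z, hz, h1, h2⟩ := hX.j_sk _ (xs 0).2 _ (xs 1).2 r hj
      refine ⟨ev X₀ (resF g) ⟨z, hz⟩, ?_, ?_⟩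
      · change val X₀ (resF g) z = val X₁ g (xs 0).1
        rw [← val_iotaN hX hz]
        exact ((val_eq_iff hX.o1.atom hg.a1 (xs 0).2 (hX.iota _ hz)).2 ⟨r, hr, h1⟩).symm
      · rw [jj_ev hX hg]
        apply Subtype.ext
        exact ((val_eq_iff hX.o1.atom hg.a1 (xs 1).2 (hX.jnm _ hz)).2 ⟨r, hr, h2⟩).symm

end Final

end Pool.Agent.ChoicelessEmb
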