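import Pool.Agent.ChoicelessEmb.LName

set_option autoImplicit false

/-! # The forcing relation for atomic statements -/

namespace Pool.Agent.ChoicelessEmb

namespace LName

variable {P Q : Type} [Preorder P] [Preorder Q]

/-- `feq x y p`: the condition `p` forces `x = y`. -/
def feq : LName P → LName P → P → Prop :=
  child_wf.fix fun x ih y p =>
    (∀ u c (h : (u, c) ∈ ch x), ∀ q ≤ p, q ≤ c →
      ∃ r ≤ q, ∃ w d, (w, d) ∈ ch y ∧ r ≤ d ∧ ih u ⟨c, h⟩ w r) ∧
    (∀ w d, (w, d) ∈ ch y → ∀ q ≤ p, q ≤ d →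
      ∃ r ≤ q, ∃ u c, ∃ h : (u, c) ∈ ch x, r ≤ c ∧ ih u ⟨c, h⟩ w r)

theorem feq_iff {x y : LName P} {p : P} : feq x y p ↔
    (∀ u c, (u, c) ∈ ch x → ∀ q ≤ p, q ≤ c →
      ∃ r ≤ q, ∃ w d, (w, d) ∈ ch y ∧ r ≤ d ∧ feq u w r) ∧
    (∀ w d, (w, d) ∈ ch y → ∀ q ≤ p, q ≤ d →
      ∃ r ≤ q, ∃ u c, (u, c) ∈ ch x ∧ r ≤ c ∧ feq u w r) := by
  conv_lhs => unfold feq
  rw [WellFounded.fix_eq]
  change ((∀ u c (h : (u, c) ∈ ch x), ∀ q ≤ p, q ≤ c →
      ∃ r ≤ q, ∃ w d, (w, d) ∈ ch y ∧ r ≤ d ∧ feq u w r) ∧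
    (∀ w d, (w, d) ∈ ch y → ∀ q ≤ p, q ≤ d →
      ∃ r ≤ q, ∃ u c, ∃ h : (u, c) ∈ ch x, r ≤ c ∧ feq u w r)) ↔ _
  simp only [exists_prop]

/-- `fmem u y p`: the condition `p` forces `u ∈ y`. -/
def fmem (u y : LName P) (p : P) : Prop :=
  ∀ q ≤ p, ∃ r ≤ q, ∃ w d, (w, d) ∈ ch y ∧ r ≤ d ∧ feq u w r

theorem feq_mono {x y : LName P} {p q : P} (h : feq x y p) (hq : q ≤ p) : feq x y q := by
  rw [feq_iff] at h ⊢
  exact ⟨fun u c hu r hr hc => h.1 u c hu r (hr.trans hq) hc,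
    fun w d hw r hr hd => h.2 w d hw r (hr.trans hq) hd⟩

theorem feq_dense {x y : LName P} {p : P} (h : ∀ q ≤ p, ∃ r ≤ q, feq x y r) : feq x y p := by
  rw [feq_iff]
  constructor
  · intro u c hu q hq hc
    obtain ⟨r, hr, h1⟩ := h q hq
    obtain ⟨s, hs, h2⟩ := (feq_iff.1 h1).1 u c hu r le_rfl (hr.trans hc)
    exact ⟨s, hs.trans hr, h2⟩
  · intro w d hw q hq hd
    obtain ⟨r, hr, h1⟩ := h q hq
    obtain ⟨s, hs, h2⟩ := (feq_iff.1 h1).2 w d hw r le_rfl (hr.trans hd)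
    exact ⟨s, hs.trans hr, h2⟩

theorem feq_refl (x : LName P) : ∀ p, feq x x p := by
  induction x using induction with
  | h x ih =>
    intro p
    rw [feq_iff]
    exact ⟨fun u c hu q _ hc => ⟨q, le_rfl, u, c, hu, hc, ih u c hu q⟩,
      fun u c hu q _ hc => ⟨q, le_rfl, u, c, hu, hc, ih u c hu q⟩⟩

theorem feq_symm {x : LName P} : ∀ {y : LName P} {p : P}, feq x y p → feq y x p := by
  induction x using induction with
  | h x ih =>
    intro y p h
    rw [feq_iff] at h ⊢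
    constructor
    · intro w d hw q hq hd
      obtain ⟨r, hr, u, c, hu, hc, h'⟩ := h.2 w d hw q hq hd
      exact ⟨r, hr, u, c, hu, hc, ih u c hu h'⟩
    · intro u c hu q hq hc
      obtain ⟨r, hr, w, d, hw, hd, h'⟩ := h.1 u c hu q hq hc
      exact ⟨r, hr, w, d, hw, hd, ih u c hu h'⟩

theorem feq_trans {x : LName P} : ∀ {y z : LName P} {p : P}, feq x y p → feq y z p →
    feq x z p := by
  induction x using induction with
  | h x ih =>
    intro y z p h h'
    rw [feq_iff] at h h' ⊢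
    constructor
    · intro u c hu q hq hc
      obtain ⟨r, hr, w, d, hw, hd, h1⟩ := h.1 u c hu q hq hc
      obtain ⟨s, hs, v, e, hv, he, h2⟩ := h'.1 w d hw r (hr.trans hq) hd
      exact ⟨s, hs.trans hr, v, e, hv, he, ih u c hu (feq_mono h1 hs) h2⟩
    · intro v e hv q hq he
      obtain ⟨r, hr, w, d, hw, hd, h1⟩ := h'.2 v e hv q hq he
      obtain ⟨s, hs, u, c, hu, hc, h2⟩ := h.2 w d hw r (hr.trans hq) hd
      exact ⟨s, hs.trans hr, u, c, hu, hc, ih u c hu h2 (feq_mono h1 hs)⟩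

theorem feq_comm {x y : LName P} {p : P} : feq x y p ↔ feq y x p := ⟨feq_symm, feq_symm⟩

theorem fmem_mono {u y : LName P} {p q : P} (h : fmem u y p) (hq : q ≤ p) : fmem u y q :=
  fun r hr => h r (hr.trans hq)

theorem fmem_dense {u y : LName P} {p : P} (h : ∀ q ≤ p, ∃ r ≤ q, fmem u y r) : fmem u y p := by
  intro q hq
  obtain ⟨r, hr, h1⟩ := h q hq
  obtain ⟨s, hs, h2⟩ := h1 r le_rfl
  exact ⟨s, hs.trans hr, h2⟩

theorem fmem_of_ch {u y : LName P} {c p : P} (h : (u, c) ∈ ch y) (hp : p ≤ c) : fmem u y p :=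
  fun q hq => ⟨q, le_rfl, u, c, h, hq.trans hp, feq_refl u q⟩

theorem fmem_congr_left {u u' y : LName P} {p : P} (h : feq u u' p) (hm : fmem u y p) :
    fmem u' y p := by
  intro q hq
  obtain ⟨r, hr, w, d, hw, hd, h1⟩ := hm q hq
  exact ⟨r, hr, w, d, hw, hd, feq_trans (feq_symm (feq_mono h (hr.trans hq))) h1⟩

theorem fmem_congr_right {u y y' : LName P} {p : P} (h : feq y y' p) (hm : fmem u y p) :
    fmem u y' p := by
  intro q hq
  obtain ⟨r, hr, w, d, hw, hd, h1⟩ := hm q hq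
  obtain ⟨s, hs, v, e, hv, he, h2⟩ := (feq_iff.1 h).1 w d hw r (hr.trans hq) hd
  exact ⟨s, hs.trans hr, v, e, hv, he, feq_trans (feq_mono h1 hs) h2⟩

theorem feq_of_fmem {x y : LName P} {p : P}
    (h1 : ∀ u c, (u, c) ∈ ch x → ∀ q ≤ p, q ≤ c → fmem u y q)
    (h2 : ∀ u c, (u, c) ∈ ch y → ∀ q ≤ p, q ≤ c → fmem u x q) : feq x y p := by
  rw [feq_iff]
  constructor
  · intro u c hu q hq hc
    exact h1 u c hu q hq hc q le_rfl
  · intro w d hw q hq hd
    obtain ⟨r, hr, u, c, hu, hc, h⟩ := h2 w d hw q hq hd q le_rfl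
    exact ⟨r, hr, u, c, hu, hc, feq_symm h⟩

/-! ### Invariance under isomorphisms of the forcing notion -/

theorem feq_map_aux (f : P ≃o Q) {x : LName P} :
    ∀ {y : LName P} {p : P}, feq x y p → feq (map f x) (map f y) (f p) := by
  induction x using induction with
  | h x ih =>
    intro y p h
    rw [feq_iff] at h ⊢
    constructor
    · intro u' c' hu' q hq hc
      obtain ⟨u, c, hu, rfl, rfl⟩ := mem_ch_map.1 hu'
      obtain ⟨r, hr, w, d, hw, hd, h1⟩ := h.1 u c hu (f.symm q)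
        (by rw [← f.le_iff_le, f.apply_symm_apply]; exact hq)
        (by rw [← f.le_iff_le, f.apply_symm_apply]; exact hc)
      refine ⟨f r, ?_, map f w, f d, mem_map_of_mem _ hw, f.le_iff_le.2 hd, ih u c hu h1⟩
      have := f.le_iff_le.2 hr
      rwa [f.apply_symm_apply] at this
    · intro u' c' hu' q hq hc
      obtain ⟨w, d, hw, rfl, rfl⟩ := mem_ch_map.1 hu'
      obtain ⟨r, hr, u, c, hu, hd, h1⟩ := h.2 w d hw (f.symm q)
        (by rw [← f.le_iff_le, f.apply_symm_apply]; exact hq)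
        (by rw [← f.le_iff_le, f.apply_symm_apply]; exact hc)
      refine ⟨f r, ?_, map f u, f c, mem_map_of_mem _ hu, f.le_iff_le.2 hd, ih u c hu h1⟩
      have := f.le_iff_le.2 hr
      rwa [f.apply_symm_apply] at this

theorem map_symm_map (f : P ≃o Q) (x : LName P) : map f.symm (map f x) = x := by
  rw [map_map]; exact map_id_of (fun p => by simp) x

theorem map_map_symm (f : P ≃o Q) (x : LName Q) : map f (map f.symm x) = x := by
  rw [map_map]; exact map_id_of (fun p => by simp) x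

theorem feq_map (f : P ≃o Q) {x y : LName P} {p : P} :
    feq (map f x) (map f y) (f p) ↔ feq x y p := by
  constructor
  · intro h
    have := feq_map_aux f.symm h
    rwa [map_symm_map, map_symm_map, f.symm_apply_apply] at this
  · exact feq_map_aux f

theorem fmem_map_aux (f : P ≃o Q) {x y : LName P} {p : P} (h : fmem x y p) :
    fmem (map f x) (map f y) (f p) := by
  intro q hq
  obtain ⟨r, hr, w, d, hw, hd, h1⟩ := h (f.symm q)
        (by rw [← f.le_iff_le, f.apply_symm_apply]; exact hq)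
  refine ⟨f r, ?_, map f w, f d, mem_map_of_mem _ hw, f.le_iff_le.2 hd, (feq_map f).2 h1⟩
  have := f.le_iff_le.2 hr
  rwa [f.apply_symm_apply] at this

theorem fmem_map (f : P ≃o Q) {x y : LName P} {p : P} :
    fmem (map f x) (map f y) (f p) ↔ fmem x y p := by
  constructor
  · intro h
    have := fmem_map_aux f.symm h
    rwa [map_symm_map, map_symm_map, f.symm_apply_apply] at this
  · exact fmem_map_aux f

end LName

end Pool.Agent.ChoicelessEmb
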