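import Pool.Agent.ChoicelessEmb.Forcing

set_option autoImplicit false

/-! # The forcing relation for first-order formulas -/

namespace Pool.Agent.ChoicelessEmb

open FirstOrder Language LName

/-- In a relational language a term is a variable. -/
def tv {L : Language} [L.IsRelational] {β : Type} : L.Term β → β
  | .var a => a
  | .func f _ => isEmptyElim f

theorem realize_tv {L : Language} [L.IsRelational] {β : Type} {M : Type*} [L.Structure M]
    (v : β → M) (t : L.Term β) : t.realize v = v (tv t) := by
  cases t with
  | var a => rfl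
  | func f _ => exact isEmptyElim f

/-- An interpretation of the relation symbols of `L` in the forcing language over `P`. -/
structure FInterp (L : Language) (P : Type) [Preorder P] where
  /-- `rel R xs p`: the condition `p` forces `R xs`. -/
  rel : ∀ {n : ℕ}, L.Relations n → (Fin n → LName P) → P → Prop
  mono : ∀ {n : ℕ} (R : L.Relations n) (xs : Fin n → LName P) (p q : P), q ≤ p →
    rel R xs p → rel R xs q
  dense : ∀ {n : ℕ} (R : L.Relations n) (xs : Fin n → LName P) (p : P),
    (∀ q ≤ p, ∃ r ≤ q, rel R xs r) → rel R xs p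
  congr : ∀ {n : ℕ} (R : L.Relations n) (xs ys : Fin n → LName P) (p : P),
    (∀ i, feq (xs i) (ys i) p) → rel R xs p → rel R ys p

variable {L : Language} [L.IsRelational] {P Q : Type} [Preorder P] [Preorder Q]

/-- The forcing relation for formulas; quantifiers range over the class `D` of names. -/
def forces (F : FInterp L P) (D : Set (LName P)) {α : Type} : ∀ {n : ℕ},
    L.BoundedFormula α n → (α → LName P) → (Fin n → LName P) → P → Prop
  | _, .falsum, _, _, _ => False
  | _, .equal t₁ t₂, v, xs, p => feq (Sum.elim v xs (tv t₁)) (Sum.elim v xs (tv t₂)) p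
  | _, .rel R ts, v, xs, p => F.rel R (fun i => Sum.elim v xs (tv (ts i))) p
  | _, .imp f g, v, xs, p => ∀ q ≤ p, forces F D f v xs q → forces F D g v xs q
  | _, .all f, v, xs, p => ∀ x ∈ D, forces F D f v (Fin.snoc (α := fun _ => LName P) xs x) p

theorem forces_mono (F : FInterp L P) (D : Set (LName P)) {α : Type} {n : ℕ}
    (φ : L.BoundedFormula α n) {v : α → LName P} {xs : Fin n → LName P} {p q : P}
    (h : forces F D φ v xs p) (hq : q ≤ p) : forces F D φ v xs q := by
  induction φ with
  | falsum => exact h
  | equal t₁ t₂ => exact feq_mono h hq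
  | rel R ts => exact F.mono R _ p q hq h
  | imp f g _ _ => exact fun r hr hf => h r (hr.trans hq) hf
  | all f ih => exact fun x hx => ih (h x hx)

theorem forces_dense (F : FInterp L P) (D : Set (LName P)) {α : Type} {n : ℕ}
    (φ : L.BoundedFormula α n) {v : α → LName P} {xs : Fin n → LName P} {p : P}
    (h : ∀ q ≤ p, ∃ r ≤ q, forces F D φ v xs r) : forces F D φ v xs p := by
  induction φ generalizing p with
  | falsum =>
    obtain ⟨_, _, h⟩ := h p le_rfl
    exact h
  | equal t₁ t₂ => exact feq_dense h
  | rel R ts => exact F.dense R _ p h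
  | imp f g _ ihg =>
    intro q hq hf
    refine ihg fun r hr => ?_
    obtain ⟨s, hs, h'⟩ := h r (hr.trans hq)
    exact ⟨s, hs, h' s le_rfl (forces_mono F D f hf (hs.trans hr))⟩
  | all f ih =>
    intro x hx
    refine ih fun q hq => ?_
    obtain ⟨r, hr, h'⟩ := h q hq
    exact ⟨r, hr, h' x hx⟩

theorem forces_congr (F : FInterp L P) (D : Set (LName P)) {α : Type} {n : ℕ}
    (φ : L.BoundedFormula α n) {v v' : α → LName P} {xs xs' : Fin n → LName P} {p : P}
    (hv : ∀ a, feq (v a) (v' a) p) (hx : ∀ i, feq (xs i) (xs' i) p)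
    (h : forces F D φ v xs p) : forces F D φ v' xs' p := by
  have key : ∀ {n : ℕ} {xs xs' : Fin n → LName P} {p : P} (_ : ∀ a, feq (v a) (v' a) p)
      (_ : ∀ i, feq (xs i) (xs' i) p) (t : L.Term (α ⊕ Fin n)),
      feq (Sum.elim v xs (tv t)) (Sum.elim v' xs' (tv t)) p := by
    intro n xs xs' p hv hx t
    rcases tv t with a | i
    · exact hv a
    · exact hx i
  induction φ generalizing p v v' with
  | falsum => exact h
  | equal t₁ t₂ =>
    exact feq_trans (feq_symm (key hv hx t₁)) (feq_trans h (key hv hx t₂))
  | rel R ts =>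
    exact F.congr R _ _ p (fun i => key hv hx (ts i)) h
  | imp f g ihf ihg =>
    intro q hq hf
    refine ihg (fun a => feq_mono (hv a) hq) (fun i => feq_mono (hx i) hq) (h q hq ?_) key
    exact ihf (fun a => feq_symm (feq_mono (hv a) hq)) (fun i => feq_symm (feq_mono (hx i) hq)) hf
      (fun hv hx t => by
        rcases tv t with a | i
        · exact hv a
        · exact hx i)
  | all f ih =>
    intro x hxD
    refine ih hv ?_ (h x hxD) key
    intro i
    refine Fin.lastCases ?_ (fun j => ?_) i
    · simp only [Fin.snoc_last]; exact feq_refl x p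
    · simp only [Fin.snoc_castSucc]; exact hx j

theorem snoc_map {β γ : Type*} (g : β → γ) {n : ℕ} (xs : Fin n → β) (x : β) :
    (Fin.snoc (α := fun _ => γ) (fun i => g (xs i)) (g x)) =
      fun i => g (Fin.snoc (α := fun _ => β) xs x i) := by
  funext i
  refine Fin.lastCases ?_ (fun j => ?_) i
  · simp only [Fin.snoc_last]
  · simp only [Fin.snoc_castSucc]

/-- Invariance of the forcing relation under isomorphisms. -/
theorem forces_map_aux (f : P ≃o Q) (F : FInterp L P) (F' : FInterp L Q)
    (D : Set (LName P)) (D' : Set (LName Q))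
    (hD : ∀ x ∈ D, map f x ∈ D') (hD' : ∀ x ∈ D', map f.symm x ∈ D)
    (hF : ∀ {n : ℕ} (R : L.Relations n) (xs : Fin n → LName P) (p : P),
      F'.rel R (fun i => map f (xs i)) (f p) ↔ F.rel R xs p)
    {α : Type} {n : ℕ} (φ : L.BoundedFormula α n) {v : α → LName P} {xs : Fin n → LName P}
    {p : P} : forces F' D' φ (fun a => map f (v a)) (fun i => map f (xs i)) (f p) ↔
      forces F D φ v xs p := by
  have key : ∀ {n : ℕ} {xs : Fin n → LName P} (t : L.Term (α ⊕ Fin n)),
      Sum.elim (fun a => map f (v a)) (fun i => map f (xs i)) (tv t) =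
        map f (Sum.elim v xs (tv t)) := by
    intro n xs t
    rcases tv t with a | i <;> rfl
  induction φ generalizing p with
  | falsum => exact Iff.rfl
  | equal t₁ t₂ =>
    change feq _ _ _ ↔ feq _ _ _
    rw [key t₁, key t₂, feq_map]
  | rel R ts =>
    change F'.rel R _ _ ↔ F.rel R _ _
    rw [← hF]
    simp only [key]
  | imp g h ihg ihh =>
    constructor
    · intro H q hq hg
      exact (ihh).1 (H (f q) (f.le_iff_le.2 hq) (ihg.2 hg))
    · intro H q hq hg
      have e : f (f.symm q) = q := f.apply_symm_apply q
      rw [← e] at hg hq ⊢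
      exact ihh.2 (H _ (f.le_iff_le.1 hq) (ihg.1 hg))
  | all g ih =>
    constructor
    · intro H x hx
      refine ih.1 ?_
      rw [← snoc_map (LName.map f)]
      exact H _ (hD x hx)
    · intro H x hx
      have := ih.2 (H _ (hD' x hx))
      rw [← snoc_map (LName.map f), map_map_symm] at this
      exact this

end Pool.Agent.ChoicelessEmb
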