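import Pool.Agent.ChoicelessEmb.Homog

set_option autoImplicit false

/-! # The forcing notion as a set, evaluation of names by a filter -/

namespace Pool.Agent.ChoicelessEmb

open FirstOrder LName

/-! ### Evaluation -/

instance small_pairs (G τ : ZFSet.{0}) :
    Small.{0} {σ : ZFSet.{0} // ∃ p, p ∈ G ∧ ZFSet.pair σ p ∈ τ} := by
  refine small_of_injective (β := ↥(ZFSet.sUnion (ZFSet.sUnion τ) : ZFSet.{0}))
    (f := fun b => ⟨b.1, ?_⟩) ?_
  · obtain ⟨σ, p, _, h⟩ := b
    refine ZFSet.mem_sUnion.2 ⟨{σ}, ZFSet.mem_sUnion.2 ⟨ZFSet.pair σ p, h, ?_⟩, ?_⟩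
    · rw [ZFSet.pair, ZFSet.mem_pair]; exact Or.inl rfl
    · exact ZFSet.mem_singleton.2 rfl
  · intro b b' h
    simp only [Subtype.mk.injEq] at h
    exact Subtype.ext h

theorem pair_transGen {σ p τ : ZFSet.{0}} (h : ZFSet.pair σ p ∈ τ) :
    Relation.TransGen (fun a b : ZFSet.{0} => a ∈ b) σ τ := by
  refine Relation.TransGen.trans (b := ({σ} : ZFSet.{0}))
    (Relation.TransGen.single (ZFSet.mem_singleton.2 rfl))
    (Relation.TransGen.trans (b := ZFSet.pair σ p) (Relation.TransGen.single ?_)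
      (Relation.TransGen.single h))
  rw [ZFSet.pair, ZFSet.mem_pair]; exact Or.inl rfl

/-- The evaluation of names by `G`. -/
noncomputable def valG (G : ZFSet.{0}) : ZFSet.{0} → ZFSet.{0} :=
  ZFSet.mem_wf.transGen.fix fun τ ih =>
    ZFSet.range (fun b : {σ : ZFSet.{0} // ∃ p, p ∈ G ∧ ZFSet.pair σ p ∈ τ} =>
      ih b.1 (by obtain ⟨σ, p, _, h⟩ := b; exact pair_transGen h))

theorem isEvaluation_valG (G : ZFSet.{0}) : IsEvaluation G (valG G) := by
  intro τ y
  have h1 : valG G τ =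
      ZFSet.range (fun b : {σ : ZFSet.{0} // ∃ p, p ∈ G ∧ ZFSet.pair σ p ∈ τ} =>
        valG G b.1) := by
    conv_lhs => unfold valG
    rw [WellFounded.fix_eq]
    rfl
  rw [h1, ZFSet.mem_range]
  constructor
  · rintro ⟨⟨σ, p, hp, h⟩, rfl⟩
    exact ⟨σ, p, hp, h, rfl⟩
  · rintro ⟨σ, p, hp, h, rfl⟩
    exact ⟨⟨σ, p, hp, h⟩, rfl⟩

/-! ### Finite von Neumann ordinals -/

/-- The finite von Neumann ordinals. -/
def natZ : ℕ → ZFSet.{0}
  | 0 => ∅
  | n + 1 => insert (natZ n) (natZ n)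

theorem mem_natZ {n : ℕ} {y : ZFSet.{0}} : y ∈ natZ n ↔ ∃ m < n, y = natZ m := by
  induction n with
  | zero =>
    constructor
    · intro h; exact absurd h (ZFSet.notMem_empty y)
    · rintro ⟨m, hm, _⟩; exact absurd hm (Nat.not_lt_zero m)
  | succ n ih =>
    rw [natZ, ZFSet.mem_insert_iff, ih]
    constructor
    · rintro (rfl | ⟨m, hm, rfl⟩)
      · exact ⟨n, Nat.lt_succ_self n, rfl⟩
      · exact ⟨m, Nat.lt_succ_of_lt hm, rfl⟩
    · rintro ⟨m, hm, rfl⟩
      rcases Nat.lt_succ_iff_lt_or_eq.1 hm with h | rfl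
      · exact Or.inr ⟨m, h, rfl⟩
      · exact Or.inl rfl

theorem natZ_ne {m n : ℕ} (h : m < n) : natZ m ≠ natZ n := by
  intro e
  have h1 : natZ m ∈ natZ n := mem_natZ.2 ⟨m, h, rfl⟩
  rw [e] at h1
  exact ZFSet.mem_irrefl _ h1

theorem natZ_injective : Function.Injective natZ := by
  intro m n h
  rcases lt_trichotomy m n with h1 | h1 | h1
  · exact absurd h (natZ_ne h1)
  · exact h1
  · exact absurd h.symm (natZ_ne h1)

/-- The set of the finite von Neumann ordinals. -/
noncomputable def omegaZ : ZFSet.{0} := ZFSet.range natZ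

section Order

variable {C : Type} (code : C → ZFSet.{0})

/-- The underlying set of the forcing notion. -/
noncomputable def setP : ZFSet.{0} := ZFSet.range code

theorem mem_setP {x : ZFSet.{0}} : x ∈ setP code ↔ ∃ s, code s = x := ZFSet.mem_range

variable [PartialOrder C]

/-- The order of the forcing notion. -/
noncomputable def setR : ZFSet.{0} :=
  ZFSet.range fun b : {b : C × C // b.1 ≤ b.2} => ZFSet.pair (code b.1.1) (code b.1.2)

theorem mem_setR {x : ZFSet.{0}} :
    x ∈ setR code ↔ ∃ s t, s ≤ t ∧ x = ZFSet.pair (code s) (code t) := by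
  unfold setR
  rw [ZFSet.mem_range]
  constructor
  · rintro ⟨⟨⟨s, t⟩, h⟩, rfl⟩
    exact ⟨s, t, h, rfl⟩
  · rintro ⟨s, t, h, rfl⟩
    exact ⟨⟨(s, t), h⟩, rfl⟩

variable {code}

theorem pair_mem_setR (hc : Function.Injective code) {s t : C} :
    ZFSet.pair (code s) (code t) ∈ setR code ↔ s ≤ t := by
  rw [mem_setR]
  constructor
  · rintro ⟨s', t', h, e⟩
    rw [ZFSet.pair_inj] at e
    rw [hc e.1, hc e.2]
    exact h
  · intro h
    exact ⟨s, t, h, rfl⟩

theorem isForcingNotion [OrderTop C] (hc : Function.Injective code) :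
    IsForcingNotion (setP code) (setR code) (code ⊤) where
  sub z hz := by
    obtain ⟨s, t, _, rfl⟩ := (mem_setR code).1 hz
    exact ⟨code s, (mem_setP code).2 ⟨s, rfl⟩, code t, (mem_setP code).2 ⟨t, rfl⟩, rfl⟩
  refl p hp := by
    obtain ⟨s, rfl⟩ := (mem_setP code).1 hp
    exact (pair_mem_setR hc).2 le_rfl
  trans p q r h1 h2 := by
    obtain ⟨s, t, h, e⟩ := (mem_setR code).1 h1
    obtain ⟨t', u, h', e'⟩ := (mem_setR code).1 h2
    rw [ZFSet.pair_inj] at e e'
    obtain ⟨rfl, rfl⟩ := e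
    obtain ⟨e1, rfl⟩ := e'
    have := hc e1
    subst this
    exact (pair_mem_setR hc).2 (h.trans h')
  antisymm p q h1 h2 := by
    obtain ⟨s, t, h, e⟩ := (mem_setR code).1 h1
    rw [ZFSet.pair_inj] at e
    obtain ⟨rfl, rfl⟩ := e
    have := (pair_mem_setR hc).1 h2
    rw [le_antisymm h this]
  top_mem := (mem_setP code).2 ⟨⊤, rfl⟩
  le_top p hp := by
    obtain ⟨s, rfl⟩ := (mem_setP code).1 hp
    exact (pair_mem_setR hc).2 le_top

/-- A countable transitive set containing all the required parameters. -/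
theorem exists_Z (enc : C → ℕ) (hcode : ∀ s, code s = natZ (enc s)) :
    ∃ Z : Set ZFSet.{0}, Z.Countable ∧ (∀ x ∈ Z, ∀ y ∈ x, y ∈ Z) ∧ omegaZ ∈ Z ∧
      setP code ∈ Z ∧ setR code ∈ Z ∧ ∀ s, code s ∈ Z := by
  let Z : Set ZFSet.{0} := (Set.range natZ) ∪
    (Set.range fun b : ℕ × ℕ => ({natZ b.1, natZ b.2} : ZFSet.{0})) ∪
    (Set.range fun b : ℕ × ℕ => ZFSet.pair (natZ b.1) (natZ b.2)) ∪
    {omegaZ, setP code, setR code}
  refine ⟨Z, ?_, ?_, Or.inr (Or.inl rfl), Or.inr (Or.inr (Or.inl rfl)),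
    Or.inr (Or.inr (Or.inr rfl)), ?_⟩
  · refine (((Set.countable_range _).union (Set.countable_range _)).union
      (Set.countable_range _)).union ?_
    exact ((Set.countable_singleton _).insert _).insert _
  · rintro x (((⟨n, rfl⟩ | ⟨⟨m, n⟩, rfl⟩) | ⟨⟨m, n⟩, rfl⟩) | (rfl | rfl | rfl)) y hy
    · obtain ⟨m, _, rfl⟩ := mem_natZ.1 hy
      exact Or.inl (Or.inl (Or.inl ⟨m, rfl⟩))
    · rcases ZFSet.mem_pair.1 hy with rfl | rfl
      · exact Or.inl (Or.inl (Or.inl ⟨m, rfl⟩))
      · exact Or.inl (Or.inl (Or.inl ⟨n, rfl⟩))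
    · change y ∈ ZFSet.pair (natZ m) (natZ n) at hy
      rw [ZFSet.pair, ZFSet.mem_pair] at hy
      rcases hy with rfl | rfl
      · exact Or.inl (Or.inl (Or.inr ⟨(m, m), ZFSet.pair_eq_singleton _⟩))
      · exact Or.inl (Or.inl (Or.inr ⟨(m, n), rfl⟩))
    · obtain ⟨n, rfl⟩ := ZFSet.mem_range.1 hy
      exact Or.inl (Or.inl (Or.inl ⟨n, rfl⟩))
    · obtain ⟨s, rfl⟩ := (mem_setP code).1 hy
      exact Or.inl (Or.inl (Or.inl ⟨enc s, (hcode s).symm⟩))
    · obtain ⟨s, t, _, rfl⟩ := (mem_setR code).1 hy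
      refine Or.inl (Or.inr ⟨(enc s, enc t), ?_⟩)
      simp only [hcode]
  · intro s
    exact Or.inl (Or.inl (Or.inl ⟨enc s, (hcode s).symm⟩))

end Order

/-! ### Cohen forcing -/

/-- Finite binary sequences, ordered by extension (on the left). -/
def Coh : Type := List Bool

instance : Countable Coh := inferInstanceAs (Countable (List Bool))

instance : PartialOrder Coh where
  le s t := List.IsSuffix (t : List Bool) (s : List Bool)
  le_refl s := List.suffix_refl (s : List Bool)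
  le_trans s t u h1 h2 := List.IsSuffix.trans (h2 : List.IsSuffix (u : List Bool) (t : List Bool))
    (h1 : List.IsSuffix (t : List Bool) (s : List Bool))
  le_antisymm s t h1 h2 := by
    have h1' : List.IsSuffix (t : List Bool) (s : List Bool) := h1
    have h2' : List.IsSuffix (s : List Bool) (t : List Bool) := h2
    exact (h2'.eq_of_length_le h1'.length_le)

instance : OrderTop Coh where
  top := ([] : List Bool)
  le_top _ := List.nil_suffix

theorem Coh.le_iff {s t : Coh} : s ≤ t ↔ List.IsSuffix (t : List Bool) (s : List Bool) := Iff.rfl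

theorem split_aux (s t : List Bool) (h0 : (false :: s).IsSuffix t)
    (h1 : (true :: s).IsSuffix t) : False := by
  have h2 : (false :: s).IsSuffix (true :: s) :=
    List.suffix_of_suffix_length_le h0 h1 (by simp)
  have h3 := h2.eq_of_length (by simp)
  simp at h3

/-- Every condition has two incompatible extensions. -/
theorem Coh.split (s : Coh) : ∃ s₀ s₁ : Coh, s₀ ≤ s ∧ s₁ ≤ s ∧ ∀ t : Coh, ¬ (t ≤ s₀ ∧ t ≤ s₁) :=
  ⟨(List.cons false s : List Bool), (List.cons true s : List Bool),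
    List.suffix_cons false (s : List Bool), List.suffix_cons true (s : List Bool),
    fun t ⟨h0, h1⟩ => split_aux s t h0 h1⟩

/-- Codes of conditions. -/
noncomputable def cohCode (s : Coh) : ZFSet.{0} :=
  natZ (Encodable.encode (α := List Bool) (s : List Bool))

theorem cohCode_injective : Function.Injective cohCode := fun _ _ h =>
  Encodable.encode_injective (α := List Bool) (natZ_injective h)

end Pool.Agent.ChoicelessEmb
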