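import Pool.Agent.ChoicelessEmb.Sys

set_option autoImplicit false

/-! # Homogeneity, and elementarity of the embedding -/

namespace Pool.Agent.ChoicelessEmb

open FirstOrder LName

section Homog

variable {C : Type} [PartialOrder C] [OrderTop C] {I : Type}

theorem ff_dense {L : Language} [L.IsRelational] (F : FInterp L (Cond C I)) {k : ℕ}
    (φ : L.Formula (Fin k)) {v : Fin k → LName (Cond C I)} {p : Cond C I}
    (h : ∀ q ≤ p, ∃ r ≤ q, ff F φ v r) : ff F φ v p := forces_dense F _ φ h

/-- Homogeneity: truth about names supported by `E` is forced by conditions restricted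
to `E`. -/
theorem ff_restr [Infinite I] {k : ℕ} (φ : LEps.Formula (Fin k))
    {v : Fin k → LName (Cond C I)} {E : Set I} (hE : E.Finite) (hv : ∀ i, Supp E (v i))
    {p : Cond C I} (h : ff (Feps (Cond C I)) φ v p) : ff (Feps (Cond C I)) φ v (restr E p) := by
  classical
  apply ff_dense
  intro q hq
  obtain ⟨π, hπ, hπA⟩ := exists_perm E {i | q.1 i ≠ ⊤} ({i | p.1 i ≠ ⊤} \ E) hE q.2
    (p.2.sdiff) Set.disjoint_sdiff_left
  have h1 : ff (Feps (Cond C I)) φ v (condIso π p) := by
    have := (ff_act (Feps_eqv E) hπ φ v p).2 h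
    have e : (fun i => act π (v i)) = v := funext fun i => hv i π hπ
    rwa [e] at this
  let r : Cond C I := ⟨fun i => if i ∈ E then q.1 i
    else if (condIso π p).1 i ≠ ⊤ then (condIso π p).1 i else q.1 i, by
    refine (q.2.union (condIso π p).2).subset ?_
    intro i hi
    simp only [Set.mem_ofPred_eq] at hi
    split_ifs at hi with h1 h2
    · exact Or.inl hi
    · exact Or.inr hi
    · exact Or.inl hi⟩
  have hr : ∀ i, r.1 i = if i ∈ E then q.1 i
    else if (condIso π p).1 i ≠ ⊤ then (condIso π p).1 i else q.1 i := fun i => rfl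
  have hsymm : ∀ i ∈ E, π.symm i = i := fun i hi => by
    rw [Equiv.symm_apply_eq, hπ i hi]
  refine ⟨r, ?_, ff_mono _ φ h1 ?_⟩
  · intro i
    rw [hr]
    split_ifs with h2 h3
    · exact le_rfl
    · have : q.1 i = ⊤ := by
        by_contra hcon
        rw [condIso_apply] at h3
        have h4 : π.symm i ∉ E := by
          intro h5
          apply h2
          have := hπ _ h5
          rw [π.apply_symm_apply] at this
          rw [this]
          exact h5
        have := hπA (π.symm i) ⟨h3, h4⟩
        rw [π.apply_symm_apply] at this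
        exact this hcon
      rw [this]
      exact le_top
    · exact le_rfl
  · intro i
    rw [hr]
    split_ifs with h2 h3
    · have := hq i
      rw [restr_apply_mem h2] at this
      rw [condIso_apply, hsymm i h2]
      exact this
    · exact le_rfl
    · push Not at h3
      rw [h3]
      exact le_top

variable {code : C → ZFSet.{0}} {Z : Set ZFSet.{0}} {X₀ : Set (LName (Cond C ℕ))}
  {X₁ : Set (LName (Cond C (Option ℕ)))} {g : Set (Cond C (Option ℕ))}

/-- The truth lemma for `{∈}`-formulas, over `ℕ`. -/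
theorem tl0 (hX : SysClosed code Z X₀ X₁) (hg : SysGen code X₀ X₁ g) {k : ℕ}
    (φ : LEps.Formula (Fin k)) (v : Fin k → X₀) :
    φ.Realize (fun i => ev X₀ (resF g) (v i)) ↔
      ∃ p ∈ resF g, ff (Feps (Cond C ℕ)) φ (fun i => (v i : LName (Cond C ℕ))) p := by
  have := truth hX.o0.atom hg.a0 hX.o0.form hg.f0 (by
    intro m R xs
    cases R
    exact val_mem_iff hX.o0.atom hg.a0 (xs 0).2 (xs 1).2) φ v default
  have e1 : (fun i => ev X₀ (resF g) ((default : Fin 0 → X₀) i)) = default :=
    Subsingleton.elim _ _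
  have e2 : (fun i => ((default : Fin 0 → X₀) i : LName (Cond C ℕ))) = default :=
    Subsingleton.elim _ _
  rw [e1, e2] at this
  exact this

/-- The truth lemma for `{∈}`-formulas, over `Option ℕ`. -/
theorem tl1 (hX : SysClosed code Z X₀ X₁) (hg : SysGen code X₀ X₁ g) {k : ℕ}
    (φ : LEps.Formula (Fin k)) (v : Fin k → X₁) :
    φ.Realize (fun i => ev X₁ g (v i)) ↔
      ∃ p ∈ g, ff (Feps (Cond C (Option ℕ))) φ
        (fun i => (v i : LName (Cond C (Option ℕ)))) p := by
  have := truth hX.o1.atom hg.a1 hX.o1.form hg.f1 (by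
    intro m R xs
    cases R
    exact val_mem_iff hX.o1.atom hg.a1 (xs 0).2 (xs 1).2) φ v default
  have e1 : (fun i => ev X₁ g ((default : Fin 0 → X₁) i)) = default :=
    Subsingleton.elim _ _
  have e2 : (fun i => ((default : Fin 0 → X₁) i : LName (Cond C (Option ℕ)))) = default :=
    Subsingleton.elim _ _
  rw [e1, e2] at this
  exact this

theorem elem_aux (hX : SysClosed code Z X₀ X₁) (hg : SysGen code X₀ X₁ g) {k : ℕ}
    (φ : LEps.Formula (Fin k)) (v : Fin k → X₀)
    (h : φ.Realize (fun i => ev X₀ (resF g) (v i))) :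
    φ.Realize (fun i => ev X₁ g ⟨jn (v i), hX.jnm _ (v i).2⟩) := by
  rw [tl0 hX hg] at h
  obtain ⟨p, hp, h⟩ := h
  rw [tl1 hX hg]
  have hHS : ∀ i, HS (v i : LName (Cond C ℕ)) := fun i => hX.o0.form.sub (v i).2
  obtain ⟨E, hE, hs⟩ := exists_supp hHS
  have h1 := ff_restr φ hE hs h
  obtain ⟨e, he⟩ := exists_fix hE
  have h2 : ff (Feps (Cond C (Option ℕ))) φ (fun i => act e (v i : LName (Cond C ℕ)))
      (condIso e (restr E p)) := by
    have := forces_map_aux (condIso e) (Feps (Cond C ℕ)) (Feps (Cond C (Option ℕ)))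
      (HSset C ℕ) (HSset C (Option ℕ)) (fun x hx => HS.act hx e)
      (fun x hx => by
        have := HS.act hx e.symm
        rw [condIso_symm]
        exact this) (by
        intro n R xs p
        cases R
        exact fmem_map (condIso e)) φ (v := fun i => (v i : LName (Cond C ℕ)))
          (xs := default) (p := restr E p)
    have h3 := this.2 h1
    have e2 : (fun i => LName.map (⇑(condIso e)) ((default : Fin 0 → LName (Cond C ℕ)) i)) =
      (default : Fin 0 → LName (Cond C (Option ℕ))) := Subsingleton.elim _ _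
    rw [e2] at h3
    exact h3
  refine ⟨condIso e (restr E p), hg.fil.up _ _ hp ?_, ?_⟩
  · intro i
    by_cases hi : e.symm i ∈ E
    · have h3 := he _ hi
      rw [e.apply_symm_apply] at h3
      have h4 : (extC p).1 i = p.1 (e.symm i) := by
        conv_lhs => rw [h3]
        rfl
      rw [condIso_apply, restr_apply_mem hi, h4]
    · rw [condIso_apply, restr_apply_notMem hi]
      exact le_top
  · have e3 : (fun i => act e (v i : LName (Cond C ℕ))) = fun i => jn (v i : LName (Cond C ℕ)) :=
      funext fun i => (jn_eq (hHS i) hE (hs i) he).symm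
    rw [e3] at h2
    exact h2

/-- Elementarity on names. -/
theorem elem (hX : SysClosed code Z X₀ X₁) (hg : SysGen code X₀ X₁ g) {k : ℕ}
    (φ : LEps.Formula (Fin k)) (v : Fin k → X₀) :
    φ.Realize (fun i => ev X₀ (resF g) (v i)) ↔
    φ.Realize (fun i => ev X₁ g ⟨jn (v i), hX.jnm _ (v i).2⟩) := by
  constructor
  · exact elem_aux hX hg φ v
  · intro h
    by_contra hcon
    have := elem_aux hX hg φ.not v (by
      rw [Language.Formula.realize_not]; exact hcon)
    rw [Language.Formula.realize_not] at this
    exact this h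

theorem jn_wd (hX : SysClosed code Z X₀ X₁) (hg : SysGen code X₀ X₁ g) {z z' : LName (Cond C ℕ)}
    (hz : z ∈ X₀) (hz' : z' ∈ X₀) (h : val X₀ (resF g) z = val X₀ (resF g) z') :
    val X₁ g (jn z) = val X₁ g (jn z') := by
  let φ : LEps.Formula (Fin 2) := (Language.Term.var 0 : LEps.Term (Fin 2)).equal
    (Language.Term.var 1)
  have h1 := elem hX hg φ (fun i => if i = 0 then ⟨z, hz⟩ else ⟨z', hz'⟩)
  simp only [φ, Language.Formula.realize_equal, Language.Term.realize_var] at h1
  have h2 := h1.1 (by
    simp only [if_true, show ((1 : Fin 2) = 0) = False by simp, if_false]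
    exact Subtype.ext h)
  simp only [if_true, show ((1 : Fin 2) = 0) = False by simp, if_false] at h2
  exact congrArg Subtype.val h2

end Homog

end Pool.Agent.ChoicelessEmb
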