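import Mathlib

set_option autoImplicit false

/-! # Labelled names

`LName P` is the class of names over a set `P` of labels: a name is a small set of pairs
`(u, c)` with `u` a name and `c : P`.  The interface is `ch` (the set of such pairs), `mk`,
extensionality and induction. -/

namespace Pool.Agent.ChoicelessEmb

/-- Pre-names: well-founded trees whose edges carry labels from `P`. -/
inductive PName (P : Type) : Type 1
  | mk (α : Type) (x : α → PName P) (c : α → P) : PName P

namespace PName

variable {P : Type}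

/-- Extensional equality of pre-names. -/
def Equiv : PName P → PName P → Prop
  | ⟨_, x, c⟩, ⟨_, y, d⟩ =>
    (∀ i, ∃ j, Equiv (x i) (y j) ∧ c i = d j) ∧ (∀ j, ∃ i, Equiv (x i) (y j) ∧ c i = d j)

theorem Equiv.refl : ∀ x : PName P, Equiv x x
  | ⟨_, x, _⟩ => ⟨fun i => ⟨i, Equiv.refl (x i), rfl⟩, fun i => ⟨i, Equiv.refl (x i), rfl⟩⟩

theorem Equiv.euc : ∀ {x y z : PName P}, Equiv x y → Equiv z y → Equiv x z
  | ⟨_, _, _⟩, ⟨_, _, _⟩, ⟨_, _, _⟩, ⟨h1, h2⟩, ⟨h3, h4⟩ =>
    ⟨fun i => by
        obtain ⟨j, hj, e⟩ := h1 i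
        obtain ⟨k, hk, e'⟩ := h4 j
        exact ⟨k, Equiv.euc hj hk, e.trans e'.symm⟩,
      fun k => by
        obtain ⟨j, hj, e⟩ := h3 k
        obtain ⟨i, hi, e'⟩ := h2 j
        exact ⟨i, Equiv.euc hi hj, e'.trans e.symm⟩⟩

theorem Equiv.symm {x y : PName P} (h : Equiv x y) : Equiv y x :=
  Equiv.euc (Equiv.refl y) h

theorem Equiv.trans {x y z : PName P} (h : Equiv x y) (h' : Equiv y z) : Equiv x z :=
  Equiv.euc h h'.symm

instance setoid (P : Type) : Setoid (PName P) :=
  ⟨Equiv, Equiv.refl, Equiv.symm, Equiv.trans⟩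

end PName

/-- Labelled names over `P`. -/
def LName (P : Type) : Type 1 := Quotient (PName.setoid P)

namespace LName

variable {P Q R : Type}

/-- The set of labelled members of a name. -/
def ch : LName P → Set (LName P × P) :=
  Quotient.lift (fun x : PName P => match x with
    | ⟨_, x, c⟩ => Set.range fun i => ((Quotient.mk (PName.setoid P) (x i) : LName P), c i)) (by
    rintro ⟨α, x, c⟩ ⟨β, y, d⟩ ⟨h1, h2⟩
    ext ⟨u, e⟩
    constructor
    · rintro ⟨i, hi⟩
      obtain ⟨j, hj, hc⟩ := h1 i
      refine ⟨j, ?_⟩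
      rw [← hi]
      exact Prod.ext (Quotient.sound (s := PName.setoid P) hj.symm) hc.symm
    · rintro ⟨j, hj⟩
      obtain ⟨i, hi, hc⟩ := h2 j
      refine ⟨i, ?_⟩
      rw [← hj]
      exact Prod.ext (Quotient.sound (s := PName.setoid P) hi) hc)

theorem ch_small (x : LName P) : Small.{0} (ch x) := by
  induction x using Quotient.inductionOn with
  | h a =>
    obtain ⟨α, x, c⟩ := a
    exact small_range (fun i => ((Quotient.mk (PName.setoid P) (x i) : LName P), c i))

instance (x : LName P) : Small.{0} (ch x) := ch_small x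

theorem ext {x y : LName P} (h : ch x = ch y) : x = y := by
  induction x using Quotient.inductionOn with
  | h a =>
    induction y using Quotient.inductionOn with
    | h b =>
      obtain ⟨α, x, c⟩ := a
      obtain ⟨β, y, d⟩ := b
      apply Quotient.sound
      refine ⟨fun i => ?_, fun j => ?_⟩
      · have : ((Quotient.mk (PName.setoid P) (x i) : LName P), c i) ∈
            ch (Quotient.mk (PName.setoid P) ⟨β, y, d⟩) := by
          rw [← h]; exact ⟨i, rfl⟩
        obtain ⟨j, hj⟩ := this
        refine ⟨j, ?_, ?_⟩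
        · exact (Quotient.exact (congrArg Prod.fst hj)).symm
        · exact (congrArg Prod.snd hj).symm
      · have : ((Quotient.mk (PName.setoid P) (y j) : LName P), d j) ∈
            ch (Quotient.mk (PName.setoid P) ⟨α, x, c⟩) := by
          rw [h]; exact ⟨j, rfl⟩
        obtain ⟨i, hi⟩ := this
        refine ⟨i, ?_, ?_⟩
        · exact (Quotient.exact (congrArg Prod.fst hi))
        · exact (congrArg Prod.snd hi)

theorem induction {p : LName P → Prop} (h : ∀ x, (∀ u c, (u, c) ∈ ch x → p u) → p x) :
    ∀ x, p x := by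
  intro x
  induction x using Quotient.inductionOn with
  | h a =>
    induction a with
    | mk α x c ih =>
      apply h
      rintro u e ⟨i, hi⟩
      have := congrArg Prod.fst hi
      simp only at this
      rw [← this]
      exact ih i

/-- `u` is a member of `x` with some label. -/
def Child (u x : LName P) : Prop := ∃ c, (u, c) ∈ ch x

theorem child_wf : WellFounded (Child (P := P)) :=
  ⟨induction fun x ih => Acc.intro x fun u ⟨c, hc⟩ => ih u c hc⟩

instance : WellFoundedRelation (LName P) := ⟨Child, child_wf⟩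

/-- The quotient map. -/
def ofP (x : PName P) : LName P := Quotient.mk (PName.setoid P) x

/-- A representative. -/
noncomputable def out (x : LName P) : PName P := Quotient.out x

theorem ofP_out (x : LName P) : ofP (out x) = x := Quotient.out_eq x

theorem mem_ch_ofP {α : Type} {x : α → PName P} {c : α → P} {u : LName P} {e : P} :
    (u, e) ∈ ch (ofP ⟨α, x, c⟩) ↔ ∃ i, ofP (x i) = u ∧ c i = e := by
  constructor
  · rintro ⟨i, hi⟩
    exact ⟨i, congrArg Prod.fst hi, congrArg Prod.snd hi⟩
  · rintro ⟨i, rfl, rfl⟩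
    exact ⟨i, rfl⟩

theorem exists_mk (S : Set (LName P × P)) : ∃ x : LName P, Small.{0} S → ch x = S := by
  by_cases h : Small.{0} S
  · refine ⟨ofP ⟨Shrink S, fun i => out ((equivShrink S).symm i).1.1,
      fun i => ((equivShrink S).symm i).1.2⟩, fun _ => ?_⟩
    ext ⟨u, c⟩
    rw [mem_ch_ofP]
    constructor
    · rintro ⟨i, hi, hc⟩
      rw [ofP_out] at hi
      rw [← hi, ← hc]
      exact ((equivShrink S).symm i).2
    · intro hu
      refine ⟨equivShrink S ⟨(u, c), hu⟩, ?_, ?_⟩
      · rw [ofP_out]; simp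
      · simp
  · exact ⟨ofP ⟨Empty, fun i => i.elim, fun i => i.elim⟩, fun h' => absurd h' h⟩

/-- The name with a given small set of labelled members (junk if the set is not small). -/
noncomputable def mk (S : Set (LName P × P)) : LName P := (exists_mk S).choose

theorem ch_mk (S : Set (LName P × P)) [h : Small.{0} S] : ch (mk S) = S :=
  (exists_mk S).choose_spec h

theorem mk_ch (x : LName P) : mk (ch x) = x := ext (ch_mk _)

section small

theorem small_of_subset_image {α : Type 1} {β : Type 1} {s : Set α} {t : Set β} [Small.{0} s]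
    (f : α → β) (h : t ⊆ f '' s) : Small.{0} t :=
  small_subset h

/-- A set of pairs described by a small parameter set is small. -/
theorem small_setOf_exists {α : Type 1} {β : Type*} [Small.{0} β] (f : β → α) (p : β → Prop) :
    Small.{0} {a | ∃ b, p b ∧ a = f b} := by
  have : {a | ∃ b, p b ∧ a = f b} ⊆ Set.range f := by
    rintro a ⟨b, _, rfl⟩; exact ⟨b, rfl⟩
  exact small_subset this

end small

/-- Functorial action on names. -/
noncomputable def map (f : P → Q) : LName P → LName Q :=
  child_wf.fix fun x ih => mk {a | ∃ b : ch x, a = (ih b.1.1 ⟨b.1.2, b.2⟩, f b.1.2)}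

theorem ch_map (f : P → Q) (x : LName P) :
    ch (map f x) = (fun b : LName P × P => (map f b.1, f b.2)) '' ch x := by
  have h1 : map f x = mk {a | ∃ b : ch x, a = (map f b.1.1, f b.1.2)} := by
    unfold map
    rw [WellFounded.fix_eq]
  have h2 : {a | ∃ b : ch x, a = (map f b.1.1, f b.1.2)} =
      (fun b : LName P × P => (map f b.1, f b.2)) '' ch x := by
    ext a
    constructor
    · rintro ⟨b, rfl⟩; exact ⟨b.1, b.2, rfl⟩
    · rintro ⟨b, hb, rfl⟩; exact ⟨⟨b, hb⟩, rfl⟩
  rw [h1, h2]
  exact ch_mk _

theorem mem_ch_map {f : P → Q} {x : LName P} {v : LName Q} {d : Q} :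
    (v, d) ∈ ch (map f x) ↔ ∃ u c, (u, c) ∈ ch x ∧ v = map f u ∧ d = f c := by
  rw [ch_map]
  constructor
  · rintro ⟨⟨u, c⟩, hu, h⟩
    simp only [Prod.mk.injEq] at h
    exact ⟨u, c, hu, h.1.symm, h.2.symm⟩
  · rintro ⟨u, c, hu, rfl, rfl⟩
    exact ⟨(u, c), hu, rfl⟩

theorem mem_map_of_mem (f : P → Q) {x u : LName P} {c : P} (h : (u, c) ∈ ch x) :
    (map f u, f c) ∈ ch (map f x) := mem_ch_map.2 ⟨u, c, h, rfl, rfl⟩

theorem map_map (g : Q → R) (f : P → Q) (x : LName P) : map g (map f x) = map (g ∘ f) x := by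
  induction x using induction with
  | h x ih =>
    apply ext
    ext ⟨v, d⟩
    simp only [mem_ch_map]
    constructor
    · rintro ⟨u', c', ⟨u, c, hu, rfl, rfl⟩, rfl, rfl⟩
      exact ⟨u, c, hu, ih u c hu, rfl⟩
    · rintro ⟨u, c, hu, rfl, rfl⟩
      exact ⟨map f u, f c, ⟨u, c, hu, rfl, rfl⟩, (ih u c hu).symm, rfl⟩

theorem map_id' (x : LName P) : map (fun p => p) x = x := by
  induction x using induction with
  | h x ih =>
    apply ext
    ext ⟨v, d⟩
    simp only [mem_ch_map]
    constructor
    · rintro ⟨u, c, hu, rfl, rfl⟩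
      rw [ih u _ hu]; exact hu
    · intro h
      exact ⟨v, d, h, (ih v d h).symm, rfl⟩

theorem map_id_of {f : P → P} (h : ∀ p, f p = p) (x : LName P) : map f x = x := by
  have : f = fun p => p := funext h
  rw [this, map_id']

theorem map_congr {f g : P → Q} (h : ∀ p, f p = g p) (x : LName P) : map f x = map g x := by
  have : f = g := funext h
  rw [this]

end LName

end Pool.Agent.ChoicelessEmb
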