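import Pool.Agent.ChoicelessEmb.Cond

set_option autoImplicit false

/-! # Operations on hereditarily symmetric names -/

namespace Pool.Agent.ChoicelessEmb

open FirstOrder LName

section Ops

variable {C : Type} [PartialOrder C] [OrderTop C] {I I' I'' : Type}

theorem smallR {α : Type 1} {β : Type*} [Small.{0} β] (f : β → α) {S : Set α}
    (h : ∀ a ∈ S, ∃ b, f b = a) : Small.{0} S :=
  small_subset (s := Set.range f) fun a ha => h a ha

/-- Equivariance of a forced class under the permutations fixing `E`. -/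
def Eqv (E : Set I) (F : LName (Cond C I) → Cond C I → Prop) : Prop :=
  ∀ π : I ≃ I, (∀ i ∈ E, π i = i) → ∀ u p, HS u → F u p → F (act π u) (condIso π p)

/-! ### Separation -/

/-- The name for `{u ∈ x : F u}`. -/
noncomputable def sepN (x : LName (Cond C I)) (F : LName (Cond C I) → Cond C I → Prop) :
    LName (Cond C I) :=
  LName.mk {a | ∃ u c q, (u, c) ∈ ch x ∧ q ≤ c ∧ F u q ∧ a = (u, q)}

theorem mem_ch_sepN {x : LName (Cond C I)} {F : LName (Cond C I) → Cond C I → Prop}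
    {u : LName (Cond C I)} {q : Cond C I} :
    (u, q) ∈ ch (sepN x F) ↔ ∃ c, (u, c) ∈ ch x ∧ q ≤ c ∧ F u q := by
  have : Small.{0} {a : LName (Cond C I) × Cond C I |
      ∃ u c q, (u, c) ∈ ch x ∧ q ≤ c ∧ F u q ∧ a = (u, q)} := by
    apply smallR (fun b : ch x × Cond C I => (b.1.1.1, b.2))
    rintro a ⟨u, c, q, hu, _, _, rfl⟩
    exact ⟨(⟨(u, c), hu⟩, q), rfl⟩
  unfold sepN
  rw [ch_mk]
  constructor
  · rintro ⟨u', c, q', hu, hq, hF, h⟩
    simp only [Prod.mk.injEq] at h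
    obtain ⟨rfl, rfl⟩ := h
    exact ⟨c, hu, hq, hF⟩
  · rintro ⟨c, hu, hq, hF⟩
    exact ⟨u, c, q, hu, hq, hF, rfl⟩

theorem HS_sepN {x : LName (Cond C I)} (hx : HS x) {F : LName (Cond C I) → Cond C I → Prop}
    {E : Set I} (hE : E.Finite) (hF : Eqv E F) : HS (sepN x F) := by
  obtain ⟨Ex, hEx, hsx⟩ := hx.supp
  refine HS.intro _ (E ∪ Ex) (hE.union hEx) ?_ ?_
  · apply supp_of
    intro π hπ u q hu
    rw [mem_ch_sepN] at hu ⊢
    obtain ⟨c, hc, hq, h⟩ := hu
    exact ⟨condIso π c, hsx.mem (fun i hi => hπ i (Or.inr hi)) hc, (condIso π).le_iff_le.2 hq,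
      hF π (fun i hi => hπ i (Or.inl hi)) u q (hx.ch hc) h⟩
  · intro u q hu
    rw [mem_ch_sepN] at hu
    obtain ⟨c, hc, _⟩ := hu
    exact hx.ch hc

/-! ### Pairs -/

/-- The name for the unordered pair. -/
noncomputable def pairN (x y : LName (Cond C I)) : LName (Cond C I) :=
  LName.mk {a | a = (x, ⊤) ∨ a = (y, ⊤)}

theorem mem_ch_pairN {x y u : LName (Cond C I)} {c : Cond C I} :
    (u, c) ∈ ch (pairN x y) ↔ (u = x ∨ u = y) ∧ c = ⊤ := by
  have : Small.{0} {a : LName (Cond C I) × Cond C I | a = (x, ⊤) ∨ a = (y, ⊤)} := by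
    apply smallR (fun b : Bool => if b then (x, ⊤) else (y, ⊤))
    rintro a (rfl | rfl)
    · exact ⟨true, rfl⟩
    · exact ⟨false, rfl⟩
  unfold pairN
  rw [ch_mk]
  simp only [Set.mem_ofPred_eq, Prod.mk.injEq]
  tauto

theorem act_pairN (e : I ≃ I') (x y : LName (Cond C I)) :
    act e (pairN x y) = pairN (act e x) (act e y) := by
  apply LName.ext
  ext ⟨v, d⟩
  rw [mem_ch_act, mem_ch_pairN]
  constructor
  · rintro ⟨u, c, hu, rfl, rfl⟩
    rw [mem_ch_pairN] at hu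
    obtain ⟨rfl | rfl, rfl⟩ := hu
    · exact ⟨Or.inl rfl, condIso_top e⟩
    · exact ⟨Or.inr rfl, condIso_top e⟩
  · rintro ⟨rfl | rfl, rfl⟩
    · exact ⟨x, ⊤, mem_ch_pairN.2 ⟨Or.inl rfl, rfl⟩, rfl, (condIso_top e).symm⟩
    · exact ⟨y, ⊤, mem_ch_pairN.2 ⟨Or.inr rfl, rfl⟩, rfl, (condIso_top e).symm⟩

theorem HS_pairN {x y : LName (Cond C I)} (hx : HS x) (hy : HS y) : HS (pairN x y) := by
  obtain ⟨Ex, hEx, hsx⟩ := hx.supp
  obtain ⟨Ey, hEy, hsy⟩ := hy.supp
  refine HS.intro _ (Ex ∪ Ey) (hEx.union hEy) ?_ ?_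
  · intro π hπ
    rw [act_pairN, hsx π fun i hi => hπ i (Or.inl hi), hsy π fun i hi => hπ i (Or.inr hi)]
  · intro u c hu
    rw [mem_ch_pairN] at hu
    obtain ⟨rfl | rfl, _⟩ := hu
    · exact hx
    · exact hy

/-- The name for the (Kuratowski) ordered pair. -/
noncomputable def opairN (x y : LName (Cond C I)) : LName (Cond C I) :=
  pairN (pairN x x) (pairN x y)

theorem act_opairN (e : I ≃ I') (x y : LName (Cond C I)) :
    act e (opairN x y) = opairN (act e x) (act e y) := by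
  unfold opairN
  rw [act_pairN, act_pairN, act_pairN]

theorem HS_opairN {x y : LName (Cond C I)} (hx : HS x) (hy : HS y) : HS (opairN x y) :=
  HS_pairN (HS_pairN hx hx) (HS_pairN hx hy)

/-! ### Union -/

/-- The name for the union. -/
noncomputable def unionN (x : LName (Cond C I)) : LName (Cond C I) :=
  LName.mk {a | ∃ u c w d q, (u, c) ∈ ch x ∧ (w, d) ∈ ch u ∧ q ≤ c ∧ q ≤ d ∧ a = (w, q)}

theorem mem_ch_unionN {x : LName (Cond C I)} {w : LName (Cond C I)} {q : Cond C I} :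
    (w, q) ∈ ch (unionN x) ↔ ∃ u c d, (u, c) ∈ ch x ∧ (w, d) ∈ ch u ∧ q ≤ c ∧ q ≤ d := by
  have : Small.{0} {a : LName (Cond C I) × Cond C I |
      ∃ u c w d q, (u, c) ∈ ch x ∧ (w, d) ∈ ch u ∧ q ≤ c ∧ q ≤ d ∧ a = (w, q)} := by
    apply smallR (fun b : (Σ b : ch x, ch b.1.1) × Cond C I => (b.1.2.1.1, b.2))
    rintro a ⟨u, c, w, d, q, hu, hw, _, _, rfl⟩
    exact ⟨(⟨⟨(u, c), hu⟩, ⟨(w, d), hw⟩⟩, q), rfl⟩
  unfold unionN
  rw [ch_mk]
  constructor
  · rintro ⟨u, c, w', d, q', hu, hw, hc, hd, h⟩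
    simp only [Prod.mk.injEq] at h
    obtain ⟨rfl, rfl⟩ := h
    exact ⟨u, c, d, hu, hw, hc, hd⟩
  · rintro ⟨u, c, d, hu, hw, hc, hd⟩
    exact ⟨u, c, w, d, q, hu, hw, hc, hd, rfl⟩

theorem HS_unionN {x : LName (Cond C I)} (hx : HS x) : HS (unionN x) := by
  obtain ⟨Ex, hEx, hsx⟩ := hx.supp
  refine HS.intro _ Ex hEx ?_ ?_
  · apply supp_of
    intro π hπ w q hw
    rw [mem_ch_unionN] at hw ⊢
    obtain ⟨u, c, d, hu, hw, hc, hd⟩ := hw
    exact ⟨act π u, condIso π c, condIso π d, hsx.mem hπ hu, act_mem hw,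
      (condIso π).le_iff_le.2 hc, (condIso π).le_iff_le.2 hd⟩
  · intro w q hw
    rw [mem_ch_unionN] at hw
    obtain ⟨u, c, d, hu, hw, _⟩ := hw
    exact (hx.ch hu).ch hw

/-! ### Power set -/

/-- The labelled pairs from which subnames of `x` are built. -/
def base (x : LName (Cond C I)) : Set (LName (Cond C I) × Cond C I) :=
  {a | ∃ c, (a.1, c) ∈ ch x ∧ a.2 ≤ c}

instance small_base (x : LName (Cond C I)) : Small.{0} (base x) := by
  apply smallR (fun b : ch x × Cond C I => (b.1.1.1, b.2))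
  rintro ⟨u, q⟩ ⟨c, hu, _⟩
  exact ⟨(⟨(u, c), hu⟩, q), rfl⟩

/-- The name for the power set. -/
noncomputable def powN (x : LName (Cond C I)) : LName (Cond C I) :=
  LName.mk {a | ∃ z, HS z ∧ ch z ⊆ base x ∧ a = (z, ⊤)}

theorem mem_ch_powN {x z : LName (Cond C I)} {q : Cond C I} :
    (z, q) ∈ ch (powN x) ↔ HS z ∧ ch z ⊆ base x ∧ q = ⊤ := by
  have : Small.{0} {a : LName (Cond C I) × Cond C I |
      ∃ z, HS z ∧ ch z ⊆ base x ∧ a = (z, ⊤)} := by
    apply smallR (fun b : Set (base x) => (LName.mk (Subtype.val '' b), ⊤))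
    rintro a ⟨z, _, hz, rfl⟩
    refine ⟨Subtype.val ⁻¹' (ch z), ?_⟩
    have h1 : Subtype.val '' (Subtype.val ⁻¹' (ch z) : Set (base x)) = ch z := by
      rw [Subtype.image_preimage_coe]
      exact Set.inter_eq_right.2 hz
    simp only [Prod.mk.injEq, and_true]
    rw [h1, mk_ch]
  unfold powN
  rw [ch_mk]
  constructor
  · rintro ⟨z', hz, hb, h⟩
    simp only [Prod.mk.injEq] at h
    obtain ⟨rfl, rfl⟩ := h
    exact ⟨hz, hb, rfl⟩
  · rintro ⟨hz, hb, rfl⟩
    exact ⟨z, hz, hb, rfl⟩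

theorem HS_powN {x : LName (Cond C I)} (hx : HS x) : HS (powN x) := by
  obtain ⟨Ex, hEx, hsx⟩ := hx.supp
  refine HS.intro _ Ex hEx ?_ ?_
  · apply supp_of
    intro π hπ z q hz
    rw [mem_ch_powN] at hz ⊢
    obtain ⟨hz, hb, rfl⟩ := hz
    refine ⟨hz.act π, ?_, condIso_top π⟩
    rintro ⟨v, d⟩ hv
    obtain ⟨u, c, hu, rfl, rfl⟩ := mem_ch_act.1 hv
    obtain ⟨c', hc', hle⟩ := hb hu
    exact ⟨condIso π c', hsx.mem hπ hc', (condIso π).le_iff_le.2 hle⟩
  · intro z q hz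
    rw [mem_ch_powN] at hz
    exact hz.1

/-- The name for `x ∩ y`, built from labelled pairs of `base x`. -/
noncomputable def subN (x y : LName (Cond C I)) : LName (Cond C I) :=
  sepN x fun u q => fmem u y q

theorem HS_subN {x y : LName (Cond C I)} (hx : HS x) (hy : HS y) : HS (subN x y) := by
  obtain ⟨E, hE, hs⟩ := hy.supp
  refine HS_sepN hx hE ?_
  intro π hπ u p _ h
  have : fmem (LName.map (condIso π) u) (LName.map (condIso π) y) (condIso π p) :=
    (fmem_map (condIso π)).2 h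
  have h2 : LName.map (condIso π) y = y := hs π hπ
  rw [h2] at this
  exact this

/-! ### Collection -/

/-- The symmetric closure of a small family of names. -/
noncomputable def collN (x : LName (Cond C I)) (Y : LName (Cond C I) → Cond C I → LName (Cond C I)) :
    LName (Cond C I) :=
  LName.mk {a | ∃ u c q, ∃ π : I ≃ I, (u, c) ∈ ch x ∧ a = (act π (Y u q), ⊤)}

theorem mem_ch_collN {x : LName (Cond C I)} {Y : LName (Cond C I) → Cond C I → LName (Cond C I)}
    {v : LName (Cond C I)} {d : Cond C I} :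
    (v, d) ∈ ch (collN x Y) ↔ ∃ u c q, ∃ π : I ≃ I, (u, c) ∈ ch x ∧ v = act π (Y u q) ∧ d = ⊤ := by
  have : Small.{0} {a : LName (Cond C I) × Cond C I |
      ∃ u c q, ∃ π : I ≃ I, (u, c) ∈ ch x ∧ a = (act π (Y u q), ⊤)} := by
    apply smallR (fun b : (ch x × Cond C I) × (I ≃ I) => (act b.2 (Y b.1.1.1.1 b.1.2), ⊤))
    rintro a ⟨u, c, q, π, hu, rfl⟩
    exact ⟨((⟨(u, c), hu⟩, q), π), rfl⟩
  unfold collN
  rw [ch_mk]
  constructor
  · rintro ⟨u, c, q, π, hu, h⟩
    simp only [Prod.mk.injEq] at h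
    exact ⟨u, c, q, π, hu, h.1, h.2⟩
  · rintro ⟨u, c, q, π, hu, rfl, rfl⟩
    exact ⟨u, c, q, π, hu, rfl⟩

theorem HS_collN {x : LName (Cond C I)} {Y : LName (Cond C I) → Cond C I → LName (Cond C I)}
    (hY : ∀ u q, HS u → HS (Y u q)) (hx : HS x) : HS (collN x Y) := by
  refine HS.intro _ ∅ Set.finite_empty ?_ ?_
  · apply supp_of
    intro π _ v d hv
    rw [mem_ch_collN] at hv ⊢
    obtain ⟨u, c, q, π', hu, rfl, rfl⟩ := hv
    exact ⟨u, c, q, π'.trans π, hu, act_act _ _ _, condIso_top π⟩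
  · intro v d hv
    rw [mem_ch_collN] at hv
    obtain ⟨u, c, q, π', hu, rfl, rfl⟩ := hv
    exact (hY u q (hx.ch hu)).act π'

/-- The name for the image of `x` under a forced functional relation `F`, with witnesses `Y`. -/
noncomputable def replN (x : LName (Cond C I))
    (Y : LName (Cond C I) → Cond C I → LName (Cond C I))
    (F : LName (Cond C I) → LName (Cond C I) → Cond C I → Prop) : LName (Cond C I) :=
  sepN (collN x Y) fun y q => ∃ u c, (u, c) ∈ ch x ∧ q ≤ c ∧ F u y q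

theorem HS_replN {x : LName (Cond C I)} {Y : LName (Cond C I) → Cond C I → LName (Cond C I)}
    {F : LName (Cond C I) → LName (Cond C I) → Cond C I → Prop} {E : Set I} (hE : E.Finite)
    (hY : ∀ u q, HS u → HS (Y u q)) (hx : HS x)
    (hF : ∀ π : I ≃ I, (∀ i ∈ E, π i = i) → ∀ u v p, HS u → HS v → F u v p →
      F (act π u) (act π v) (condIso π p)) : HS (replN x Y F) := by
  obtain ⟨Ex, hEx, hsx⟩ := hx.supp
  refine HS_sepN (HS_collN hY hx) (hE.union hEx) ?_
  rintro π hπ y q hy ⟨u, c, hu, hc, h⟩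
  exact ⟨act π u, condIso π c, hsx.mem (fun i hi => hπ i (Or.inr hi)) hu,
    (condIso π).le_iff_le.2 hc,
    hF π (fun i hi => hπ i (Or.inl hi)) u y q (hx.ch hu) hy h⟩

/-! ### Check names -/

/-- Canonical names of sets. -/
noncomputable def checkN : ZFSet.{0} → LName (Cond C I) :=
  ZFSet.mem_wf.fix fun x ih => LName.mk {a | ∃ y, ∃ h : y ∈ x, a = (ih y h, ⊤)}

theorem mem_ch_checkN {x : ZFSet.{0}} {u : LName (Cond C I)} {c : Cond C I} :
    (u, c) ∈ ch (checkN x) ↔ ∃ y ∈ x, u = checkN y ∧ c = ⊤ := by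
  have h1 : (checkN x : LName (Cond C I)) = LName.mk {a | ∃ y, ∃ _ : y ∈ x, a = (checkN y, ⊤)} := by
    conv_lhs => unfold checkN
    rw [WellFounded.fix_eq]
    rfl
  have : Small.{0} {a : LName (Cond C I) × Cond C I | ∃ y, ∃ _ : y ∈ x, a = (checkN y, ⊤)} := by
    apply smallR (fun b : x => (checkN b.1, ⊤))
    rintro a ⟨y, hy, rfl⟩
    exact ⟨⟨y, hy⟩, rfl⟩
  rw [h1, ch_mk]
  constructor
  · rintro ⟨y, hy, h⟩
    simp only [Prod.mk.injEq] at h
    exact ⟨y, hy, h.1, h.2⟩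
  · rintro ⟨y, hy, rfl, rfl⟩
    exact ⟨y, hy, rfl⟩

theorem act_checkN (e : I ≃ I') (x : ZFSet.{0}) :
    act e (checkN x : LName (Cond C I)) = checkN x := by
  induction x using ZFSet.inductionOn with
  | _ x ih =>
    apply LName.ext
    ext ⟨v, d⟩
    rw [mem_ch_act, mem_ch_checkN]
    constructor
    · rintro ⟨u, c, hu, rfl, rfl⟩
      rw [mem_ch_checkN] at hu
      obtain ⟨y, hy, rfl, rfl⟩ := hu
      exact ⟨y, hy, ih y hy, condIso_top e⟩
    · rintro ⟨y, hy, rfl, rfl⟩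
      exact ⟨checkN y, ⊤, mem_ch_checkN.2 ⟨y, hy, rfl, rfl⟩, (ih y hy).symm,
        (condIso_top e).symm⟩

theorem HS_checkN (x : ZFSet.{0}) : HS (checkN x : LName (Cond C I)) := by
  induction x using ZFSet.inductionOn with
  | _ x ih =>
    refine HS.intro _ ∅ Set.finite_empty (fun π _ => act_checkN π x) ?_
    intro u c hu
    rw [mem_ch_checkN] at hu
    obtain ⟨y, hy, rfl, rfl⟩ := hu
    exact ih y hy

/-! ### Names for the generic filters -/

variable (code : C → ZFSet.{0})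

/-- The name of the `i`-th generic filter. -/
noncomputable def gN (i : I) : LName (Cond C I) :=
  LName.mk {a | ∃ s : C, a = (checkN (code s), single i s)}

theorem mem_ch_gN {i : I} {u : LName (Cond C I)} {c : Cond C I} :
    (u, c) ∈ ch (gN code i) ↔ ∃ s : C, u = checkN (code s) ∧ c = single i s := by
  have : Small.{0} {a : LName (Cond C I) × Cond C I |
      ∃ s : C, a = (checkN (code s), single i s)} := by
    apply smallR (fun s : C => ((checkN (code s) : LName (Cond C I)), single i s))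
    rintro a ⟨s, rfl⟩
    exact ⟨s, rfl⟩
  unfold gN
  rw [ch_mk]
  constructor
  · rintro ⟨s, h⟩
    simp only [Prod.mk.injEq] at h
    exact ⟨s, h.1, h.2⟩
  · rintro ⟨s, rfl, rfl⟩
    exact ⟨s, rfl⟩

theorem act_gN (e : I ≃ I') (i : I) : act e (gN code i) = gN code (e i) := by
  apply LName.ext
  ext ⟨v, d⟩
  rw [mem_ch_act, mem_ch_gN]
  constructor
  · rintro ⟨u, c, hu, rfl, rfl⟩
    rw [mem_ch_gN] at hu
    obtain ⟨s, rfl, rfl⟩ := hu
    exact ⟨s, act_checkN e _, condIso_single e i s⟩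
  · rintro ⟨s, rfl, rfl⟩
    exact ⟨checkN (code s), single i s, (mem_ch_gN code).2 ⟨s, rfl, rfl⟩,
      (act_checkN e _).symm, (condIso_single e i s).symm⟩

theorem HS_gN (i : I) : HS (gN code i) := by
  refine HS.intro _ {i} (Set.finite_singleton i) ?_ ?_
  · intro π hπ
    rw [act_gN, hπ i rfl]
  · intro u c hu
    rw [mem_ch_gN] at hu
    obtain ⟨s, rfl, rfl⟩ := hu
    exact HS_checkN _

/-- The name of the set of all the generic filters. -/
noncomputable def aN (C I : Type) [PartialOrder C] [OrderTop C] (code : C → ZFSet.{0}) :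
    LName (Cond C I) :=
  LName.mk {a | ∃ i : I, a = (gN code i, ⊤)}

theorem mem_ch_aN {u : LName (Cond C I)} {c : Cond C I} :
    (u, c) ∈ ch (aN C I code) ↔ ∃ i : I, u = gN code i ∧ c = ⊤ := by
  have : Small.{0} {a : LName (Cond C I) × Cond C I | ∃ i : I, a = (gN code i, ⊤)} := by
    apply smallR (fun i : I => ((gN code i : LName (Cond C I)), ⊤))
    rintro a ⟨s, rfl⟩
    exact ⟨s, rfl⟩
  unfold aN
  rw [ch_mk]
  constructor
  · rintro ⟨s, h⟩
    simp only [Prod.mk.injEq] at h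
    exact ⟨s, h.1, h.2⟩
  · rintro ⟨s, rfl, rfl⟩
    exact ⟨s, rfl⟩

theorem act_aN (e : I ≃ I') : act e (aN C I code) = aN C I' code := by
  apply LName.ext
  ext ⟨v, d⟩
  rw [mem_ch_act, mem_ch_aN]
  constructor
  · rintro ⟨u, c, hu, rfl, rfl⟩
    rw [mem_ch_aN] at hu
    obtain ⟨i, rfl, rfl⟩ := hu
    exact ⟨e i, act_gN code e i, condIso_top e⟩
  · rintro ⟨i, rfl, rfl⟩
    refine ⟨gN code (e.symm i), ⊤, (mem_ch_aN code).2 ⟨e.symm i, rfl, rfl⟩, ?_,
      (condIso_top e).symm⟩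
    rw [act_gN, e.apply_symm_apply]

theorem HS_aN : HS (aN C I code) := by
  refine HS.intro _ ∅ Set.finite_empty (fun π _ => act_aN code π) ?_
  intro u c hu
  rw [mem_ch_aN] at hu
  obtain ⟨i, rfl, rfl⟩ := hu
  exact HS_gN code i

end Ops

end Pool.Agent.ChoicelessEmb
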