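import Pool.Agent.ChoicelessEmb.Exist

set_option autoImplicit false

/-! # The pair of countable sets of names, and the generic filter -/

namespace Pool.Agent.ChoicelessEmb

open FirstOrder LName

section Sys

variable {C : Type} [PartialOrder C] [OrderTop C]

/-- Closure requirements for the pair `(X₀, X₁)` of sets of names. -/
structure SysClosed (code : C → ZFSet.{0}) (Z : Set ZFSet.{0}) (X₀ : Set (LName (Cond C ℕ)))
    (X₁ : Set (LName (Cond C (Option ℕ)))) : Prop where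
  o0 : OpClosed (Feps (Cond C ℕ)) X₀
  o1 : OpClosed (Feps (Cond C (Option ℕ))) X₁
  o1J : OpClosed (FepsJ C) X₁
  iota : ∀ z ∈ X₀, iotaN z ∈ X₁
  jnm : ∀ z ∈ X₀, jn z ∈ X₁
  starm : ∀ x ∈ X₁, star code x ∈ X₀
  hatm : ∀ z ∈ X₀, hat code z ∈ X₁
  iota_sk : ∀ z ∈ X₀, ∀ v ∈ X₁, ∀ d, (v, d) ∈ ch (iotaN z) →
    ∃ u ∈ X₀, ∃ c, (u, c) ∈ ch z ∧ v = iotaN u ∧ d = extC c
  star_sk : ∀ x ∈ X₁, ∀ w ∈ X₀, ∀ d, (w, d) ∈ ch (star code x) →
    ∃ u ∈ X₁, ∃ c, (u, c) ∈ ch x ∧ w = opairN (star code u) (checkN (code (c.1 none))) ∧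
      d = resC c
  hat_sk : ∀ x ∈ X₀, ∀ v ∈ X₁, ∀ q, (v, q) ∈ ch (hat code x) →
    ∃ u ∈ X₀, HatRel code x u q ∧ v = hat code u
  hat_sk2 : ∀ x ∈ X₀, ∀ u ∈ X₀, ∀ q, HatRel code x u q →
    ∃ w ∈ X₀, ∃ c s, (w, c) ∈ ch x ∧ resC q ≤ c ∧
      feq w (opairN u (checkN (code s))) (resC q) ∧ q.1 none ≤ s
  j_sk : ∀ x ∈ X₁, ∀ y ∈ X₁, ∀ r, r ∈ jSet x y →
    ∃ z ∈ X₀, feq x (iotaN z) r ∧ feq y (jn z) r
  check0 : ∀ z ∈ Z, checkN z ∈ X₀
  check1 : ∀ z ∈ Z, checkN z ∈ X₁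
  g0 : ∀ n, gN code n ∈ X₀
  g1 : ∀ i, gN code i ∈ X₁
  a0 : aN C ℕ code ∈ X₀
  a1 : aN C (Option ℕ) code ∈ X₁

/-- The disjoint union of the two classes of names. -/
def HU (C : Type) [PartialOrder C] [OrderTop C] :
    Set (LName (Cond C ℕ) ⊕ LName (Cond C (Option ℕ))) :=
  {x | match x with
    | .inl z => HS z
    | .inr z => HS z}

theorem exists_sysClosed [Countable C] (code : C → ZFSet.{0}) {Z : Set ZFSet.{0}}
    (hZ : Z.Countable) : ∃ (X₀ : Set (LName (Cond C ℕ))) (X₁ : Set (LName (Cond C (Option ℕ)))),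
      X₀.Countable ∧ X₁.Countable ∧ SysClosed code Z X₀ X₁ := by
  have h0 : CReq (HU C) fun X => OpClosed (Feps (Cond C ℕ)) (Sum.inl ⁻¹' X) :=
    CReq.comap (H := HU C) Sum.inl Sum.inl_injective
      (creq_opClosed Set.finite_empty (Feps (Cond C ℕ)) (Feps_eqv ∅))
  have h1 : CReq (HU C) fun X => OpClosed (Feps (Cond C (Option ℕ))) (Sum.inr ⁻¹' X) :=
    CReq.comap (H := HU C) Sum.inr Sum.inr_injective
      (creq_opClosed Set.finite_empty (Feps (Cond C (Option ℕ))) (Feps_eqv ∅))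
  have h1J : CReq (HU C) fun X => OpClosed (FepsJ C) (Sum.inr ⁻¹' X) :=
    CReq.comap (H := HU C) Sum.inr Sum.inr_injective
      (creq_opClosed (Set.finite_singleton none) (FepsJ C) FepsJ_eqv)
  have hi : CReq (HU C) fun X => ∀ z, Sum.inl z ∈ X → Sum.inr (iotaN z) ∈ X := by
    refine (creq_op1 (H := HU C) (Sum.elim (fun z => Sum.inr (iotaN z)) Sum.inr) ?_).mono ?_
    · rintro (z | z) hz
      · exact HS_iotaN hz
      · exact hz
    · intro X _ h z hz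
      exact h _ hz
  have hj : CReq (HU C) fun X => ∀ z, Sum.inl z ∈ X → Sum.inr (jn z) ∈ X := by
    refine (creq_op1 (H := HU C) (Sum.elim (fun z => Sum.inr (jn z)) Sum.inr) ?_).mono ?_
    · rintro (z | z) hz
      · exact HS_jn hz
      · exact hz
    · intro X _ h z hz
      exact h _ hz
  have hh : CReq (HU C) fun X => ∀ z, Sum.inl z ∈ X → Sum.inr (hat code z) ∈ X := by
    refine (creq_op1 (H := HU C) (Sum.elim (fun z => Sum.inr (hat code z)) Sum.inr) ?_).mono ?_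
    · rintro (z | z) hz
      · exact HS_hat code hz
      · exact hz
    · intro X _ h z hz
      exact h _ hz
  have hs : CReq (HU C) fun X => ∀ z, Sum.inr z ∈ X → Sum.inl (star code z) ∈ X := by
    refine (creq_op1 (H := HU C) (Sum.elim Sum.inl (fun z => Sum.inl (star code z))) ?_).mono ?_
    · rintro (z | z) hz
      · exact hz
      · exact HS_star code hz
    · intro X _ h z hz
      exact h _ hz
  have ski : CReq (HU C) fun X => ∀ d : Cond C (Option ℕ), ∀ z v, Sum.inl z ∈ X →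
      Sum.inr v ∈ X → (v, d) ∈ ch (iotaN z) →
      ∃ u, Sum.inl u ∈ X ∧ ∃ c, (u, c) ∈ ch z ∧ v = iotaN u ∧ d = extC c := by
    apply CReq.forall
    intro d
    refine (creq_sk2 (H := HU C) (fun x y w => ∃ z v u, x = Sum.inl z ∧ y = Sum.inr v ∧
      w = Sum.inl u ∧ ∃ c, (u, c) ∈ ch z ∧ v = iotaN u ∧ d = extC c) ?_).mono ?_
    · rintro x hx y hy w ⟨z, v, u, rfl, rfl, rfl, c, hc, _⟩
      exact HS.ch hx hc
    · intro X _ h z v hz hv hvd
      obtain ⟨u, c, huc, e1, e2⟩ := mem_ch_iotaN.1 hvd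
      obtain ⟨w, hw, z', v', u', e, e', rfl, h'⟩ := h _ hz _ hv
        ⟨Sum.inl u, z, v, u, rfl, rfl, rfl, c, huc, e1, e2⟩
      cases e; cases e'
      exact ⟨u', hw, h'⟩
  have sks : CReq (HU C) fun X => ∀ d : Cond C ℕ, ∀ x w, Sum.inr x ∈ X →
      Sum.inl w ∈ X → (w, d) ∈ ch (star code x) →
      ∃ u, Sum.inr u ∈ X ∧ ∃ c, (u, c) ∈ ch x ∧
        w = opairN (star code u) (checkN (code (c.1 none))) ∧ d = resC c := by
    apply CReq.forall
    intro d
    refine (creq_sk2 (H := HU C) (fun x y w => ∃ z v u, x = Sum.inr z ∧ y = Sum.inl v ∧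
      w = Sum.inr u ∧ ∃ c, (u, c) ∈ ch z ∧
        v = opairN (star code u) (checkN (code (c.1 none))) ∧ d = resC c) ?_).mono ?_
    · rintro x hx y hy w ⟨z, v, u, rfl, rfl, rfl, c, hc, _⟩
      exact HS.ch hx hc
    · intro X _ h z v hz hv hvd
      obtain ⟨u, c, huc, e1, e2⟩ := (mem_ch_star code).1 hvd
      obtain ⟨w, hw, z', v', u', e, e', rfl, h'⟩ := h _ hz _ hv
        ⟨Sum.inr u, z, v, u, rfl, rfl, rfl, c, huc, e1, e2⟩
      cases e; cases e'
      exact ⟨u', hw, h'⟩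
  have skh : CReq (HU C) fun X => ∀ q : Cond C (Option ℕ), ∀ x v, Sum.inl x ∈ X →
      Sum.inr v ∈ X → (v, q) ∈ ch (hat code x) →
      ∃ u, Sum.inl u ∈ X ∧ HatRel code x u q ∧ v = hat code u := by
    apply CReq.forall
    intro q
    refine (creq_sk2 (H := HU C) (fun x y w => ∃ z v u, x = Sum.inl z ∧ y = Sum.inr v ∧
      w = Sum.inl u ∧ HatRel code z u q ∧ v = hat code u) ?_).mono ?_
    · rintro x hx y hy w ⟨z, v, u, rfl, rfl, rfl, ⟨w, c, w', d, d', s, h1, h2, h3, _⟩, _⟩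
      exact ((HS.ch hx h1).ch h2).ch h3
    · intro X _ h z v hz hv hvd
      obtain ⟨u, hu, e⟩ := (mem_ch_hat code).1 hvd
      obtain ⟨w, hw, z', v', u', e, e', rfl, h'⟩ := h _ hz _ hv
        ⟨Sum.inl u, z, v, u, rfl, rfl, rfl, hu, e⟩
      cases e; cases e'
      exact ⟨u', hw, h'⟩
  have skh2 : CReq (HU C) fun X => ∀ q : Cond C (Option ℕ), ∀ x u, Sum.inl x ∈ X →
      Sum.inl u ∈ X → HatRel code x u q →
      ∃ w, Sum.inl w ∈ X ∧ ∃ c s, (w, c) ∈ ch x ∧ resC q ≤ c ∧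
        feq w (opairN u (checkN (code s))) (resC q) ∧ q.1 none ≤ s := by
    apply CReq.forall
    intro q
    refine (creq_sk2 (H := HU C) (fun x y w => ∃ z v u, x = Sum.inl z ∧ y = Sum.inl v ∧
      w = Sum.inl u ∧ ∃ c s, (u, c) ∈ ch z ∧ resC q ≤ c ∧
        feq u (opairN v (checkN (code s))) (resC q) ∧ q.1 none ≤ s) ?_).mono ?_
    · rintro x hx y hy w ⟨z, v, u, rfl, rfl, rfl, c, s, hc, _⟩
      exact HS.ch hx hc
    · intro X _ h z v hz hv hvd
      obtain ⟨w, c, w', d, d', s, h1, _, _, h4, h5, h6⟩ := hvd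
      obtain ⟨w, hw, z', v', u', e, e', rfl, h'⟩ := h _ hz _ hv
        ⟨Sum.inl w, z, v, w, rfl, rfl, rfl, c, s, h1, h4, h5, h6⟩
      cases e; cases e'
      exact ⟨u', hw, h'⟩
  have skj : CReq (HU C) fun X => ∀ r : Cond C (Option ℕ), ∀ x y, Sum.inr x ∈ X →
      Sum.inr y ∈ X → r ∈ jSet x y →
      ∃ z, Sum.inl z ∈ X ∧ feq x (iotaN z) r ∧ feq y (jn z) r := by
    apply CReq.forall
    intro r
    refine (creq_sk2 (H := HU C) (fun x y w => ∃ z v u, x = Sum.inr z ∧ y = Sum.inr v ∧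
      w = Sum.inl u ∧ HS u ∧ feq z (iotaN u) r ∧ feq v (jn u) r) ?_).mono ?_
    · rintro x hx y hy w ⟨z, v, u, rfl, rfl, rfl, h, _⟩
      exact h
    · intro X _ h z v hz hv hvd
      obtain ⟨u, hu, e1, e2⟩ := hvd
      obtain ⟨w, hw, z', v', u', e, e', rfl, _, h'⟩ := h _ hz _ hv
        ⟨Sum.inl u, z, v, u, rfl, rfl, rfl, hu, e1, e2⟩
      cases e; cases e'
      exact ⟨u', hw, h'⟩
  have hall := h0.and (h1.and (h1J.and (hi.and (hj.and (hh.and (hs.and (ski.and (sks.and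
    (skh.and (skh2.and skj))))))))))
  let A : Set (LName (Cond C ℕ) ⊕ LName (Cond C (Option ℕ))) :=
    ((fun z => Sum.inl (checkN z)) '' Z ∪ (fun z => Sum.inr (checkN z)) '' Z) ∪
    (Set.range (fun n => Sum.inl (gN code n)) ∪ Set.range (fun n => Sum.inr (gN code n))) ∪
    {Sum.inl (aN C ℕ code), Sum.inr (aN C (Option ℕ) code)}
  have hA : A ⊆ HU C := by
    rintro x (((⟨z, _, rfl⟩ | ⟨z, _, rfl⟩) | (⟨n, rfl⟩ | ⟨n, rfl⟩)) | hx)
    · exact HS_checkN z
    · exact HS_checkN z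
    · exact HS_gN code n
    · exact HS_gN code n
    · rcases hx with rfl | rfl
      · exact HS_aN code
      · exact HS_aN code
  have hAc : A.Countable := by
    refine (((hZ.image _).union (hZ.image _)).union
      ((Set.countable_range _).union (Set.countable_range _))).union ?_
    exact (Set.countable_singleton _).insert _
  obtain ⟨X, hAX, hXH, hXc, k0, k1, k1J, ki, kj, kh, ks, kski, ksks, kskh, kskh2, kskj⟩ :=
    hall.exists hA hAc
  refine ⟨Sum.inl ⁻¹' X, Sum.inr ⁻¹' X, hXc.preimage_of_injOn Sum.inl_injective.injOn,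
    hXc.preimage_of_injOn Sum.inr_injective.injOn, ?_⟩
  exact
    { o0 := k0
      o1 := k1
      o1J := k1J
      iota := ki
      jnm := kj
      starm := ks
      hatm := kh
      iota_sk := fun z hz v hv d h => kski d z v hz hv h
      star_sk := fun z hz v hv d h => ksks d z v hz hv h
      hat_sk := fun z hz v hv d h => kskh d z v hz hv h
      hat_sk2 := fun z hz v hv d h => kskh2 d z v hz hv h
      j_sk := fun z hz v hv d h => kskj d z v hz hv h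
      check0 := fun z hz => hAX (Or.inl (Or.inl (Or.inl ⟨z, hz, rfl⟩)))
      check1 := fun z hz => hAX (Or.inl (Or.inl (Or.inr ⟨z, hz, rfl⟩)))
      g0 := fun n => hAX (Or.inl (Or.inr (Or.inl ⟨n, rfl⟩)))
      g1 := fun n => hAX (Or.inl (Or.inr (Or.inr ⟨n, rfl⟩)))
      a0 := hAX (Or.inr (Or.inl rfl))
      a1 := hAX (Or.inr (Or.inr rfl)) }

/-- The restriction of a filter to conditions over `ℕ`. -/
def resF (g : Set (Cond C (Option ℕ))) : Set (Cond C ℕ) := {p | extC p ∈ g}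

theorem mem_resF {g : Set (Cond C (Option ℕ))} (hg : IsFil g) {r : Cond C (Option ℕ)}
    (hr : r ∈ g) : resC r ∈ resF g := hg.up _ _ hr (le_extC.2 le_rfl)

theorem isFil_resF {g : Set (Cond C (Option ℕ))} (hg : IsFil g) : IsFil (resF g) where
  top_mem := hg.up _ _ hg.top_mem (le_extC.2 (by
    intro n; exact le_top))
  up p q hp hpq := hg.up _ _ hp (extC_le_extC.2 hpq)
  dir p q hp hq := by
    obtain ⟨r, hr, h1, h2⟩ := hg.dir _ _ hp hq
    exact ⟨resC r, mem_resF hg hr, le_extC.1 h1, le_extC.1 h2⟩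

theorem dec_resF {g : Set (Cond C (Option ℕ))} (hg : IsFil g) {S : Set (Cond C ℕ)}
    (h : Dec g {r | resC r ∈ S}) : Dec (resF g) S := by
  rcases h with ⟨r, hr, h⟩ | ⟨r, hr, h⟩
  · exact Or.inl ⟨resC r, mem_resF hg hr, h⟩
  · refine Or.inr ⟨resC r, mem_resF hg hr, fun t ht hts => ?_⟩
    apply h (glue t (r.1 none)) (glue_le.2 ⟨ht, le_rfl⟩)
    change resC (glue t (r.1 none)) ∈ S
    rw [resC_glue]
    exact hts

/-- The conditions which put a member of `d` into the generic filter at `none`. -/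
def goodD (code : C → ZFSet.{0}) (d : LName (Cond C ℕ)) : Set (Cond C (Option ℕ)) :=
  {r | ∃ s : C, fmem (checkN (code s)) d (resC r) ∧ r.1 none ≤ s}

/-- Genericity requirements. -/
structure SysGen (code : C → ZFSet.{0}) (X₀ : Set (LName (Cond C ℕ)))
    (X₁ : Set (LName (Cond C (Option ℕ)))) (g : Set (Cond C (Option ℕ))) : Prop where
  fil : IsFil g
  a0 : AtomGen X₀ (resF g)
  a1 : AtomGen X₁ g
  f0 : FGen (Feps (Cond C ℕ)) (HSset C ℕ) X₀ (resF g)
  f1 : FGen (Feps (Cond C (Option ℕ))) (HSset C (Option ℕ)) X₁ g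
  f1J : FGen (FepsJ C) (HSset C (Option ℕ)) X₁ g
  dj : ∀ x ∈ X₁, ∀ y ∈ X₁, Dec g (jSet x y)
  dg : ∀ d ∈ X₀, Dec g (goodD code d)

theorem exists_sysGen (code : C → ZFSet.{0}) {X₀ : Set (LName (Cond C ℕ))}
    {X₁ : Set (LName (Cond C (Option ℕ)))} (h0 : X₀.Countable) (h1 : X₁.Countable) :
    ∃ g, SysGen code X₀ X₁ g := by
  have := h0.to_subtype
  have := h1.to_subtype
  let 𝒮 : Set (Set (Cond C (Option ℕ))) :=
    ((fun S => {r | resC r ∈ S}) '' fam (Feps (Cond C ℕ)) (HSset C ℕ) X₀) ∪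
    fam (Feps (Cond C (Option ℕ))) (HSset C (Option ℕ)) X₁ ∪
    fam (FepsJ C) (HSset C (Option ℕ)) X₁ ∪
    (Set.range fun b : X₁ × X₁ => jSet b.1.1 b.2.1) ∪
    (Set.range fun d : X₀ => goodD code d.1)
  have hc : 𝒮.Countable :=
    (((((fam_countable _ _ h0).image _).union (fam_countable _ _ h1)).union
      (fam_countable _ _ h1)).union (Set.countable_range _)).union (Set.countable_range _)
  obtain ⟨g, hg, hS⟩ := exists_generic 𝒮 hc
  refine ⟨g, ?_⟩
  obtain ⟨a0, f0⟩ := gen_of_fam (Feps (Cond C ℕ)) (HSset C ℕ) (X := X₀) (isFil_resF hg)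
    fun S hS' => dec_resF hg (hS _ (Or.inl (Or.inl (Or.inl (Or.inl ⟨S, hS', rfl⟩)))))
  obtain ⟨a1, f1⟩ := gen_of_fam (Feps (Cond C (Option ℕ))) (HSset C (Option ℕ)) (X := X₁) hg
    fun S hS' => hS _ (Or.inl (Or.inl (Or.inl (Or.inr hS'))))
  obtain ⟨_, f1J⟩ := gen_of_fam (FepsJ C) (HSset C (Option ℕ)) (X := X₁) hg
    fun S hS' => hS _ (Or.inl (Or.inl (Or.inr hS')))
  exact
    { fil := hg
      a0 := a0
      a1 := a1
      f0 := f0
      f1 := f1
      f1J := f1J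
      dj := fun x hx y hy => hS _ (Or.inl (Or.inr ⟨(⟨x, hx⟩, ⟨y, hy⟩), rfl⟩))
      dg := fun d hd => hS _ (Or.inr ⟨⟨d, hd⟩, rfl⟩) }

end Sys

end Pool.Agent.ChoicelessEmb
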