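import Pool.Agent.ChoicelessEmb.Formula
import Pool.Agent.ChoicelessEmb.Closure

set_option autoImplicit false

/-! # Evaluation of names and the truth lemma -/

namespace Pool.Agent.ChoicelessEmb

open FirstOrder LName

section Truth

variable {P : Type}

/-- Evaluation of names, restricted to the members of `X`. -/
noncomputable def val (X : Set (LName P)) (g : Set P) : LName P → ZFSet.{0} :=
  child_wf.fix fun x ih =>
    ZFSet.range (fun b : {b : ch x // b.1.1 ∈ X ∧ b.1.2 ∈ g} => ih b.1.1.1 ⟨b.1.1.2, b.1.2⟩)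

theorem mem_val {X : Set (LName P)} {g : Set P} {x : LName P} {v : ZFSet.{0}} :
    v ∈ val X g x ↔ ∃ u c, (u, c) ∈ ch x ∧ u ∈ X ∧ c ∈ g ∧ v = val X g u := by
  have h1 : val X g x =
      ZFSet.range (fun b : {b : ch x // b.1.1 ∈ X ∧ b.1.2 ∈ g} => val X g b.1.1.1) := by
    conv_lhs => unfold val
    rw [WellFounded.fix_eq]
    rfl
  rw [h1, ZFSet.mem_range]
  constructor
  · rintro ⟨⟨⟨⟨u, c⟩, hu⟩, hX, hg⟩, rfl⟩
    exact ⟨u, c, hu, hX, hg, rfl⟩
  · rintro ⟨u, c, hu, hX, hg, rfl⟩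
    exact ⟨⟨⟨(u, c), hu⟩, hX, hg⟩, rfl⟩

/-- The universe of the model. -/
def Mod (X : Set (LName P)) (g : Set P) : Set ZFSet.{0} := val X g '' X

/-- The evaluation map onto the model. -/
noncomputable def ev (X : Set (LName P)) (g : Set P) (x : X) : Mod X g :=
  ⟨val X g x.1, x.1, x.2, rfl⟩

theorem ev_surj {X : Set (LName P)} {g : Set P} (a : Mod X g) : ∃ x : X, ev X g x = a := by
  obtain ⟨_, x, hx, rfl⟩ := a
  exact ⟨⟨x, hx⟩, rfl⟩

variable [Preorder P] [OrderTop P]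

/-- The conditions deciding a witness for `u ∈ y`. -/
def memSet (u y : LName P) : Set P := {r | ∃ w d, (w, d) ∈ ch y ∧ r ≤ d ∧ feq u w r}

/-- The conditions deciding a witness for `x ⊄ y`. -/
def badSet (x y : LName P) : Set P :=
  {q | ∃ u c, (u, c) ∈ ch x ∧ q ≤ c ∧ ∀ r ≤ q, r ∉ memSet u y}

/-- Closure of `X` needed for atomic formulas. -/
structure AtomClosed (X : Set (LName P)) : Prop where
  c1 : ∀ u ∈ X, ∀ y ∈ X, ∀ r, r ∈ memSet u y →
    ∃ w ∈ X, ∃ d, (w, d) ∈ ch y ∧ r ≤ d ∧ feq u w r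
  c2 : ∀ x ∈ X, ∀ y ∈ X, ∀ q, q ∈ badSet x y →
    ∃ u ∈ X, ∃ c, (u, c) ∈ ch x ∧ q ≤ c ∧ ∀ r ≤ q, r ∉ memSet u y

/-- Genericity of `g` needed for atomic formulas. -/
structure AtomGen (X : Set (LName P)) (g : Set P) : Prop where
  fil : IsFil g
  g1 : ∀ u ∈ X, ∀ y ∈ X, Dec g (memSet u y)
  g2 : ∀ x ∈ X, ∀ y ∈ X, Dec g (badSet x y)

variable {X : Set (LName P)} {g : Set P}

theorem exists_mem_memSet (hg : AtomGen X g) {u y : LName P} (hu : u ∈ X) (hy : y ∈ X)
    (h : ∃ p ∈ g, fmem u y p) : ∃ r ∈ g, r ∈ memSet u y := by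
  rcases hg.g1 u hu y hy with h1 | ⟨p, hp, h1⟩
  · exact h1
  · exfalso
    obtain ⟨q, hq, h2⟩ := h
    obtain ⟨r, hr, hrp, hrq⟩ := hg.fil.dir p q hp hq
    obtain ⟨s, hs, h3⟩ := h2 r hrq
    exact h1 s (hs.trans hrp) h3

theorem val_eq_iff (hX : AtomClosed X) (hg : AtomGen X g) {x : LName P} :
    ∀ {y : LName P}, x ∈ X → y ∈ X → (val X g x = val X g y ↔ ∃ p ∈ g, feq x y p) := by
  induction x using LName.induction with
  | h x ih =>
    intro y hx hy
    constructor
    · intro h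
      -- no condition in `g` below which `x ⊆ y` fails
      have key1 : ∀ q ∈ g, q ∉ badSet x y := by
        intro q hq hb
        obtain ⟨u, hu, c, huc, hqc, hr⟩ := hX.c2 x hx y hy q hb
        have h1 : val X g u ∈ val X g x := mem_val.2 ⟨u, c, huc, hu, hg.fil.up _ _ hq hqc, rfl⟩
        rw [h] at h1
        obtain ⟨w, d, hwd, hw, hd, e⟩ := mem_val.1 h1
        obtain ⟨p, hp, hf⟩ := (ih u c huc hu hw).1 e
        obtain ⟨s, hs, hsq, hsp⟩ := hg.fil.dir q p hq hp
        obtain ⟨t, ht, hts, htd⟩ := hg.fil.dir s d hs hd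
        exact hr t (hts.trans hsq) ⟨w, d, hwd, htd, feq_mono hf (hts.trans hsp)⟩
      have key2 : ∀ q ∈ g, q ∉ badSet y x := by
        intro q hq hb
        obtain ⟨w, hw, d, hwd, hqd, hr⟩ := hX.c2 y hy x hx q hb
        have h1 : val X g w ∈ val X g y := mem_val.2 ⟨w, d, hwd, hw, hg.fil.up _ _ hq hqd, rfl⟩
        rw [← h] at h1
        obtain ⟨u, c, huc, hu, hc, e⟩ := mem_val.1 h1
        obtain ⟨p, hp, hf⟩ := (ih u c huc hu hw).1 e.symm
        obtain ⟨s, hs, hsq, hsp⟩ := hg.fil.dir q p hq hp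
        obtain ⟨t, ht, hts, htc⟩ := hg.fil.dir s c hs hc
        exact hr t (hts.trans hsq) ⟨u, c, huc, htc, feq_symm (feq_mono hf (hts.trans hsp))⟩
      obtain ⟨p, hp, hp1⟩ : ∃ p ∈ g, ∀ r ≤ p, r ∉ badSet x y := by
        rcases hg.g2 x hx y hy with ⟨p, hp, h1⟩ | h1
        · exact absurd h1 (key1 p hp)
        · exact h1
      obtain ⟨q, hq, hq1⟩ : ∃ p ∈ g, ∀ r ≤ p, r ∉ badSet y x := by
        rcases hg.g2 y hy x hx with ⟨p, hp, h1⟩ | h1
        · exact absurd h1 (key2 p hp)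
        · exact h1
      obtain ⟨r, hr, hrp, hrq⟩ := hg.fil.dir p q hp hq
      refine ⟨r, hr, feq_of_fmem ?_ ?_⟩
      · intro u c hu s hs hsc t ht
        by_contra hcon
        refine hp1 t (ht.trans (hs.trans hrp)) ⟨u, c, hu, ht.trans hsc, fun r' hr' hm => ?_⟩
        exact hcon ⟨r', hr', hm⟩
      · intro u c hu s hs hsc t ht
        by_contra hcon
        refine hq1 t (ht.trans (hs.trans hrq)) ⟨u, c, hu, ht.trans hsc, fun r' hr' hm => ?_⟩
        exact hcon ⟨r', hr', hm⟩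
    · rintro ⟨p, hp, h⟩
      ext v
      constructor
      · intro hv
        obtain ⟨u, c, huc, hu, hc, rfl⟩ := mem_val.1 hv
        obtain ⟨q, hq, hqp, hqc⟩ := hg.fil.dir p c hp hc
        have h1 : fmem u y q := fmem_congr_right (feq_mono h hqp) (fmem_of_ch huc hqc)
        obtain ⟨r, hr, hm⟩ := exists_mem_memSet hg hu hy ⟨q, hq, h1⟩
        obtain ⟨w, hw, d, hwd, hrd, hf⟩ := hX.c1 u hu y hy r hm
        exact mem_val.2 ⟨w, d, hwd, hw, hg.fil.up _ _ hr hrd, (ih u c huc hu hw).2 ⟨r, hr, hf⟩⟩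
      · intro hv
        obtain ⟨w, d, hwd, hw, hd, rfl⟩ := mem_val.1 hv
        obtain ⟨q, hq, hqp, hqd⟩ := hg.fil.dir p d hp hd
        have h1 : fmem w x q :=
          fmem_congr_right (feq_symm (feq_mono h hqp)) (fmem_of_ch hwd hqd)
        obtain ⟨r, hr, hm⟩ := exists_mem_memSet hg hw hx ⟨q, hq, h1⟩
        obtain ⟨u, hu, c, huc, hrc, hf⟩ := hX.c1 w hw x hx r hm
        exact mem_val.2 ⟨u, c, huc, hu, hg.fil.up _ _ hr hrc,
          ((ih u c huc hu hw).2 ⟨r, hr, feq_symm hf⟩).symm⟩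

theorem val_mem_iff (hX : AtomClosed X) (hg : AtomGen X g) {u y : LName P} (hu : u ∈ X)
    (hy : y ∈ X) : val X g u ∈ val X g y ↔ ∃ p ∈ g, fmem u y p := by
  constructor
  · intro h
    obtain ⟨w, d, hwd, hw, hd, e⟩ := mem_val.1 h
    obtain ⟨p, hp, hf⟩ := (val_eq_iff hX hg hu hw).1 e
    obtain ⟨r, hr, hrp, hrd⟩ := hg.fil.dir p d hp hd
    exact ⟨r, hr, fmem_congr_left (feq_symm (feq_mono hf hrp)) (fmem_of_ch hwd hrd)⟩
  · intro h
    obtain ⟨r, hr, hm⟩ := exists_mem_memSet hg hu hy h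
    obtain ⟨w, hw, d, hwd, hrd, hf⟩ := hX.c1 u hu y hy r hm
    exact mem_val.2 ⟨w, d, hwd, hw, hg.fil.up _ _ hr hrd, (val_eq_iff hX hg hu hw).2 ⟨r, hr, hf⟩⟩

variable {L : Language} [L.IsRelational] (F : FInterp L P) (D : Set (LName P))

/-- The conditions deciding a counterexample to `∀ x, φ`. -/
def allBad {k n : ℕ} (φ : L.BoundedFormula (Fin k) (n + 1)) (v : Fin k → LName P)
    (xs : Fin n → LName P) : Set P :=
  {p | ∃ x ∈ D, ∀ r ≤ p, ¬ forces F D φ v (Fin.snoc (α := fun _ => LName P) xs x) r}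

/-- The conditions deciding that an implication fails. -/
def impBad {k n : ℕ} (φ ψ : L.BoundedFormula (Fin k) n) (v : Fin k → LName P)
    (xs : Fin n → LName P) : Set P :=
  {p | forces F D φ v xs p ∧ ∀ r ≤ p, ¬ forces F D ψ v xs r}

/-- Closure of `X` needed for all formulas. -/
structure FClosed (X : Set (LName P)) : Prop where
  sub : X ⊆ D
  c3 : ∀ (k n : ℕ) (φ : L.BoundedFormula (Fin k) (n + 1)) (v : Fin k → LName P)
    (xs : Fin n → LName P), (∀ i, v i ∈ X) → (∀ i, xs i ∈ X) → ∀ p, p ∈ allBad F D φ v xs →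
      ∃ x ∈ X, ∀ r ≤ p, ¬ forces F D φ v (Fin.snoc (α := fun _ => LName P) xs x) r

/-- Genericity of `g` needed for all formulas. -/
structure FGen (X : Set (LName P)) (g : Set P) : Prop where
  g3 : ∀ (k n : ℕ) (φ : L.BoundedFormula (Fin k) (n + 1)) (v : Fin k → LName P)
    (xs : Fin n → LName P), (∀ i, v i ∈ X) → (∀ i, xs i ∈ X) → Dec g (allBad F D φ v xs)
  g4 : ∀ (k n : ℕ) (φ ψ : L.BoundedFormula (Fin k) n) (v : Fin k → LName P)
    (xs : Fin n → LName P), (∀ i, v i ∈ X) → (∀ i, xs i ∈ X) → Dec g (impBad F D φ ψ v xs)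

variable {F D}

/-- The truth lemma. -/
theorem truth (hX : AtomClosed X) (hg : AtomGen X g) (hX' : FClosed F D X)
    (hg' : FGen F D X g) [L.Structure (Mod X g)]
    (hR : ∀ {m : ℕ} (R : L.Relations m) (xs : Fin m → X),
      Language.Structure.RelMap R (fun i => ev X g (xs i)) ↔
        ∃ p ∈ g, F.rel R (fun i => (xs i : LName P)) p)
    {k n : ℕ} (φ : L.BoundedFormula (Fin k) n) (v : Fin k → X) (xs : Fin n → X) :
    φ.Realize (fun i => ev X g (v i)) (fun i => ev X g (xs i)) ↔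
      ∃ p ∈ g, forces F D φ (fun i => (v i : LName P)) (fun i => (xs i : LName P)) p := by
  have key : ∀ {n : ℕ} (xs : Fin n → X) (t : L.Term (Fin k ⊕ Fin n)),
      t.realize (Sum.elim (fun i => ev X g (v i)) (fun i => ev X g (xs i))) =
        ev X g (Sum.elim v xs (tv t)) := by
    intro n xs t
    rw [realize_tv]
    rcases tv t with a | i <;> rfl
  have key2 : ∀ {n : ℕ} (xs : Fin n → X) (t : L.Term (Fin k ⊕ Fin n)),
      (Sum.elim (fun i => (v i : LName P)) (fun i => (xs i : LName P)) (tv t)) =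
        (Sum.elim v xs (tv t) : X) := by
    intro n xs t
    rcases tv t with a | i <;> rfl
  induction φ with
  | falsum =>
    constructor
    · intro h; exact h.elim
    · rintro ⟨_, _, h⟩; exact h.elim
  | equal t₁ t₂ =>
    change t₁.realize _ = t₂.realize _ ↔ ∃ p ∈ g, feq _ _ p
    rw [key, key, key2, key2, ← val_eq_iff hX hg (Subtype.property _) (Subtype.property _)]
    exact Subtype.ext_iff
  | rel R ts =>
    change Language.Structure.RelMap R (fun i => (ts i).realize _) ↔ ∃ p ∈ g, F.rel R _ p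
    simp only [key, key2]
    exact hR R _
  | @imp n φ ψ ihφ ihψ =>
    rw [Language.BoundedFormula.realize_imp]
    refine (imp_congr (ihφ xs) (ihψ xs)).trans ?_
    constructor
    · intro h
      rcases hg'.g4 k n φ ψ (fun i => v i) (fun i => xs i) (fun i => (v i).2)
        (fun i => (xs i).2) with ⟨p, hp, h1, h2⟩ | ⟨p, hp, h1⟩
      · exfalso
        obtain ⟨q, hq, h3⟩ := h ⟨p, hp, h1⟩
        obtain ⟨r, hr, hrp, hrq⟩ := hg.fil.dir p q hp hq
        exact h2 r hrp (forces_mono F D ψ h3 hrq)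
      · refine ⟨p, hp, fun q hq hf => forces_dense F D ψ fun r hr => ?_⟩
        by_contra hcon
        refine h1 r (hr.trans hq) ⟨forces_mono F D φ hf hr, fun s hs hs' => ?_⟩
        exact hcon ⟨s, hs, hs'⟩
    · rintro ⟨p, hp, h⟩ ⟨q, hq, h'⟩
      obtain ⟨r, hr, hrp, hrq⟩ := hg.fil.dir p q hp hq
      exact ⟨r, hr, h r hrp (forces_mono F D φ h' hrq)⟩
  | @all n φ ih =>
    rw [Language.BoundedFormula.realize_all]
    have hsn : ∀ x : X, (Fin.snoc (α := fun _ => Mod X g) (fun i => ev X g (xs i)) (ev X g x)) =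
        fun i => ev X g (Fin.snoc (α := fun _ => X) xs x i) := fun x =>
      snoc_map (ev X g) xs x
    have hsn2 : ∀ x : X, (Fin.snoc (α := fun _ => LName P) (fun i => (xs i : LName P)) x) =
        fun i => ((Fin.snoc (α := fun _ => X) xs x i : X) : LName P) := fun x =>
      snoc_map (fun x : X => (x : LName P)) xs x
    constructor
    · intro h
      have h' : ∀ x : X, ∃ p ∈ g, forces F D φ (fun i => (v i : LName P))
          (Fin.snoc (α := fun _ => LName P) (fun i => (xs i : LName P)) x) p := by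
        intro x
        have := h (ev X g x)
        rw [hsn] at this
        rw [hsn2]
        exact (ih _).1 this
      rcases hg'.g3 k n φ (fun i => v i) (fun i => xs i) (fun i => (v i).2)
        (fun i => (xs i).2) with ⟨p, hp, h1⟩ | ⟨p, hp, h1⟩
      · exfalso
        obtain ⟨x, hx, h2⟩ := hX'.c3 k n φ (fun i => v i) (fun i => xs i) (fun i => (v i).2)
          (fun i => (xs i).2) p h1
        obtain ⟨q, hq, h3⟩ := h' ⟨x, hx⟩
        obtain ⟨r, hr, hrp, hrq⟩ := hg.fil.dir p q hp hq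
        exact h2 r hrp (forces_mono F D φ h3 hrq)
      · refine ⟨p, hp, fun x hx => forces_dense F D φ fun r hr => ?_⟩
        by_contra hcon
        exact h1 r hr ⟨x, hx, fun s hs hs' => hcon ⟨s, hs, hs'⟩⟩
    · rintro ⟨p, hp, h⟩ a
      obtain ⟨x, rfl⟩ := ev_surj a
      rw [hsn]
      refine (ih _).2 ⟨p, hp, ?_⟩
      have := h x.1 (hX'.sub x.2)
      rw [hsn2] at this
      exact this

end Truth

end Pool.Agent.ChoicelessEmb
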