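import Pool.Agent.ChoicelessEmb.Defs
import Pool.Agent.ChoicelessEmb.Ops
import Pool.Agent.ChoicelessEmb.Truth

set_option autoImplicit false

/-! # The symmetric model satisfies ZF -/

namespace Pool.Agent.ChoicelessEmb

open FirstOrder LName

section ZFModel

variable {C I : Type} [PartialOrder C] [OrderTop C]
variable {L : Language} [L.IsRelational]

/-- The forcing relation for formulas without free de Bruijn variables. -/
def ff (F : FInterp L (Cond C I)) {k : ℕ} (φ : L.Formula (Fin k)) (v : Fin k → LName (Cond C I))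
    (p : Cond C I) : Prop := forces F (HSset C I) φ v default p

theorem ff_mono (F : FInterp L (Cond C I)) {k : ℕ} (φ : L.Formula (Fin k))
    {v : Fin k → LName (Cond C I)} {p q : Cond C I} (h : ff F φ v p) (hq : q ≤ p) :
    ff F φ v q := forces_mono F _ φ h hq

/-- Equivariance of an interpretation under the permutations fixing `E`. -/
def FEqv (E : Set I) (F : FInterp L (Cond C I)) : Prop :=
  ∀ π : I ≃ I, (∀ i ∈ E, π i = i) → ∀ (n : ℕ) (R : L.Relations n)
    (xs : Fin n → LName (Cond C I)) (p : Cond C I),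
    F.rel R (fun i => act π (xs i)) (condIso π p) ↔ F.rel R xs p

theorem ff_act {E : Set I} {F : FInterp L (Cond C I)} (hF : FEqv E F) {π : I ≃ I}
    (hπ : ∀ i ∈ E, π i = i) {k : ℕ} (φ : L.Formula (Fin k)) (v : Fin k → LName (Cond C I))
    (p : Cond C I) : ff F φ (fun i => act π (v i)) (condIso π p) ↔ ff F φ v p := by
  unfold ff
  have := forces_map_aux (condIso π) F F (HSset C I) (HSset C I) (fun x hx => HS.act hx π)
    (fun x hx => by
      have := HS.act hx π.symm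
      rw [condIso_symm]
      exact this) (fun R xs p => hF π hπ _ R xs p) φ (v := v) (xs := default) (p := p)
  rw [← this]
  have e : (fun i => LName.map (⇑(condIso π)) ((default : Fin 0 → LName (Cond C I)) i)) =
      (default : Fin 0 → LName (Cond C I)) := Subsingleton.elim _ _
  rw [e]
  rfl

open Classical in
/-- A witness for `∃ y, φ(u, y, a)` forced by `q`. -/
noncomputable def witY (F : FInterp L (Cond C I)) {n : ℕ} (φ : L.Formula (Fin (n + 2)))
    (a : Fin n → LName (Cond C I)) (u : LName (Cond C I)) (q : Cond C I) :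
    LName (Cond C I) :=
  if h : ∃ y, HS y ∧ ff F φ (Fin.cons u (Fin.cons y a : Fin (n + 1) → LName (Cond C I))) q
  then h.choose else emptyN

theorem HS_witY (F : FInterp L (Cond C I)) {n : ℕ} (φ : L.Formula (Fin (n + 2)))
    (a : Fin n → LName (Cond C I)) (u : LName (Cond C I)) (q : Cond C I) :
    HS (witY F φ a u q) := by
  unfold witY
  split_ifs with h
  · exact h.choose_spec.1
  · exact HS_emptyN

theorem witY_spec (F : FInterp L (Cond C I)) {n : ℕ} (φ : L.Formula (Fin (n + 2)))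
    (a : Fin n → LName (Cond C I)) (u : LName (Cond C I)) (q : Cond C I)
    (h : ∃ y, HS y ∧ ff F φ (Fin.cons u (Fin.cons y a : Fin (n + 1) → LName (Cond C I))) q) :
    ff F φ (Fin.cons u (Fin.cons (witY F φ a u q) a : Fin (n + 1) → LName (Cond C I))) q := by
  unfold witY
  rw [dif_pos h]
  exact h.choose_spec.2

/-- The Separation name. -/
noncomputable def sepF (F : FInterp L (Cond C I)) {n : ℕ} (φ : L.Formula (Fin (n + 1)))
    (a : Fin n → LName (Cond C I)) (x : LName (Cond C I)) : LName (Cond C I) :=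
  sepN x fun u q => ff F φ (Fin.cons u a) q

/-- The Replacement name. -/
noncomputable def replF (F : FInterp L (Cond C I)) {n : ℕ} (φ : L.Formula (Fin (n + 2)))
    (a : Fin n → LName (Cond C I)) (x : LName (Cond C I)) : LName (Cond C I) :=
  replN x (witY F φ a) fun u y q =>
    ff F φ (Fin.cons u (Fin.cons y a : Fin (n + 1) → LName (Cond C I))) q

theorem exists_supp {n : ℕ} {a : Fin n → LName (Cond C I)} (ha : ∀ i, HS (a i)) :
    ∃ E : Set I, E.Finite ∧ ∀ i, Supp E (a i) := by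
  choose E hE hs using fun i => (ha i).supp
  exact ⟨⋃ i, E i, Set.finite_iUnion hE, fun i => (hs i).mono (Set.subset_iUnion E i)⟩

theorem act_cons {n : ℕ} (π : I ≃ I) (u : LName (Cond C I)) (a : Fin n → LName (Cond C I)) :
    (fun i => act π ((Fin.cons u a : Fin (n + 1) → LName (Cond C I)) i)) =
      Fin.cons (act π u) (fun i => act π (a i)) := by
  funext i
  refine Fin.cases ?_ (fun j => ?_) i
  · rfl
  · rfl

theorem HS_sepF {E : Set I} (hE : E.Finite) {F : FInterp L (Cond C I)} (hF : FEqv E F) {n : ℕ}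
    (φ : L.Formula (Fin (n + 1))) {a : Fin n → LName (Cond C I)} (ha : ∀ i, HS (a i))
    {x : LName (Cond C I)} (hx : HS x) : HS (sepF F φ a x) := by
  obtain ⟨E', hE', hs⟩ := exists_supp ha
  refine HS_sepN hx (hE.union hE') ?_
  intro π hπ u p _ h
  have := (ff_act hF (fun i hi => hπ i (Or.inl hi)) φ (Fin.cons u a) p).2 h
  rw [act_cons] at this
  have e : (fun i => act π (a i)) = a := funext fun i => hs i π fun j hj => hπ j (Or.inr hj)
  rw [e] at this
  exact this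

theorem HS_replF {E : Set I} (hE : E.Finite) {F : FInterp L (Cond C I)} (hF : FEqv E F) {n : ℕ}
    (φ : L.Formula (Fin (n + 2))) {a : Fin n → LName (Cond C I)} (ha : ∀ i, HS (a i))
    {x : LName (Cond C I)} (hx : HS x) : HS (replF F φ a x) := by
  obtain ⟨E', hE', hs⟩ := exists_supp ha
  refine HS_replN (hE.union hE') (fun u q _ => HS_witY F φ a u q) hx ?_
  intro π hπ u v p _ _ h
  have := (ff_act hF (fun i hi => hπ i (Or.inl hi)) φ
    (Fin.cons u (Fin.cons v a : Fin (n + 1) → LName (Cond C I))) p).2 h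
  rw [act_cons, act_cons] at this
  have e : (fun i => act π (a i)) = a := funext fun i => hs i π fun j hj => hπ j (Or.inr hj)
  rw [e] at this
  exact this

/-- All closure requirements on the set `X` of names. -/
structure OpClosed (F : FInterp L (Cond C I)) (X : Set (LName (Cond C I))) : Prop where
  atom : AtomClosed X
  form : FClosed F (HSset C I) X
  pair : ∀ x ∈ X, ∀ y ∈ X, pairN x y ∈ X
  union : ∀ x ∈ X, unionN x ∈ X
  union2 : ∀ x ∈ X, ∀ w ∈ X, ∀ q,
    (∃ u c d, (u, c) ∈ ch x ∧ (w, d) ∈ ch u ∧ q ≤ c ∧ q ≤ d) →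
    ∃ u ∈ X, ∃ c d, (u, c) ∈ ch x ∧ (w, d) ∈ ch u ∧ q ≤ c ∧ q ≤ d
  pow : ∀ x ∈ X, powN x ∈ X
  sub : ∀ x ∈ X, ∀ y ∈ X, subN x y ∈ X
  sep : ∀ (n : ℕ) (φ : L.Formula (Fin (n + 1))) (a : Fin n → LName (Cond C I)),
    (∀ i, a i ∈ X) → ∀ x ∈ X, sepF F φ a x ∈ X
  wit : ∀ (n : ℕ) (φ : L.Formula (Fin (n + 2))) (a : Fin n → LName (Cond C I)),
    (∀ i, a i ∈ X) → ∀ u ∈ X, ∀ q, witY F φ a u q ∈ X
  repl : ∀ (n : ℕ) (φ : L.Formula (Fin (n + 2))) (a : Fin n → LName (Cond C I)),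
    (∀ i, a i ∈ X) → ∀ x ∈ X, replF F φ a x ∈ X
  repl2 : ∀ (n : ℕ) (φ : L.Formula (Fin (n + 2))) (a : Fin n → LName (Cond C I)),
    (∀ i, a i ∈ X) → ∀ x ∈ X, ∀ y ∈ X, ∀ q,
    (∃ u c, (u, c) ∈ ch x ∧ q ≤ c ∧
      ff F φ (Fin.cons u (Fin.cons y a : Fin (n + 1) → LName (Cond C I))) q) →
    ∃ u ∈ X, ∃ c, (u, c) ∈ ch x ∧ q ≤ c ∧
      ff F φ (Fin.cons u (Fin.cons y a : Fin (n + 1) → LName (Cond C I))) q

/-- Evaluation of check names. -/
theorem val_checkN {X : Set (LName (Cond C I))} {g : Set (Cond C I)} (hg : IsFil g)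
    {Z : Set ZFSet.{0}} (hZ : ∀ x ∈ Z, ∀ y ∈ x, y ∈ Z) (hX : ∀ z ∈ Z, checkN z ∈ X)
    (z : ZFSet.{0}) (hz : z ∈ Z) : val X g (checkN z) = z := by
  induction z using ZFSet.inductionOn with
  | _ z ih =>
    ext v
    rw [mem_val]
    constructor
    · rintro ⟨u, c, hu, _, _, rfl⟩
      obtain ⟨y, hy, rfl, rfl⟩ := mem_ch_checkN.1 hu
      rw [ih y hy (hZ z hz y hy)]
      exact hy
    · intro hv
      exact ⟨checkN v, ⊤, mem_ch_checkN.2 ⟨v, hv, rfl, rfl⟩, hX v (hZ z hz v hv), hg.top_mem,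
        (ih v hv (hZ z hz v hv)).symm⟩

theorem val_pairN {X : Set (LName (Cond C I))} {g : Set (Cond C I)} (hg : IsFil g)
    {x y : LName (Cond C I)} (hx : x ∈ X) (hy : y ∈ X) :
    val X g (pairN x y) = {val X g x, val X g y} := by
  ext v
  rw [mem_val, ZFSet.mem_pair]
  constructor
  · rintro ⟨u, c, hu, _, _, rfl⟩
    rw [mem_ch_pairN] at hu
    obtain ⟨rfl | rfl, _⟩ := hu
    · exact Or.inl rfl
    · exact Or.inr rfl
  · rintro (rfl | rfl)
    · exact ⟨x, ⊤, mem_ch_pairN.2 ⟨Or.inl rfl, rfl⟩, hx, hg.top_mem, rfl⟩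
    · exact ⟨y, ⊤, mem_ch_pairN.2 ⟨Or.inr rfl, rfl⟩, hy, hg.top_mem, rfl⟩

theorem val_opairN {X : Set (LName (Cond C I))} {g : Set (Cond C I)} (hg : IsFil g)
    (hX : ∀ x ∈ X, ∀ y ∈ X, pairN x y ∈ X)
    {x y : LName (Cond C I)} (hx : x ∈ X) (hy : y ∈ X) :
    val X g (opairN x y) = ZFSet.pair (val X g x) (val X g y) := by
  unfold opairN
  rw [val_pairN hg (hX x hx x hx) (hX x hx y hy), val_pairN hg hx hx, val_pairN hg hx hy]
  unfold ZFSet.pair
  congr 1
  exact ZFSet.pair_eq_singleton _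

variable {E : Set I} {F : FInterp L (Cond C I)} {X : Set (LName (Cond C I))}
  {g : Set (Cond C I)}

theorem cons_ev {n : ℕ} (u : X) (a : Fin n → X) :
    (Fin.cons (ev X g u) (fun i => ev X g (a i)) : Fin (n + 1) → Mod X g) =
      fun i => ev X g ((Fin.cons u a : Fin (n + 1) → X) i) := by
  funext i
  refine Fin.cases ?_ (fun j => ?_) i
  · rfl
  · rfl

theorem cons_coe {n : ℕ} (u : X) (a : Fin n → X) :
    (Fin.cons (u : LName (Cond C I)) (fun i => (a i : LName (Cond C I))) :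
      Fin (n + 1) → LName (Cond C I)) =
      fun i => ((Fin.cons u a : Fin (n + 1) → X) i : LName (Cond C I)) := by
  funext i
  refine Fin.cases ?_ (fun j => ?_) i
  · rfl
  · rfl

/-- The symmetric model satisfies ZF for formulas of the language `L`. -/
theorem modelsZF (hX : OpClosed F X) (hg : AtomGen X g) (hg' : FGen F (HSset C I) X g)
    [L.Structure (Mod X g)]
    (hR : ∀ {m : ℕ} (R : L.Relations m) (xs : Fin m → X),
      Language.Structure.RelMap R (fun i => ev X g (xs i)) ↔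
        ∃ p ∈ g, F.rel R (fun i => (xs i : LName (Cond C I))) p)
    (hω : ∃ ω ∈ Mod X g, ∅ ∈ ω ∧ ∀ n ∈ ω, insert n n ∈ ω) :
    ModelsZF L (Mod X g) := by
  have tr : ∀ x ∈ Mod X g, ∀ y ∈ x, y ∈ Mod X g := by
    rintro _ ⟨x, hx, rfl⟩ y hy
    obtain ⟨u, c, _, hu, _, rfl⟩ := mem_val.1 hy
    exact ⟨u, hu, rfl⟩
  -- the truth lemma for formulas
  have tl : ∀ {k : ℕ} (φ : L.Formula (Fin k)) (v : Fin k → X),
      φ.Realize (fun i => ev X g (v i)) ↔ ∃ p ∈ g, ff F φ (fun i => (v i : LName (Cond C I))) p := by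
    intro k φ v
    have := truth hX.atom hg hX.form hg' hR φ v default
    unfold ff
    have e1 : (fun i => ev X g ((default : Fin 0 → X) i)) = default := Subsingleton.elim _ _
    have e2 : (fun i => ((default : Fin 0 → X) i : LName (Cond C I))) = default :=
      Subsingleton.elim _ _
    rw [e1, e2] at this
    exact this
  have tl1 : ∀ {n : ℕ} (φ : L.Formula (Fin (n + 1))) (u : X) (a : Fin n → X),
      φ.Realize (Fin.cons (ev X g u) (fun i => ev X g (a i)) : Fin (n + 1) → Mod X g) ↔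
      ∃ p ∈ g, ff F φ (Fin.cons (u : LName (Cond C I)) (fun i => (a i : LName (Cond C I)))) p := by
    intro n φ u a
    rw [cons_ev, cons_coe]
    exact tl φ _
  have tl2 : ∀ {n : ℕ} (φ : L.Formula (Fin (n + 2))) (u v : X) (a : Fin n → X),
      φ.Realize (Fin.cons (ev X g u) (Fin.cons (ev X g v) (fun i => ev X g (a i)) :
        Fin (n + 1) → Mod X g) : Fin (n + 2) → Mod X g) ↔
      ∃ p ∈ g, ff F φ (Fin.cons (u : LName (Cond C I))
        (Fin.cons (v : LName (Cond C I)) (fun i => (a i : LName (Cond C I))) :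
          Fin (n + 1) → LName (Cond C I))) p := by
    intro n φ u v a
    rw [cons_ev, cons_ev, cons_coe, cons_coe]
    exact tl φ _
  refine ⟨tr, ?_, ?_, ?_, ?_, ?_, ?_, ?_, ?_⟩
  · -- extensionality
    intro x y h
    apply Subtype.ext
    ext z
    constructor
    · intro hz; exact (h ⟨z, tr _ x.2 z hz⟩).1 hz
    · intro hz; exact (h ⟨z, tr _ y.2 z hz⟩).2 hz
  · -- foundation
    rintro x ⟨y, hy⟩
    obtain ⟨m, hm, hmin⟩ := ZFSet.mem_wf.has_min {z | z ∈ x.1} ⟨y.1, hy⟩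
    exact ⟨⟨m, tr _ x.2 m hm⟩, hm, fun z hz hzm => hmin z.1 hz hzm⟩
  · -- pairing
    intro x y
    obtain ⟨x, rfl⟩ := ev_surj x
    obtain ⟨y, rfl⟩ := ev_surj y
    refine ⟨ev X g ⟨pairN x y, hX.pair x x.2 y y.2⟩, fun w => ?_⟩
    change w.1 ∈ val X g (pairN x y) ↔ _
    rw [val_pairN hg.fil x.2 y.2, ZFSet.mem_pair, Subtype.ext_iff, Subtype.ext_iff]
    rfl
  · -- union
    intro x
    obtain ⟨x, rfl⟩ := ev_surj x
    refine ⟨ev X g ⟨unionN x, hX.union x x.2⟩, fun z => ?_⟩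
    change z.1 ∈ val X g (unionN x) ↔ _
    constructor
    · intro hz
      obtain ⟨w, q, hw, hwX, hq, e⟩ := mem_val.1 hz
      obtain ⟨u, hu, c, d, huc, hwd, hqc, hqd⟩ :=
        hX.union2 x x.2 w hwX q (mem_ch_unionN.1 hw)
      refine ⟨ev X g ⟨u, hu⟩, mem_val.2 ⟨u, c, huc, hu, hg.fil.up _ _ hq hqc, rfl⟩, ?_⟩
      rw [e]
      exact mem_val.2 ⟨w, d, hwd, hwX, hg.fil.up _ _ hq hqd, rfl⟩
    · rintro ⟨w, hw, hz⟩
      obtain ⟨u, c, huc, hu, hc, e⟩ := mem_val.1 hw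
      rw [e] at hz
      obtain ⟨w', d, hwd, hw', hd, e'⟩ := mem_val.1 hz
      obtain ⟨q, hq, hqc, hqd⟩ := hg.fil.dir c d hc hd
      exact mem_val.2 ⟨w', q, mem_ch_unionN.2 ⟨u, c, d, huc, hwd, hqc, hqd⟩, hw', hq, e'⟩
  · -- power set
    intro x
    obtain ⟨x, rfl⟩ := ev_surj x
    refine ⟨ev X g ⟨powN x, hX.pow x x.2⟩, fun z => ?_⟩
    change z.1 ∈ val X g (powN x) ↔ _
    constructor
    · intro hz w hw
      obtain ⟨z', q, hz', hzX, hq, e⟩ := mem_val.1 hz
      obtain ⟨_, hb, _⟩ := mem_ch_powN.1 hz'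
      rw [e] at hw
      obtain ⟨u, r, hu, huX, hr, e'⟩ := mem_val.1 hw
      obtain ⟨c, hc, hrc⟩ := hb hu
      exact mem_val.2 ⟨u, c, hc, huX, hg.fil.up _ _ hr hrc, e'⟩
    · intro h
      obtain ⟨y, rfl⟩ := ev_surj z
      have hsub : subN (x : LName (Cond C I)) y ∈ X := hX.sub x x.2 y y.2
      refine mem_val.2 ⟨subN x y, ⊤, mem_ch_powN.2 ⟨hX.form.sub hsub, ?_, rfl⟩, hsub,
        hg.fil.top_mem, ?_⟩
      · rintro ⟨u, q⟩ hu
        obtain ⟨c, hc, hqc, _⟩ := mem_ch_sepN.1 hu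
        exact ⟨c, hc, hqc⟩
      · ext v
        constructor
        · intro hv
          have hv' : v ∈ val X g x := h ⟨v, tr _ (ev X g y).2 v hv⟩ hv
          obtain ⟨u, c, huc, huX, hc, rfl⟩ := mem_val.1 hv'
          obtain ⟨p, hp, hpm⟩ := (val_mem_iff hX.atom hg huX y.2).1 hv
          obtain ⟨r, hr, hrp, hrc⟩ := hg.fil.dir p c hp hc
          exact mem_val.2 ⟨u, r, mem_ch_sepN.2 ⟨c, huc, hrc, fmem_mono hpm hrp⟩, huX, hr, rfl⟩
        · intro hv
          obtain ⟨u, q, hu, huX, hq, rfl⟩ := mem_val.1 hv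
          obtain ⟨c, hc, hqc, hm⟩ := mem_ch_sepN.1 hu
          exact (val_mem_iff hX.atom hg huX y.2).2 ⟨q, hq, hm⟩
  · -- infinity
    obtain ⟨ω, hω, h0, hs⟩ := hω
    refine ⟨⟨ω, hω⟩, ⟨⟨∅, tr ω hω _ h0⟩, h0, fun w => ZFSet.notMem_empty _⟩, ?_⟩
    intro y hy
    refine ⟨⟨insert y.1 y.1, tr ω hω _ (hs _ hy)⟩, hs _ hy, fun w => ?_⟩
    simp only [ZFSet.mem_insert_iff]
    rw [Subtype.ext_iff]
    tauto
  · -- separation
    intro n φ a x
    obtain ⟨x, rfl⟩ := ev_surj x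
    choose a' ha' using fun i => ev_surj (a i)
    have ha : (fun i => ev X g (a' i)) = a := funext ha'
    subst ha
    refine ⟨ev X g ⟨sepF F φ (fun i => a' i) x, hX.sep n φ _ (fun i => (a' i).2) x x.2⟩,
      fun z => ?_⟩
    obtain ⟨z, rfl⟩ := ev_surj z
    rw [tl1]
    change val X g z ∈ val X g (sepF F φ (fun i => a' i) x) ↔ val X g z ∈ val X g x ∧ _
    constructor
    · intro h
      obtain ⟨u, q, hu, huX, hq, e⟩ := mem_val.1 h
      obtain ⟨c, hc, hqc, hm⟩ := mem_ch_sepN.1 hu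
      refine ⟨mem_val.2 ⟨u, c, hc, huX, hg.fil.up _ _ hq hqc, e⟩, ?_⟩
      have e2 : ev X g z = ev X g ⟨u, huX⟩ := Subtype.ext e
      rw [← tl1, e2, tl1]
      exact ⟨q, hq, hm⟩
    · rintro ⟨h1, h2⟩
      obtain ⟨u, c, huc, huX, hc, e⟩ := mem_val.1 h1
      have e2 : ev X g z = ev X g ⟨u, huX⟩ := Subtype.ext e
      rw [← tl1, e2, tl1] at h2
      obtain ⟨p, hp, hm⟩ := h2
      obtain ⟨r, hr, hrp, hrc⟩ := hg.fil.dir p c hp hc
      exact mem_val.2 ⟨u, r, mem_ch_sepN.2 ⟨c, huc, hrc, ff_mono F φ hm hrp⟩, huX, hr, e⟩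
  · -- replacement
    intro n φ a x hfun
    obtain ⟨x, rfl⟩ := ev_surj x
    choose a' ha' using fun i => ev_surj (a i)
    have ha : (fun i => ev X g (a' i)) = a := funext ha'
    subst ha
    refine ⟨ev X g ⟨replF F φ (fun i => a' i) x, hX.repl n φ _ (fun i => (a' i).2) x x.2⟩,
      fun v => ?_⟩
    obtain ⟨v, rfl⟩ := ev_surj v
    change val X g v ∈ val X g (replF F φ (fun i => a' i) x) ↔ _
    constructor
    · intro h
      obtain ⟨y, q, hy, hyX, hq, e⟩ := mem_val.1 h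
      obtain ⟨_, _, _, hm⟩ := mem_ch_sepN.1 hy
      obtain ⟨u, huX, c, huc, hqc, hm⟩ := hX.repl2 n φ _ (fun i => (a' i).2) x x.2 y hyX q hm
      refine ⟨ev X g ⟨u, huX⟩, mem_val.2 ⟨u, c, huc, huX, hg.fil.up _ _ hq hqc, rfl⟩, ?_⟩
      have e2 : ev X g v = ev X g ⟨y, hyX⟩ := Subtype.ext e
      rw [e2, tl2]
      exact ⟨q, hq, hm⟩
    · rintro ⟨u, hu, h⟩
      obtain ⟨u', c, huc, huX, hc, e⟩ := mem_val.1 hu
      have e2 : u = ev X g ⟨u', huX⟩ := Subtype.ext e
      subst e2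
      have h0 := h
      rw [tl2] at h
      obtain ⟨p, hp, hm⟩ := h
      obtain ⟨q, hq, hqp, hqc⟩ := hg.fil.dir p c hp hc
      have hm' := ff_mono F φ hm hqp
      have hw := witY_spec F φ (fun i => (a' i : LName (Cond C I))) u' q
        ⟨v, hX.form.sub v.2, hm'⟩
      have hyX : witY F φ (fun i => (a' i : LName (Cond C I))) u' q ∈ X :=
        hX.wit n φ _ (fun i => (a' i).2) u' huX q
      have h1 : φ.Realize (Fin.cons (ev X g ⟨u', huX⟩)
          (Fin.cons (ev X g ⟨_, hyX⟩) (fun i => ev X g (a' i)) :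
        Fin (n + 1) → Mod X g) : Fin (n + 2) → Mod X g) := by
        rw [tl2]
        exact ⟨q, hq, hw⟩
      have e3 := hfun _ hu _ _ h0 h1
      refine mem_val.2 ⟨_, q, mem_ch_sepN.2 ⟨⊤, mem_ch_collN.2
        ⟨u', c, q, Equiv.refl I, huc, (act_refl _).symm, rfl⟩, le_top, u', c, huc, hqc, hw⟩,
        hyX, hq, congrArg Subtype.val e3⟩

end ZFModel

end Pool.Agent.ChoicelessEmb
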